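import Pool.Agent.W911.KM.Univ

/-!
# Every level of the polynomial hierarchy has measure zero relative to itself
-/

set_option autoImplicit false

set_option maxHeartbeats 400000

namespace Pool.Agent.W911.KM

open Finset Filter Pool.Agent.NPC H568R2 Pool.Agent.H676
open Pool.Agent.H622R2 Pool.Agent.H620R2.Gauge Pool.Agent.H591R3.PHG Pool.Agent.H591R3.PHG.FinalAux
open Pool.Agent.W911.AL
open Pool.Agent.H660R2.NX (Code U IsCode U_complete poly_U)

attribute [local irreducible] unpair

/-- the description used for the strings of length `n` -/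
def sN (n : ℕ) : List Bool := (unpair (str n)).1

/-- the question for the string number `j` -/
def qry (j : ℕ) : List Bool := ist (sN (str j).length) (str j) (j + 1)

/-- the letters of `w` with numbers of the strings of length `n` agree with `a` -/
def ag (a : ℕ → Bool) (n : ℕ) (w : List Bool) : Bool :=
  (List.range w.length).all (fun j => !(decide ((str j).length = n)) || (w.getD j false == a j))

/-- the number of strings of length `n` among the first `ℓ` strings -/
def cnt (n ℓ : ℕ) : ℕ := ((List.range ℓ).filter (fun j => decide ((str j).length = n))).length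

/-- the bet on the strings of length `n` -/
noncomputable def TT (a : ℕ → Bool) (n : ℕ) (w : List Bool) : ℝ :=
  if ag a n w = true then 2 ^ cnt n w.length / 2 ^ (n + 1) else 0

/-- all bets -/
noncomputable def DD (a : ℕ → Bool) (w : List Bool) : ℝ :=
  1 / 2 ^ (w.length + 1) + ∑ n ∈ range (w.length + 1), TT a n w

theorem TT_nonneg (a : ℕ → Bool) (n : ℕ) (w : List Bool) : 0 ≤ TT a n w := by
  unfold TT
  split_ifs
  · positivity
  · exact le_rfl

theorem getD_append_lt {w : List Bool} {b : Bool} {j : ℕ} (hj : j < w.length) :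
    (w ++ [b]).getD j false = w.getD j false := by
  rw [List.getD_eq_getElem?_getD, List.getD_eq_getElem?_getD, List.getElem?_append_left hj]

theorem ag_append (a : ℕ → Bool) (n : ℕ) (w : List Bool) (b : Bool) :
    ag a n (w ++ [b]) = (ag a n w && (!(decide ((str w.length).length = n)) || (b == a w.length))) := by
  unfold ag
  rw [List.length_append, List.length_singleton, List.range_succ, List.all_append]
  congr 1
  · rw [Bool.eq_iff_iff, List.all_eq_true, List.all_eq_true]
    refine forall_congr' fun j => forall_congr' fun hj => ?_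
    rw [getD_append_lt (List.mem_range.1 hj)]
  · simp only [List.all_cons, List.all_nil, Bool.and_true]
    have h : (w ++ [b]).getD w.length false = b := by
      rw [List.getD_eq_getElem?_getD]
      simp
    rw [h]

theorem cnt_succ (n ℓ : ℕ) : cnt n (ℓ + 1) = cnt n ℓ + if (str ℓ).length = n then 1 else 0 := by
  unfold cnt
  rw [List.range_succ, List.filter_append, List.length_append]
  congr 1
  by_cases h : (str ℓ).length = n <;> simp [h]

theorem TT_avg (a : ℕ → Bool) (n : ℕ) (w : List Bool) :
    TT a n (w ++ [false]) + TT a n (w ++ [true]) = 2 * TT a n w := by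
  unfold TT
  simp only [ag_append, List.length_append, List.length_singleton, cnt_succ]
  by_cases h : (str w.length).length = n
  · cases hag : ag a n w
    · simp
    · cases hw : a w.length <;> simp [h, pow_succ] <;> ring
  · cases hag : ag a n w <;> simp [h] <;> ring

theorem length_str_le (j : ℕ) : (str j).length ≤ j := by
  rw [length_str]
  have h := Nat.log_lt_of_lt_pow (b := 2) (x := j + 1) (y := j + 1) (by omega)
    (Nat.lt_two_pow_self (n := j + 1))
  omega

theorem TT_far (a : ℕ → Bool) {n : ℕ} {w : List Bool} (h : w.length ≤ n) :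
    TT a n w = 1 / 2 ^ (n + 1) := by
  have h0 : ∀ j < w.length, (str j).length ≠ n := fun j hj => by
    have := length_str_le j
    omega
  have h1 : ag a n w = true := by
    unfold ag
    rw [List.all_eq_true]
    intro j hj
    simp [h0 j (List.mem_range.1 hj)]
  have h2 : cnt n w.length = 0 := by
    unfold cnt
    rw [List.length_eq_zero_iff, List.filter_eq_nil_iff]
    intro j hj
    simp [h0 j (List.mem_range.1 hj)]
  unfold TT
  rw [if_pos h1, h2, pow_zero]

theorem DD_avg (a : ℕ → Bool) (w : List Bool) :
    DD a (w ++ [false]) + DD a (w ++ [true]) = 2 * DD a w := by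
  unfold DD
  simp only [List.length_append, List.length_singleton]
  rw [Finset.sum_range_succ _ (w.length + 1), Finset.sum_range_succ _ (w.length + 1),
    TT_far a (n := w.length + 1) (w := w ++ [false]) (by simp),
    TT_far a (n := w.length + 1) (w := w ++ [true]) (by simp)]
  have h1 : ∑ n ∈ range (w.length + 1), TT a n (w ++ [false]) +
      ∑ n ∈ range (w.length + 1), TT a n (w ++ [true]) =
      2 * ∑ n ∈ range (w.length + 1), TT a n w := by
    rw [← Finset.sum_add_distrib, Finset.mul_sum]
    exact Finset.sum_congr rfl fun n _ => TT_avg a n w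
  have h2 : (1 : ℝ) / 2 ^ (w.length + 1 + 1) + 1 / 2 ^ (w.length + 1 + 1) =
      1 / 2 ^ (w.length + 1) := by
    rw [pow_succ _ (w.length + 1)]
    field_simp
    norm_num
  linarith

/-- the numerator -/
def numW (a : ℕ → Bool) (w : List Bool) : ℕ :=
  2 + ((List.range (w.length + 1)).map (fun n =>
    if ag a n w = true then 2 ^ (cnt n w.length + (w.length + 1 - n)) else 0)).sum

theorem DD_eq (a : ℕ → Bool) (w : List Bool) : DD a w = (numW a w : ℝ) / 2 ^ (w.length + 2) := by
  unfold DD numW
  rw [Nat.cast_add, add_div]
  congr 1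
  · rw [pow_succ _ (w.length + 1), Nat.cast_ofNat]
    field_simp
  · have h1 : (((List.range (w.length + 1)).map (fun n => if ag a n w = true then
        2 ^ (cnt n w.length + (w.length + 1 - n)) else 0)).sum : ℕ) =
        ∑ n ∈ range (w.length + 1), if ag a n w = true then
          2 ^ (cnt n w.length + (w.length + 1 - n)) else 0 := rfl
    rw [h1]
    push_cast
    rw [Finset.sum_div]
    refine Finset.sum_congr rfl fun n hn => ?_
    rw [Finset.mem_range] at hn
    unfold TT
    by_cases h : ag a n w = true
    · rw [if_pos h, if_pos h]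
      have h2 : w.length + 2 = (n + 1) + (w.length + 1 - n) := by omega
      rw [h2, pow_add _ (n + 1), pow_add _ (cnt n w.length)]
      field_simp
    · rw [if_neg h, if_neg h, zero_div]

theorem cnt_zero (n : ℕ) : ∀ ℓ : ℕ, ℓ ≤ 2 ^ n - 1 → cnt n ℓ = 0 := by
  intro ℓ
  induction ℓ with
  | zero => intro _; rfl
  | succ ℓ ih =>
    intro h
    have h1 := length_str_lt (ℓ := n) (i := ℓ) (by omega)
    rw [cnt_succ, ih (by omega), if_neg (by omega)]

theorem cnt_block (n : ℕ) : ∀ i : ℕ, i ≤ 2 ^ n → cnt n (2 ^ n - 1 + i) = i := by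
  intro i
  induction i with
  | zero => intro _; exact cnt_zero n _ le_rfl
  | succ i ih =>
    intro h
    rw [← Nat.add_assoc, cnt_succ, ih (by omega), if_pos (length_str_block (by omega))]

theorem cnt_full (n : ℕ) : cnt n (2 ^ (n + 1) - 1) = 2 ^ n := by
  have h1 := cnt_block n (2 ^ n) le_rfl
  have h2 : 1 ≤ 2 ^ n := Nat.one_le_two_pow
  have h3 : 2 ^ (n + 1) - 1 = 2 ^ n - 1 + 2 ^ n := by rw [pow_succ]; omega
  rw [h3]
  exact h1

/-- the success of the bets -/
theorem DD_large {a : ℕ → Bool} {L : Set (List Bool)} {n k : ℕ}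
    (h : ∀ j, (str j).length = n → (a j = true ↔ str j ∈ L)) (hk : k ≤ n) (hn : 3 ≤ n) :
    1 ≤ DD a (prefL L (2 ^ (n + 1) - 1)) / 2 ^ k := by
  classical
  set w := prefL L (2 ^ (n + 1) - 1) with hw
  have hl : w.length = 2 ^ (n + 1) - 1 := length_prefL _ _
  have h1 : ag a n w = true := by
    unfold ag
    rw [List.all_eq_true]
    intro j hj
    rw [List.mem_range, hl] at hj
    by_cases hjn : (str j).length = n
    · have h2 : w.getD j false = decide (str j ∈ L) := by
        rw [hw, prefL, List.getD_eq_getElem?_getD]
        simp [hj]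
      rw [h2]
      have h3 : decide (str j ∈ L) = a j := by
        rw [Bool.eq_iff_iff, decide_eq_true_iff]
        exact (h j hjn).symm
      simp [h3]
    · simp [hjn]
  have hlt : n < 2 ^ n := Nat.lt_two_pow_self
  have h4 : (2 * n + 1 : ℕ) ≤ 2 ^ n := by
    clear h h1 hl hw hk hlt
    induction n, hn using Nat.le_induction with
    | base => norm_num
    | succ n hn ih => rw [pow_succ]; omega
  have h2 : TT a n w = 2 ^ 2 ^ n / 2 ^ (n + 1) := by
    unfold TT
    rw [if_pos h1, hl, cnt_full]
  have h3 : TT a n w ≤ DD a w := by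
    unfold DD
    have h5 : TT a n w ≤ ∑ m ∈ range (w.length + 1), TT a m w := by
      refine Finset.single_le_sum (fun m _ => TT_nonneg a m w) ?_
      rw [Finset.mem_range, hl, pow_succ]
      omega
    have h6 : (0 : ℝ) ≤ 1 / 2 ^ (w.length + 1) := by positivity
    linarith
  rw [le_div_iff₀ (by positivity), one_mul]
  refine le_trans ?_ h3
  rw [h2, le_div_iff₀ (by positivity), ← pow_add]
  exact pow_le_pow_right₀ (by norm_num) (by omega)

theorem poly_str {α : Type} [TEnc α] {j : α → ℕ} (hj : Poly j) : Poly (fun a => str (j a)) := by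
  unfold str
  exact Poly.tail (Poly.reverse (Poly.natBits (Poly.succ hj)))

theorem poly_qry {α : Type} [TEnc α] {j : α → ℕ} (hj : UPoly j) : Poly (fun a => qry (j a)) := by
  unfold qry sN
  have h1 := poly_str hj.toPoly
  exact poly_ist (Poly.fst (poly_unpair.comp (poly_str (Poly.length h1)))) h1
    (UPoly.add hj (UPoly.const 1))

/-- the answers in a list -/
theorem poly_ag {α : Type} [TEnc α] {w l : α → List Bool} {n : α → ℕ} (hw : Poly w) (hl : Poly l)
    (hn : Poly n) : Poly (fun i => ag (fun j => (l i).getD j false) (n i) (w i)) := by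
  unfold ag
  refine Poly.all (p := fun (i : α) (j : ℕ) => !(decide ((str j).length = n i)) ||
    ((w i).getD j false == (l i).getD j false)) (UPoly.range (UPoly.length hw)) ?_
  have h1 : Poly (fun p : α × ℕ => decide ((str p.2).length = n p.1)) :=
    Poly.decide_eq (Poly.length (poly_str (Poly.snd Poly.id))) (hn.comp (Poly.fst Poly.id))
  have h2 : Poly (fun p : α × ℕ => (w p.1).getD p.2 false) :=
    Poly.getD (hw.comp (Poly.fst Poly.id)) (Poly.snd Poly.id) (NPC.Poly.const false)
  have h3 : Poly (fun p : α × ℕ => (l p.1).getD p.2 false) :=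
    Poly.getD (hl.comp (Poly.fst Poly.id)) (Poly.snd Poly.id) (NPC.Poly.const false)
  exact Poly.or (Poly.not h1) ((Poly.decide_eq h2 h3).congr fun p => by
    cases (w p.1).getD p.2 false <;> cases (l p.1).getD p.2 false <;> rfl)

theorem poly_cnt {α : Type} [TEnc α] {n ℓ : α → ℕ} (hn : Poly n) (hℓ : UPoly ℓ) :
    UPoly (fun i => cnt (n i) (ℓ i)) := by
  unfold cnt
  refine UPoly.length (Poly.filter (p := fun (i : α) (j : ℕ) => decide ((str j).length = n i))
    (UPoly.range hℓ) ?_)
  exact Poly.decide_eq (Poly.length (poly_str (Poly.snd Poly.id))) (hn.comp (Poly.fst Poly.id))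

theorem poly_numW {α : Type} [TEnc α] {w l : α → List Bool} (hw : Poly w) (hl : Poly l) :
    Poly (fun i => numW (fun j => (l i).getD j false) (w i)) := by
  have hw' : Poly (fun p : α × ℕ => w p.1) := hw.comp (Poly.fst Poly.id)
  have hl' : Poly (fun p : α × ℕ => l p.1) := hl.comp (Poly.fst Poly.id)
  have hn' : Poly (fun p : α × ℕ => p.2) := Poly.snd Poly.id
  have h1 : UPoly (fun p : α × ℕ => cnt p.2 (w p.1).length + ((w p.1).length + 1 - p.2)) := by
    refine UPoly.add (poly_cnt hn' (UPoly.length hw')) ?_
    refine UPoly.of_le (Poly.sub (Poly.succ (Poly.length hw')) hn')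
      (UPoly.add (UPoly.length hw') (UPoly.const 1)) fun p => by omega
  unfold numW
  refine Poly.add (NPC.Poly.const 2) (Poly.sum (NPC.Poly.map (F := fun (i : α) (n : ℕ) =>
    if ag (fun j => (l i).getD j false) n (w i) = true then
      2 ^ (cnt n (w i).length + ((w i).length + 1 - n)) else 0)
    (UPoly.range (UPoly.add (UPoly.length hw) (UPoly.const 1))) ?_))
  exact Poly.ite ((Poly.decide_eq (poly_ag hw' hl' hn') (NPC.Poly.const true)))
    (poly_pow2 h1) (NPC.Poly.const 0)

theorem numW_congr {a a' : ℕ → Bool} {w : List Bool} (h : ∀ j < w.length, a j = a' j) :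
    numW a w = numW a' w := by
  have h1 : ∀ n, ag a n w = ag a' n w := by
    intro n
    unfold ag
    rw [Bool.eq_iff_iff, List.all_eq_true, List.all_eq_true]
    refine forall_congr' fun j => forall_congr' fun hj => ?_
    rw [h j (List.mem_range.1 hj)]
  unfold numW
  simp only [h1]

theorem eval_le_two_pow (P : Polynomial ℕ) : ∀ᶠ n : ℕ in atTop, P.eval n ≤ 2 ^ n := by
  obtain ⟨d, hd⟩ := poly_le_pow P
  have h1 : (fun n : ℕ => (n : ℝ) ^ d) =o[atTop] (fun n : ℕ => (2 : ℝ) ^ n) :=
    isLittleO_pow_const_const_pow_of_one_lt d one_lt_two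
  have h2 := h1.bound (c := 1) one_pos
  filter_upwards [hd, h2] with n h3 h4
  refine h3.trans ?_
  rw [one_mul, Real.norm_of_nonneg (by positivity), Real.norm_of_nonneg (by positivity)] at h4
  exact_mod_cast h4

/-- the description `s` is used for infinitely many lengths -/
theorem exists_length (s : List Bool) (N : ℕ) : ∃ n ≥ N, sN n = s := by
  refine ⟨idx (pairBits s (List.replicate N false)), ?_, ?_⟩
  · have h1 := le_idx (pairBits s (List.replicate N false))
    have h2 : N ≤ (pairBits s (List.replicate N false)).length := by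
      rw [length_pairBits, List.length_replicate]
      omega
    have h3 : (pairBits s (List.replicate N false)).length <
      2 ^ (pairBits s (List.replicate N false)).length := Nat.lt_two_pow_self
    omega
  · unfold sN
    rw [str_idx, unpair_pairBits]

open Classical in
/-- the answers -/
noncomputable def aU (A : Oracle) (k : ℕ) (j : ℕ) : Bool := decide (qry j ∈ BU A k)

theorem aU_spec {A : Oracle} {k : ℕ} {L : Set (List Bool)} (hL : IsSigma A (fun _ => k) L)
    (N : ℕ) : ∃ n ≥ N, ∀ j, (str j).length = n → (aU A k j = true ↔ str j ∈ L) := by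
  classical
  obtain ⟨s, b, hb⟩ := ist_univ hL
  obtain ⟨N1, hN1⟩ := eventually_atTop.1 (eval_le_two_pow b)
  obtain ⟨n, hn, hs⟩ := exists_length s (max N N1)
  refine ⟨n, le_trans (le_max_left _ _) hn, fun j hj => ?_⟩
  unfold aU
  rw [decide_eq_true_iff, qry, hj, hs]
  apply hb
  rw [hj]
  refine (hN1 n (le_trans (le_max_right _ _) hn)).trans ?_
  have h1 := le_idx (str j)
  rw [idx_str, hj] at h1
  exact h1

/-- The level `Σ_k` of the polynomial hierarchy relative to `A` has measure zero for density
functions computable in polynomial time relative to the join of `A` and a set in `Σ_k`. -/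
theorem null_self (A : Oracle) (k : ℕ) :
    NullP (join A (BU A k)) {L | IsSigma A (fun _ => k) L} := by
  classical
  have hD0 : ∀ w, 0 ≤ DD (aU A k) w := by
    intro w
    unfold DD
    have h1 : 0 ≤ ∑ n ∈ range (w.length + 1), TT (aU A k) n w :=
      Finset.sum_nonneg fun n _ => TT_nonneg _ _ _
    positivity
  refine ⟨fun i w => DD (aU A k) w / 2 ^ i, ⟨fun i w => div_nonneg (hD0 w) (by positivity),
    fun i w => ?_, fun i => ?_, fun i L hL => ?_⟩, ?_⟩
  · beta_reduce
    have h1 := DD_avg (aU A k) w
    have h2 : (DD (aU A k) (w ++ [false]) / 2 ^ i + DD (aU A k) (w ++ [true]) / 2 ^ i) / 2 =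
        ((DD (aU A k) (w ++ [false]) + DD (aU A k) (w ++ [true])) / 2) / 2 ^ i := by ring
    rw [h2, h1]
    apply le_of_eq
    ring
  · beta_reduce
    have h1 : DD (aU A k) [] = 1 := by
      unfold DD
      rw [List.length_nil, Finset.sum_range_one, TT_far (aU A k) (n := 0) (w := []) (by simp)]
      norm_num
    rw [h1]
  · obtain ⟨n, hn, h⟩ := aU_spec hL (max i 3)
    exact ⟨2 ^ (n + 1) - 1, DD_large h (le_trans (le_max_left _ _) hn)
      (le_trans (le_max_right _ _) hn)⟩
  -- the computation
  have hw : Poly (fun z : List Bool => (unpair (unpair z).2).2) :=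
    Poly.snd (poly_unpair.comp (Poly.snd poly_unpair))
  have hQ : Poly (fun z : List Bool => (List.range (unpair (unpair z).2).2.length).map
      (fun j => true :: qry (min j (unpair (unpair z).2).2.length))) := by
    refine NPC.Poly.map (F := fun (z : List Bool) (j : ℕ) =>
      true :: qry (min j (unpair (unpair z).2).2.length)) (UPoly.range (UPoly.length hw)) ?_
    have h1 : UPoly (fun p : List Bool × ℕ => (unpair (unpair p.1).2).2.length) :=
      UPoly.length (hw.comp (Poly.fst Poly.id))
    exact Poly.cons (NPC.Poly.const true) (poly_qry (UPoly.of_le (Poly.min (Poly.snd Poly.id)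
      h1.toPoly) h1 fun p => min_le_right _ _))
  have hH : Poly (fun p : List Bool × List Bool => pairBits
      (Nat.bits (numW (fun j => p.2.getD j false) (unpair (unpair p.1).2).2))
      (pairBits [] (List.replicate ((unpair p.1).1.length +
        (unpair (unpair p.1).2).2.length + 2) true))) := by
    have h1 : Poly (fun p : List Bool × List Bool => (unpair (unpair p.1).2).2) :=
      hw.comp (Poly.fst Poly.id)
    have h2 : Poly (fun p : List Bool × List Bool => (unpair p.1).1) :=
      (Poly.fst poly_unpair).comp (Poly.fst Poly.id)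
    refine poly_pairBits (Poly.natBits (poly_numW h1 (Poly.snd Poly.id)))
      (poly_pairBits (NPC.Poly.const []) (Pool.Agent.H628R3.RO.p_replicate ?_ true))
    exact UPoly.add (UPoly.add (UPoly.length h2) (UPoly.length h1)) (UPoly.const 2)
  refine ⟨_, IsFP.tt (A := join A (BU A k)) hQ hH, fun i r w => ?_⟩
  have e1 : (unpair (inp i r w)).1.length = i := by
    unfold inp
    rw [unpair_pairBits, List.length_replicate]
  have e2 : (unpair (unpair (inp i r w)).2).2 = w := by
    unfold inp
    rw [unpair_pairBits, unpair_pairBits]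
  simp only [e1, e2]
  have e3 : numW (fun j => (((List.range w.length).map
      (fun j => true :: qry (min j w.length))).map (join A (BU A k))).getD j false) w =
      numW (aU A k) w := by
    apply numW_congr
    intro j hj
    rw [List.getD_eq_getElem?_getD]
    simp only [List.map_map, List.getElem?_map, List.getElem?_range hj, Option.map_some,
      Option.getD_some, Function.comp_apply, min_eq_left hj.le, join, aU]
  rw [e3]
  have e4 : dy (pairBits (Nat.bits (numW (aU A k) w))
      (pairBits [] (List.replicate (i + w.length + 2) true))) = DD (aU A k) w / 2 ^ i := by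
    unfold dy
    simp only [unpair_pairBits, valB_bits, valB_nil, List.length_replicate]
    rw [DD_eq, Nat.cast_zero, sub_zero, div_div, ← pow_add]
    congr 2
    omega
  rw [e4, sub_self, abs_zero]
  positivity

theorem nice_const (j : ℕ) : Nice (fun _ => j) :=
  polyTime_of_poly_list (NPC.Poly.const (List.replicate j true))

/-- Relative to almost every oracle `A`: the level `Σ_k` of the polynomial hierarchy has measure
zero for density functions computable in polynomial time relative to the join of `A` and a set in
`Σ_j` if and only if `k ≤ j`. -/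
theorem exact_ae : ∀ᵐ A ∂fair, ∀ k j : ℕ,
    (∃ B : Set (List Bool), IsSigma A (fun _ => j) B ∧
      NullP (join A B) {L | IsSigma A (fun _ => k) L}) ↔ k ≤ j := by
  filter_upwards [km_ae] with A hA
  intro k j
  constructor
  · rintro ⟨B, hB, hn⟩
    by_contra hlt
    obtain ⟨κ, rfl⟩ : ∃ κ, k = κ + 1 := ⟨k - 1, by omega⟩
    obtain ⟨L, hL, h⟩ := hA κ 0
    refine h B ?_ _ hL (hn.nullQP 0)
    exact IsSigma.mono (nice_const j) (Filter.Eventually.of_forall fun _ => by omega) hB
  · intro hkj
    refine ⟨BU A k, ?_, null_self A k⟩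
    exact IsSigma.mono (nice_const k) (Filter.Eventually.of_forall fun _ => hkj) (sigma_BU A k)

end Pool.Agent.W911.KM
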