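import Pool.Agent.W911.KM.Sig
import Pool.Agent.H620R2.GaugeR.R1
import Pool.Agent.H620R2.GaugeR.Seq
import Pool.Agent.H620R2.Gauge.P
import Pool.Agent.H620R2.Gauge.Event

/-!
# Languages decided with quantified strings of linear length are in `E`
-/

set_option autoImplicit false

namespace Pool.Agent.W911.KM

open Finset Pool.Agent.NPC H568R2 Pool.Agent.H676 Pool.Agent.H622R2
open Pool.Agent.H620R2.Gauge Pool.Agent.H591R3.PHG
open Pool.Agent.W911.AL Pool.Agent.W911.AL.Up
open Pool.Agent.H620R2.Gauge.PTask (inc poly_inc inc_bitsOf bitsOf_eq_zero)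

/-- The language `L` is in the class `E` relative to the oracle `A`: it is decided in time
`2 ^ O(n)`. The algorithm works in polynomial time, but it gets, besides the input `x` of length
`n`, a string of `2 ^ (c (n + 1))` ones. -/
def IsE (A : Oracle) (L : Set (List Bool)) : Prop :=
  ∃ (c : ℕ) (F : List Bool → List Bool), IsFP A F ∧
    ∀ x, x ∈ L ↔ F (pairBits (List.replicate (2 ^ (c * (x.length + 1))) true) x) = [true]

namespace InE

/-- the parts of the content of the memory -/
def sy (s : List Bool) : List Bool := (unpair s).1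
def sw (s : List Bool) : List Bool := (unpair (unpair s).2).1
def sa (s : List Bool) : List Bool := (unpair (unpair s).2).2
def yp (y : List Bool) : List Bool := (unpair y).1
def yx (y : List Bool) : List Bool := (unpair (unpair y).2).1
def yu (y : List Bool) : List Bool := (unpair (unpair y).2).2

variable {α : Type} [TEnc α]

theorem poly_sy {f : α → List Bool} (hf : Poly f) : Poly (fun x => sy (f x)) :=
  (Poly.fst poly_unpair).comp hf
theorem poly_2 {f : α → List Bool} (hf : Poly f) : Poly (fun x => (unpair (f x)).2) :=
  (Poly.snd poly_unpair).comp hf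
theorem poly_sw {f : α → List Bool} (hf : Poly f) : Poly (fun x => sw (f x)) :=
  (Poly.fst poly_unpair).comp (poly_2 hf)
theorem poly_sa {f : α → List Bool} (hf : Poly f) : Poly (fun x => sa (f x)) :=
  (Poly.snd poly_unpair).comp (poly_2 hf)

/-- one round of the search -/
def S (G : List Bool → List Bool) (b : Bool) (s : List Bool) : List Bool :=
  pairBits (sy s) (pairBits (inc (sw s))
    [decide (sa s = [true]) ||
      xor (decide (G (pairBits (yp (sy s)) (pairBits (yx (sy s)) (yu (sy s) ++ sw s))) = [true]))
        (!b)])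

theorem isFP_S {A : Oracle} {G : List Bool → List Bool} (hG : IsFP A G) (b : Bool) :
    IsFP A (S G b) := by
  have h1 : Poly (fun p : List Bool × List Bool => sy p.1) := poly_sy (Poly.fst Poly.id)
  have h2 : Poly (fun p : List Bool × List Bool => sw p.1) := poly_sw (Poly.fst Poly.id)
  have h3 : Poly (fun p : List Bool × List Bool => pairBits (yp (sy p.1))
      (pairBits (yx (sy p.1)) (yu (sy p.1) ++ sw p.1))) :=
    poly_pairBits (poly_sy h1) (poly_pairBits (poly_sw h1) (Poly.append (poly_sa h1) h2))
  have h4 : Poly (fun p : List Bool × List Bool × List Bool =>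
      pairBits (sy p.1) (pairBits (inc (sw p.1)) [decide (sa p.1 = [true]) ||
        xor (decide (p.2.2 = [true])) (!b)])) := by
    have e1 : Poly (fun p : List Bool × List Bool × List Bool => p.1) := Poly.fst Poly.id
    refine poly_pairBits (poly_sy e1) (poly_pairBits (poly_inc.comp (poly_sw e1))
      (Poly.cons (Poly.or (Poly.decide_eq (poly_sa e1) (NPC.Poly.const [true]))
        (Poly.xor (Poly.decide_eq (Poly.snd (Poly.snd Poly.id)) (NPC.Poly.const [true]))
          (NPC.Poly.const (!b)))) (NPC.Poly.const [])))
  exact IsFP.seq (A := A) (F := fun s => s) (G := G)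
    (φ := fun p => pairBits (yp (sy p.1)) (pairBits (yx (sy p.1)) (yu (sy p.1) ++ sw p.1)))
    (ψ := fun p => pairBits (sy p.1) (pairBits (inc (sw p.1)) [decide (sa p.1 = [true]) ||
        xor (decide (p.2.2 = [true])) (!b)]))
    (IsFP.of_poly Poly.id) hG h3 h4

theorem exists_lt_succ_iff (P : ℕ → Prop) (i : ℕ) :
    (∃ l < i + 1, P l) ↔ (∃ l < i, P l) ∨ P i := by
  constructor
  · rintro ⟨l, hl, h⟩
    rcases Nat.lt_succ_iff_lt_or_eq.1 hl with h1 | h1
    · exact Or.inl ⟨l, h1, h⟩
    · exact Or.inr (h1 ▸ h)
  · rintro (⟨l, hl, h⟩ | h)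
    · exact ⟨l, by omega, h⟩
    · exact ⟨i, by omega, h⟩

open Classical in
theorem iter_S (G : List Bool → List Bool) (b : Bool) (m : ℕ) (y : List Bool) : ∀ i : ℕ,
    (S G b)^[i] (pairBits y (pairBits (List.replicate m false) [false])) =
      pairBits y (pairBits (bitsOf m i) [decide (∃ l < i,
        xor (decide (G (pairBits (yp y) (pairBits (yx y) (yu y ++ bitsOf m l))) = [true]))
          (!b) = true)]) := by
  intro i
  induction i with
  | zero =>
    have h : List.replicate m false = bitsOf m 0 :=
      ((bitsOf_eq_zero m 0).2 (Nat.zero_mod _)).symm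
    rw [Function.iterate_zero, id, h]
    simp
  | succ i ih =>
    rw [Function.iterate_succ_apply', ih]
    unfold S
    simp only [sy, sw, sa, unpair_pairBits, inc_bitsOf]
    congr 3
    rw [Bool.eq_iff_iff, Bool.or_eq_true, decide_eq_true_iff, decide_eq_true_iff,
      exists_lt_succ_iff]
    apply or_congr _ Iff.rfl
    simp only [List.cons.injEq, and_true, decide_eq_true_eq]

open Classical in
/-- the quantifier -/
theorem quant {A : Oracle} {G : List Bool → List Bool} (hG : IsFP A G) (b : Bool) {m : ℕ → ℕ}
    (hm : UPoly (fun x : List Bool => m x.length)) :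
    ∃ G' : List Bool → List Bool, IsFP A G' ∧ ∀ pad x u : List Bool, 2 ^ m x.length ≤ pad.length →
      (G' (pairBits pad (pairBits x u)) = [true] ↔
        ((∃ w : List Bool, w.length = m x.length ∧
          xor (decide (G (pairBits pad (pairBits x (u ++ w))) = [true])) (!b) = true) ↔
          b = true)) := by
  have hmy : UPoly (fun y : List Bool => m (yx y).length) := hm.comp (poly_sw Poly.id)
  have hg : Poly (fun y : List Bool =>
      pairBits y (pairBits (List.replicate (m (yx y).length) false) [false])) := by
    have h1 : Poly (fun y : List Bool => List.replicate (m (yx y).length) false) :=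
      (NPC.Poly.map (F := fun _ _ => false) hmy (NPC.Poly.const false)).congr
        (fun y => List.map_replicate)
    exact poly_pairBits Poly.id (poly_pairBits h1 (NPC.Poly.const [false]))
  obtain ⟨q, hq⟩ := exists_bound hmy
  have hloop := IsFP.loop (isFP_S hG b) hg Polynomial.X
    (Polynomial.C 2 * Polynomial.X + Polynomial.C 2 * q.comp (Polynomial.C 4 * Polynomial.X +
      Polynomial.C 1) + Polynomial.C 3) (fun y i _ => by
      rw [iter_S, length_pairBits, length_pairBits, length_bitsOf, List.length_singleton]
      have h1 := hq y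
      have h2 := eval_mono q (sz_listBool_le y)
      simp only [Polynomial.eval_add, Polynomial.eval_mul, Polynomial.eval_C, Polynomial.eval_X,
        Polynomial.eval_comp]
      omega)
  have hout : Poly (fun s : List Bool => [xor (decide (sa s = [true])) (!b)]) :=
    Poly.cons (Poly.xor (Poly.decide_eq (poly_sa Poly.id) (NPC.Poly.const [true]))
      (NPC.Poly.const (!b))) (NPC.Poly.const [])
  refine ⟨_, (IsFP.of_poly hout).comp hloop, fun pad x u hp => ?_⟩
  rw [iter_S]
  simp only [sa, yp, yx, yu, unpair_pairBits, Polynomial.eval_X]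
  have h1 : (∃ l < (pairBits pad (pairBits x u)).length,
      xor (decide (G (pairBits pad (pairBits x (u ++ bitsOf (m x.length) l))) = [true]))
        (!b) = true) ↔ ∃ w : List Bool, w.length = m x.length ∧
      xor (decide (G (pairBits pad (pairBits x (u ++ w))) = [true])) (!b) = true := by
    constructor
    · rintro ⟨l, _, h⟩
      exact ⟨bitsOf (m x.length) l, length_bitsOf _ _, h⟩
    · rintro ⟨w, hw, h⟩
      obtain ⟨l, hl, h2⟩ := exists_bitsOf w
      rw [hw] at hl h2
      refine ⟨l, ?_, by rw [h2]; exact h⟩
      rw [length_pairBits]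
      omega
  have key : ∀ (P : Prop) (_ : Decidable P), ([xor (decide ([decide P] = [true])) (!b)] = [true] ↔
      (P ↔ b = true)) := by
    intro P _
    by_cases hP : P <;> cases b <;> simp [hP]
  rw [key, h1]

theorem alt_fp {A : Oracle} {V : List Bool → List Bool} (hV : IsFP A V) {m : ℕ → ℕ}
    (hm : UPoly (fun x : List Bool => m x.length)) : ∀ (j : ℕ) (b : Bool),
    ∃ G : List Bool → List Bool, IsFP A G ∧ ∀ pad x u : List Bool, 2 ^ m x.length ≤ pad.length →
      (G (pairBits pad (pairBits x u)) = [true] ↔
        Alt (m x.length) (fun u => V (pairBits x u) = [true]) j b u) := by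
  intro j
  induction j with
  | zero =>
    intro b
    refine ⟨fun y => V (unpair y).2, hV.precomp (Poly.snd poly_unpair), fun pad x u _ => ?_⟩
    simp only [unpair_pairBits]
    cases b <;> exact Iff.rfl
  | succ j ih =>
    intro b
    obtain ⟨G, hG, h⟩ := ih (!b)
    obtain ⟨G', hG', h'⟩ := quant hG b hm
    refine ⟨G', hG', fun pad x u hp => ?_⟩
    rw [h' pad x u hp]
    cases b with
    | true =>
      simp only [Alt, iff_true, Bool.not_true, Bool.xor_false, decide_eq_true_eq]
      refine exists_congr fun w => and_congr_right fun _ => ?_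
      rw [h pad x (u ++ w) hp]
      rfl
    | false =>
      simp only [Alt, Bool.not_false, Bool.xor_true, Bool.false_eq_true, iff_false, not_exists,
        not_and, Bool.not_eq_true', decide_eq_false_iff_not, not_not]
      refine forall_congr' fun w => imp_congr_right fun _ => ?_
      rw [h pad x (u ++ w) hp]
      rfl

end InE

/-- the language is decided with alternating quantifiers over strings of linear length -/
theorem isE_of_alt {A : Oracle} {V : List Bool → List Bool} (hV : IsFP A V) {m : ℕ → ℕ}
    (hm : UPoly (fun x : List Bool => m x.length)) {c : ℕ} (hc : ∀ ℓ, m ℓ ≤ c * (ℓ + 1)) (j : ℕ)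
    {L : Set (List Bool)} (hL : ∀ x, x ∈ L ↔ Alt (m x.length)
      (fun u => V (pairBits x u) = [true]) j true []) : IsE A L := by
  obtain ⟨G, hG, h⟩ := InE.alt_fp hV hm j true
  have h1 : Poly (fun y : List Bool => pairBits (unpair y).1 (pairBits (unpair y).2 [])) :=
    poly_pairBits (Poly.fst poly_unpair) (poly_pairBits (Poly.snd poly_unpair)
      (NPC.Poly.const []))
  refine ⟨c, _, hG.precomp h1, fun x => ?_⟩
  simp only [unpair_pairBits]
  rw [hL x, h _ x [] (by
    rw [List.length_replicate]
    exact Nat.pow_le_pow_right (by norm_num) (hc _))]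

theorem hlc_isE (κ C : ℕ) (A : Oracle) : IsE A (HLC κ (C, 0) A) := by
  refine isE_of_alt (Sig.isFP_Ver κ (C, 0) A) (m := fun ℓ => 64 * nn (C, 0) ℓ)
    (UPoly.mul (UPoly.const 64) (Sig.upoly_nn Poly.id (C, 0))) (c := 320 * C) (fun ℓ => ?_)
    (κ + 1) (fun x => Sig.main κ (C, 0) A x)
  simp only [nn, zero_add, pow_one]
  nlinarith [Nat.zero_le (C * ℓ)]

end Pool.Agent.W911.KM
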