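import Pool.Agent.W911.KM.Loc

/-!
# The bets on the strings of one length
-/

set_option autoImplicit false

namespace Pool.Agent.W911.KM

open Finset Pool.Agent.NPC H568R2 Pool.Agent.H676
open Pool.Agent.H620R2.Gauge Pool.Agent.H591R3.PHG Pool.Agent.H591R3.PHG.FinalAux
open Pool.Agent.W911.AL

/-- An algorithm computing approximations, the exponent of the padding, the parameters of the
trees, and an algorithm and a polynomial for a set in the level `Σ_κ`. -/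
structure Par where
  M : Alg
  cp : ℕ
  cl : ℕ × ℕ
  V : Alg
  p : Polynomial ℕ
  κ : ℕ

/-- the hard language for the parameters -/
def Par.L (θ : Par) (A : Oracle) : Set (List Bool) := HLC θ.κ θ.cl A

/-- the capital before the bets on the strings of length `ℓ` -/
noncomputable def SV (θ : Par) (k ℓ : ℕ) (A : Oracle) : ℝ :=
  ss (ee θ.M θ.cp (OB θ.V θ.p θ.κ A) k) (4 / 2 ^ k) (prefL (θ.L A) (2 ^ ℓ - 1))

/-- the number `n` for the inputs of length `ℓ` -/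
def Par.n (θ : Par) (ℓ : ℕ) : ℕ := nn θ.cl ℓ

/-- the strings of length `ℓ` -/
def xs (ℓ : ℕ) (j : Fin (2 ^ ℓ)) : List Bool := str (2 ^ ℓ - 1 + j)

theorem length_xs (ℓ : ℕ) (j : Fin (2 ^ ℓ)) : (xs ℓ j).length = ℓ := length_str_block j.isLt

theorem xs_inj (ℓ : ℕ) : Function.Injective (xs ℓ) := by
  intro j j' h
  have h1 := str_injective h
  exact Fin.ext (by omega)

/-- the strings for the children of the roots -/
def ys (ℓ n M : ℕ) (y : Fin (2 ^ ℓ) × Fin M) : List Bool :=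
  root (xs ℓ y.1) ++ bitsOf (64 * n) y.2

theorem length_ys (ℓ n M : ℕ) (y : Fin (2 ^ ℓ) × Fin M) :
    (ys ℓ n M y).length = 2 * ℓ + 1 + 64 * n := by
  unfold ys
  rw [List.length_append, length_root, length_xs, length_bitsOf]

theorem ys_inj {ℓ n M : ℕ} (hM : M ≤ 2 ^ (64 * n)) : Function.Injective (ys ℓ n M) := by
  rintro ⟨j, i⟩ ⟨j', i'⟩ h
  have h1 := List.append_inj h (by rw [length_root, length_root, length_xs, length_xs])
  have h2 : xs ℓ j = xs ℓ j' := by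
    have := congrArg (fun l => (unpair l).1) h1.1
    simpa [root, unpair_pairBits] using this
  have h3 := bitsOf_inj (lt_of_lt_of_le i.isLt hM) (lt_of_lt_of_le i'.isLt hM) h1.2
  exact Prod.ext (xs_inj ℓ h2) (Fin.ext h3)

section

variable {ℓ n M w N : ℕ} {as : List ℕ}

/-- the string of a leaf -/
def lf (ℓ n M w : ℕ) (as : List ℕ) (g : Idx (Fin (2 ^ ℓ) × Fin M) (w :: pw as)) : List Bool :=
  addr (ys ℓ n M) as g.1 ++ List.replicate g.2.val true

theorem lf_inj (hM : M ≤ 2 ^ (64 * n)) : Function.Injective (lf ℓ n M w as) :=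
  leaf_inj (ys ℓ n M) (ys_inj hM) _ (length_ys ℓ n M) as w

/-- the position of a leaf -/
def ps (hN : ∀ g : Idx (Fin (2 ^ ℓ) × Fin M) (w :: pw as), idx (lf ℓ n M w as g) < N)
    (g : Idx (Fin (2 ^ ℓ) × Fin M) (w :: pw as)) : Fin N := ⟨idx (lf ℓ n M w as g), hN g⟩

theorem ps_inj (hM : M ≤ 2 ^ (64 * n))
    (hN : ∀ g : Idx (Fin (2 ^ ℓ) × Fin M) (w :: pw as), idx (lf ℓ n M w as g) < N) :
    Function.Injective (ps hN) := by
  intro g g' h
  have h1 : idx (lf ℓ n M w as g) = idx (lf ℓ n M w as g') := by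
    simpa [ps] using h
  exact lf_inj hM (by rw [← str_idx (lf ℓ n M w as g), h1, str_idx])

open Classical in
/-- the bits of the leaves are replaced -/
noncomputable def ow (hN : ∀ g : Idx (Fin (2 ^ ℓ) × Fin M) (w :: pw as),
      idx (lf ℓ n M w as g) < N) (a : Fin N → Bool)
    (z : Idx (Fin (2 ^ ℓ) × Fin M) (w :: pw as) → Bool) : Fin N → Bool :=
  fun i => if h : ∃ j, ps hN j = i then z h.choose else a i

theorem ow_lf (hM : M ≤ 2 ^ (64 * n))
    (hN : ∀ g : Idx (Fin (2 ^ ℓ) × Fin M) (w :: pw as), idx (lf ℓ n M w as g) < N)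
    (a : Fin N → Bool) (z : Idx (Fin (2 ^ ℓ) × Fin M) (w :: pw as) → Bool)
    (g : Idx (Fin (2 ^ ℓ) × Fin M) (w :: pw as)) :
    orc N (ow hN a z) (lf ℓ n M w as g) = z g := by
  have h1 : idx (lf ℓ n M w as g) < N := hN g
  have h2 : orc N (ow hN a z) (lf ℓ n M w as g) = ow hN a z (ps hN g) := by
    unfold orc
    rw [dif_pos h1]
    rfl
  rw [h2]
  unfold ow
  have hex : ∃ j, ps hN j = ps hN g := ⟨g, rfl⟩
  rw [dif_pos hex]
  exact congrArg z (ps_inj hM hN hex.choose_spec)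

theorem ow_other
    (hN : ∀ g : Idx (Fin (2 ^ ℓ) × Fin M) (w :: pw as), idx (lf ℓ n M w as g) < N)
    (a : Fin N → Bool) (z : Idx (Fin (2 ^ ℓ) × Fin M) (w :: pw as) → Bool)
    (q : List Bool) (hq : ∀ g, lf ℓ n M w as g ≠ q) :
    orc N (ow hN a z) q = orc N a q := by
  unfold orc
  by_cases h1 : idx q < N
  · rw [dif_pos h1, dif_pos h1]
    unfold ow
    rw [dif_neg]
    rintro ⟨g, hg⟩
    have h2 : idx (lf ℓ n M w as g) = idx q := by
      simpa [ps] using congrArg Fin.val hg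
    apply hq g
    rw [← str_idx (lf ℓ n M w as g), h2, str_idx]
  · rw [dif_neg h1, dif_neg h1]

theorem addr_start {X : Type} (xs : X → List Bool) (r : X → List Bool)
    (h : ∀ x, ∃ s, xs x = r x ++ s) : ∀ (as : List ℕ) (g : Idx X (pw as)),
    ∃ x s, addr xs as g = r x ++ s := by
  intro as
  induction as with
  | nil => intro g; exact ⟨g, h g⟩
  | cons a as ih =>
    intro g
    obtain ⟨x, s, hs⟩ := ih g.1
    exact ⟨x, s ++ bitsOf a g.2.val, by rw [addr, hs, List.append_assoc]⟩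

theorem lf_start (g : Idx (Fin (2 ^ ℓ) × Fin M) (w :: pw as)) :
    ∃ (j : Fin (2 ^ ℓ)) (s : List Bool), lf ℓ n M w as g = root (xs ℓ j) ++ s := by
  obtain ⟨y, s, hs⟩ := addr_start (ys ℓ n M) (fun y => root (xs ℓ y.1))
    (fun y => ⟨bitsOf (64 * n) y.2, rfl⟩) as g.1
  exact ⟨y.1, s ++ List.replicate g.2.val true, by unfold lf; rw [hs, List.append_assoc]⟩

end

section

variable {κ ℓ N : ℕ} {c : ℕ × ℕ}

/-- the languages on the strings of other lengths do not change -/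
theorem ht_other {n M w : ℕ} {as : List ℕ}
    (hN : ∀ g : Idx (Fin (2 ^ ℓ) × Fin M) (w :: pw as), idx (lf ℓ n M w as g) < N)
    (a : Fin N → Bool) (z : Idx (Fin (2 ^ ℓ) × Fin M) (w :: pw as) → Bool) (x : List Bool)
    (hx : x.length ≠ ℓ) : HT κ c (orc N (ow hN a z)) x = HT κ c (orc N a) x := by
  apply ht_congr
  intro s
  apply ow_other
  intro g hg
  obtain ⟨j, s', hs'⟩ := lf_start g
  rw [hs'] at hg
  have h1 := congrArg (fun l => (unpair l).1) hg
  simp only [unpair_root] at h1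
  apply hx
  rw [← h1, length_xs]

/-- the strings of the length `ℓ` -/
theorem ht_block (hM : topM (nn c ℓ) κ ≤ 2 ^ (64 * nn c ℓ))
    (hN : ∀ g : Idx (Fin (2 ^ ℓ) × Fin (topM (nn c ℓ) κ)) (8 * nn c ℓ :: pw (exl (nn c ℓ) κ)),
      idx (lf ℓ (nn c ℓ) (topM (nn c ℓ) κ) (8 * nn c ℓ) (exl (nn c ℓ) κ) g) < N)
    (a : Fin N → Bool)
    (z : Idx (Fin (2 ^ ℓ) × Fin (topM (nn c ℓ) κ)) (8 * nn c ℓ :: pw (exl (nn c ℓ) κ)) → Bool)
    (j : Fin (2 ^ ℓ)) :
    HT κ c (orc N (ow hN a z)) (xs ℓ j) =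
      decide (∀ i : Fin (topM (nn c ℓ) κ),
        Tr (8 * nn c ℓ :: pw (exl (nn c ℓ) κ)) (val (fun _ => none) z) (j, i) = false) := by
  unfold HT
  rw [length_xs, decide_eq_decide]
  have e1 : val (fun _ => none) z = leaves (ys ℓ (nn c ℓ) (topM (nn c ℓ) κ)) (exl (nn c ℓ) κ)
      (8 * nn c ℓ) (orc N (ow hN a z)) := by
    funext g
    exact (ow_lf hM hN a z g).symm
  have h1 : ∀ i : Fin (topM (nn c ℓ) κ),
      Tr (8 * nn c ℓ :: pw (exl (nn c ℓ) κ)) (val (fun _ => none) z) (j, i) =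
        HC κ (nn c ℓ) (orc N (ow hN a z)) (root (xs ℓ j) ++ bitsOf (64 * nn c ℓ) i) := by
    intro i
    rw [e1, tr_leaves]
    rfl
  constructor
  · intro h i
    rw [h1]
    exact h i i.isLt
  · intro h i hi
    rw [← h1 ⟨i, hi⟩]
    exact h ⟨i, hi⟩

end

theorem sum_not {K : ℕ} (f : (Fin K → Bool) → ℝ) :
    ∑ v : Fin K → Bool, f (fun j => !(v j)) = ∑ v : Fin K → Bool, f v :=
  (Equiv.piCongrRight fun _ : Fin K => Equiv.boolNot).sum_comp f

/-- the conditions for the parameters -/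
structure Cond (θ : Par) (qb : Polynomial ℕ) (k ℓ u Λ L m : ℕ) : Prop where
  hk : 1 ≤ k
  hu : 8 * u ≤ θ.n ℓ
  hΛ : 2 ^ (Nat.size (4 * k + 3 * 2 ^ (ℓ + 1) + 8)) ^ θ.cp * 2 + 4 * k + 3 * 2 ^ (ℓ + 1) + 9 ≤ Λ
  hL : qb.eval Λ ≤ L
  hm : θ.p.eval L ≤ m
  hV : θ.V.p.eval (2 * (L + θ.κ * (2 * m + 1)) + 1 +
    θ.κ * θ.p.eval (L + θ.κ * (2 * m + 1))) ≤ 2 ^ (2 * u)

/-- the number of questions -/
def RR (θ : Par) (ℓ u Λ : ℕ) : ℕ := θ.M.p.eval Λ * 2 ^ (2 * u) * (3 * 2 ^ (ℓ + 1) + 1)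

theorem game (θ : Par) {qb : Polynomial ℕ}
    (hqb : ∀ x a : List Bool, a.length ≤ θ.M.p.eval x.length →
      (θ.M.D (pairBits x a)).length ≤ qb.eval x.length)
    {k ℓ u Λ L m : ℕ} (hc : Cond θ qb k ℓ u Λ L m) (w0 : List Bool)
    (hw0 : w0.length + 2 ^ ℓ ≤ 2 ^ (ℓ + 1)) :
    Game (Fin (2 ^ ℓ)) L (2 ^ (2 * u)) (RR θ ℓ u Λ)
      (fun v O => ss (ee θ.M θ.cp O k) (4 / 2 ^ k) (w0 ++ List.ofFn (fun j => !(v j))))
      (fun O => ss (ee θ.M θ.cp O k) (4 / 2 ^ k) w0) := by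
  have hB0 : (0 : ℝ) ≤ 4 / 2 ^ k := by positivity
  have hB : (4 : ℝ) / 2 ^ k ≤ 2 := by
    rw [div_le_iff₀ (by positivity)]
    have : (2 : ℝ) ^ 1 ≤ 2 ^ k := pow_le_pow_right₀ (by norm_num) hc.hk
    linarith
  have hdec : ∀ w : List Bool, w.length ≤ 2 ^ (ℓ + 1) → Dec L (2 ^ (2 * u)) (RR θ ℓ u Λ)
      (fun O => ss (ee θ.M θ.cp O k) (4 / 2 ^ k) w) := by
    intro w hw I _ O hO
    refine dtv_ss (fun z => ee θ.M θ.cp (O z) k) (4 / 2 ^ k) (E := θ.M.p.eval Λ * 2 ^ (2 * u))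
      (n := 2 ^ (ℓ + 1)) (fun v hv => ?_) w hw
    have hlen := length_qpad_le (c := θ.cp) v hv hc.hΛ
    have h1 := dtv_out θ.M hqb (qpad θ.cp (inp k (k + v.length + 3) v)) O hO
      ((eval_mono _ hlen).trans hc.hL) (eval_mono θ.M.p hlen)
    have h2 : (fun z => ee θ.M θ.cp (O z) k v) = fun z =>
        (fun o : Option (List Bool) => dy (o.getD []) + 1 / 2 ^ (k + v.length))
          (θ.M.out (O z) (qpad θ.cp (inp k (k + v.length + 3) v))) := rfl
    rw [h2]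
    exact DTv.map (fun o : Option (List Bool) => dy (o.getD []) + 1 / 2 ^ (k + v.length)) h1
  refine ⟨fun v O => ss_nonneg _, fun v O => ss_le hB hB0 _, fun O => ss_nonneg _,
    fun O => ss_le hB hB0 _, fun v => hdec _ ?_, hdec _ (by omega), fun O => ?_⟩
  · rw [List.length_append, List.length_ofFn]
    exact hw0
  · rw [sum_not (fun v => ss (ee θ.M θ.cp O k) (4 / 2 ^ k) (w0 ++ List.ofFn v)),
      Fintype.card_fin]
    exact ss_sum w0 (2 ^ ℓ)


end Pool.Agent.W911.KM
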