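import Pool.Agent.W911.KM.Defs

/-!
# Martingales computed by alternating quantifiers against a forest of trees of NOR gates
-/

set_option autoImplicit false

namespace Pool.Agent.W911.KM

open Finset Pool.Agent.NPC H568R2 Pool.Agent.H676
open Pool.Agent.H620R2.Gauge Pool.Agent.H591R3.PHG Pool.Agent.H591R3.PHG.FinalAux
open Pool.Agent.W911.AL

/-- If the values of the oracle at short strings are decision trees of depth `r`, then `f` of the
oracle is a decision tree of depth `R`. -/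
def Dec (ℓ r R : ℕ) (f : Oracle → ℝ) : Prop :=
  ∀ (I : Type) [DecidableEq I] (O : (I → Bool) → Oracle),
    (∀ q : List Bool, q.length ≤ ℓ → DTv r (fun z => O z q)) → DTv R (fun z => f (O z))

/-- capital after (`D v`, if the outcome is `v`) and before (`D0`) a block of bets -/
structure Game (X : Type) [Fintype X] [DecidableEq X] (ℓ r R : ℕ)
    (D : (X → Bool) → Oracle → ℝ) (D0 : Oracle → ℝ) : Prop where
  nn : ∀ v O, 0 ≤ D v O
  le : ∀ v O, D v O ≤ 2
  nn0 : ∀ O, 0 ≤ D0 O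
  le0 : ∀ O, D0 O ≤ 2
  dec : ∀ v, Dec ℓ r R (D v)
  dec0 : Dec ℓ r R D0
  sum : ∀ O, ∑ v, D v O ≤ 2 ^ Fintype.card X * D0 O

section

variable {X : Type} [Fintype X] [DecidableEq X] {M : ℕ}

/-- the expected capital after the bets -/
noncomputable def EA (t : ℝ) (cs : List ℕ) (s : Idx (X × Fin M) cs → Option Bool)
    (D : (X → Bool) → Oracle → ℝ) (G : List Bool → (Idx (X × Fin M) cs → Bool) → Bool) : ℝ :=
  Ex (ber t) (fun z : Idx (X × Fin M) cs → Bool =>
    D (fun j => decide (∀ i : Fin M, Tr cs (val s z) (j, i) = false)) (fun q => G q z))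

/-- the expected capital before the bets -/
noncomputable def EB (t : ℝ) (cs : List ℕ)
    (D0 : Oracle → ℝ) (G : List Bool → (Idx (X × Fin M) cs → Bool) → Bool) : ℝ :=
  Ex (ber t) (fun z : Idx (X × Fin M) cs → Bool => D0 (fun q => G q z))

theorem ber_nn {t : ℝ} (h0 : 0 ≤ t) (h1 : t ≤ 1) (b : Bool) : 0 ≤ ber t b := by
  unfold ber
  split_ifs <;> linarith

theorem EA_le {t : ℝ} (h0 : 0 ≤ t) (h1 : t ≤ 1) (cs : List ℕ)
    (s : Idx (X × Fin M) cs → Option Bool) {ℓ r R : ℕ}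
    {D : (X → Bool) → Oracle → ℝ} {D0 : Oracle → ℝ} (hG : Game X ℓ r R D D0)
    (G : List Bool → (Idx (X × Fin M) cs → Bool) → Bool) : EA t cs s D G ≤ 2 := by
  unfold EA
  refine (Ex_mono (G := fun _ => (2 : ℝ)) (ber_nn h0 h1) fun z => hG.le _ _).trans
    (le_of_eq (Ex_const (ber_sum_m t) 2))

theorem EB_nn {t : ℝ} (h0 : 0 ≤ t) (h1 : t ≤ 1) (cs : List ℕ) {ℓ r R : ℕ}
    {D : (X → Bool) → Oracle → ℝ} {D0 : Oracle → ℝ} (hG : Game X ℓ r R D D0)
    (G : List Bool → (Idx (X × Fin M) cs → Bool) → Bool) : 0 ≤ EB (X := X) (M := M) t cs D0 G := by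
  unfold EB
  refine (le_of_eq (Ex_const (ber_sum_m t) 0).symm).trans
    (Ex_mono (F := fun _ => (0 : ℝ)) (ber_nn h0 h1) fun z => hG.nn0 _)

/-- One level of the process. -/
theorem EA_stage {c smin : ℕ} {t t' ξ : ℝ} (ht : 0 < t)
    (ht1 : t < 1) (ht' : 0 < t') (hs : 1 ≤ smin) (cs : List ℕ)
    (s : Idx (X × Fin M) (c :: cs) → Option Bool)
    (D : (X → Bool) → Oracle → ℝ)
    (G : List Bool → (Idx (X × Fin M) (c :: cs) → Bool) → Bool) :
    EA t (c :: cs) s D G = ∑ ρ : Idx (X × Fin M) cs → St c,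
      wt (G := Idx (X × Fin M) cs) t t' ξ smin s ρ *
      EA t' cs (fun h => (ρ h).1) D (fun q z => G q (XX (G := Idx (X × Fin M) cs) s ρ z)) := by
  classical
  unfold EA
  have h1 := stage (G := Idx (X × Fin M) cs) (ξ := ξ) ht ht1 ht' hs s
    (fun z : Idx (X × Fin M) cs × Fin c → Bool =>
      D (fun j => decide (∀ i : Fin M, Tr (c :: cs)
        (val (I := Idx (X × Fin M) cs × Fin c) s z) (j, i) = false)) (fun q => G q z))
  refine Eq.trans ?_ (h1.trans ?_)
  · rfl
  · refine Finset.sum_congr rfl fun ρ _ => ?_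
    by_cases hρ : wt (G := Idx (X × Fin M) cs) t t' ξ smin s ρ = 0
    · rw [hρ, zero_mul, zero_mul]
    · have h2 : ∀ z : Idx (X × Fin M) cs → Bool,
          Tr (c :: cs) (val (I := Idx (X × Fin M) cs × Fin c) s (XX s ρ z)) =
            Tr (X := X × Fin M) cs (val (fun h => (ρ h).1) z) := by
        intro z
        show Tr cs (fun g => decide (∀ i : Fin c,
          val (I := Idx (X × Fin M) cs × Fin c) s (XX s ρ z) (g, i) = false)) = _
        congr 1
        funext g'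
        exact val_stage (G := Idx (X × Fin M) cs) s ρ hρ z g'
      simp only [h2]

theorem EB_stage {c smin : ℕ} {t t' ξ : ℝ} (ht : 0 < t)
    (ht1 : t < 1) (ht' : 0 < t') (hs : 1 ≤ smin) (cs : List ℕ)
    (s : Idx (X × Fin M) (c :: cs) → Option Bool)
    (D0 : Oracle → ℝ)
    (G : List Bool → (Idx (X × Fin M) (c :: cs) → Bool) → Bool) :
    EB (X := X) (M := M) t (c :: cs) D0 G = ∑ ρ : Idx (X × Fin M) cs → St c,
      wt (G := Idx (X × Fin M) cs) t t' ξ smin s ρ *
      EB (X := X) (M := M) t' cs D0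
        (fun q z => G q (XX (G := Idx (X × Fin M) cs) s ρ z)) :=
  stage (G := Idx (X × Fin M) cs) (ξ := ξ) ht ht1 ht' hs s
    (fun z : Idx (X × Fin M) cs × Fin c → Bool => D0 (fun q => G q z))

theorem WB_nonneg {Y : Type} [Fintype Y] [DecidableEq Y] {t ξ : ℝ} {smin : ℕ} (ht : 0 < t)
    (ht1 : t < 1) (hξ : 0 ≤ ξ) (hξ1 : ξ ≤ 1) (hs : 1 ≤ smin)
    (h : (1 - ξ) * (1 - t) ^ smin / t + ξ * (1 - t) ^ smin ≤ 1)
    {Φ : (Y → Option Bool) → ℝ} (hΦ : ∀ s, 0 ≤ Φ s) :
    ∀ (cs : List ℕ) (s : Idx Y cs → Option Bool), 0 ≤ WB t ξ smin Φ cs s := by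
  intro cs
  induction cs with
  | nil => intro s; exact hΦ s
  | cons c cs ih =>
    intro s
    exact Finset.sum_nonneg fun ρ _ =>
      mul_nonneg (wt_nonneg ht ht1 ht hξ hξ1 hs h s ρ) (ih _)

open Classical in
/-- the indicator of a status which is not balanced -/
noncomputable def nbal (t η : ℝ) (s : X × Fin M → Option Bool) : ℝ :=
  if ∀ j, Bal t η (fun i => s (j, i)) then 0 else 1

theorem nbal_nn (t η : ℝ) (s : X × Fin M → Option Bool) : 0 ≤ nbal t η s := by
  unfold nbal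
  split_ifs <;> norm_num

/-- the error for one value of `k` -/
noncomputable def err (k T r : ℕ) : ℝ := k * (2 * (2 ^ (T + 2) * (1 / 2) ^ (r + 1)))

theorem core_ind (hfin : FinStm) {n u R : ℕ} {η : ℝ} (hn : 5 ≤ n) (hu : 8 * u ≤ n) (hη : 0 ≤ η)
    (hη1 : η ≤ 1 / 4) (D : (X → Bool) → Oracle → ℝ) (D0 : Oracle → ℝ) (ℓ : ℕ)
    (hG : Game X ℓ (2 ^ (2 * u)) R D D0) :
    ∀ (k : ℕ) (cs : List ℕ), cs.length = k →
      ∀ (s : Idx (X × Fin M) cs → Option Bool) (m : ℕ)
      (F : List Bool → (Idx (X × Fin M) cs → Bool) → Bool),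
      (∀ y : List Bool, y.length ≤ ℓ + k * (2 * m + 1) → DTr (2 ^ (2 * u)) (F y)) →
      ∀ b : Bool,
      EA (1 / 2 ^ (4 * n)) cs s D (fun q => QF m F k b q) ≤
        (1 + 2 * η) ^ Fintype.card X * (EB (X := X) (M := M) (1 / 2 ^ (4 * n)) cs D0
          (fun q => QF m F k b q) + 2 * R * (1 / 2 ^ (4 * n))) + 8 * R * (1 / 2 ^ (4 * n)) +
        err k (ℓ + k * (2 * m + 1)) (2 ^ (2 * u)) +
        2 * WB (Y := X × Fin M) (1 / 2 ^ (4 * n)) (1 / 2 ^ (2 * n)) (8 * n * 2 ^ (4 * n))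
          (nbal (1 / 2 ^ (4 * n)) η) cs s := by
  classical
  set t : ℝ := 1 / 2 ^ (4 * n) with ht
  set ξ : ℝ := 1 / 2 ^ (2 * n) with hξ
  set smin : ℕ := 8 * n * 2 ^ (4 * n) with hsmin
  set r : ℕ := 2 ^ (2 * u) with hr
  have ht0 : 0 < t := by positivity
  have ht2 : t ≤ 1 / 2 := by
    rw [ht]
    apply one_div_le_one_div_of_le (by norm_num)
    calc (2 : ℝ) = 2 ^ 1 := by norm_num
      _ ≤ 2 ^ (4 * n) := pow_le_pow_right₀ (by norm_num) (by omega)
  have ht1 : t < 1 := by linarith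
  have hξ0 : 0 < ξ := by positivity
  have hξ1 : ξ ≤ 1 := by
    rw [hξ, div_le_one (by positivity)]
    exact one_le_pow₀ (by norm_num)
  have hs1 : 1 ≤ smin := by
    rw [hsmin]
    have : 0 < 8 * n * 2 ^ (4 * n) := by positivity
    omega
  have hr1 : 1 ≤ r := Nat.one_le_two_pow
  obtain ⟨hl1, hl2, hl3⟩ := lam_bound hn hu
  have hlam4 : (1 : ℝ) / 2 ^ (6 * n) ≤ 1 / 4 := by
    apply one_div_le_one_div_of_le (by norm_num)
    calc (4 : ℝ) = 2 ^ 2 := by norm_num
      _ ≤ 2 ^ (6 * n) := pow_le_pow_right₀ (by norm_num) (by omega)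
  set Kc := Fintype.card X with hKc
  have hK0 : (0 : ℝ) ≤ (1 + 2 * η) ^ Kc := by positivity
  -- the condition for the nonnegativity of the weights
  have hcond : (1 - ξ) * (1 - t) ^ smin / t + ξ * (1 - t) ^ smin ≤ 1 := by
    have h1 : (1 - t) ^ smin / t ≤ 1 / 4 := hl1.trans hlam4
    have h2 : (1 - t) ^ smin ≤ 1 / 4 := by
      have h3 : (1 - t) ^ smin ≤ 1 / 4 * t := (div_le_iff₀ ht0).1 h1
      nlinarith
    have h0 : 0 ≤ (1 - t) ^ smin := pow_nonneg (by linarith) _
    have h5 : 0 ≤ (1 - t) ^ smin / t := by positivity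
    have h3 : (1 - ξ) * (1 - t) ^ smin / t ≤ (1 - t) ^ smin / t := by
      rw [mul_div_assoc]
      nlinarith
    have h4 : ξ * (1 - t) ^ smin ≤ (1 - t) ^ smin := by nlinarith
    linarith
  intro k
  induction k with
  | zero =>
    intro cs hcs s m F hF b
    have hcs0 : cs = [] := List.length_eq_zero_iff.1 hcs
    subst hcs0
    have e0 : ∀ q, QF m F 0 b q = F q := by
      intro q; cases b <;> rfl
    simp only [e0]
    have herr : err 0 (ℓ + 0 * (2 * m + 1)) r = 0 := by simp [err]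
    rw [herr, add_zero]
    have hWB : WB (Y := X × Fin M) t ξ smin (nbal t η) [] s = nbal t η (X := X) (M := M) s := rfl
    rw [hWB]
    by_cases hb : ∀ j, Bal t η (fun i => (s : X × Fin M → Option Bool) (j, i))
    · have h0 : nbal t η (X := X) (M := M) s = 0 := if_pos hb
      rw [h0, mul_zero, add_zero]
      have hF' : ∀ q : List Bool, q.length ≤ ℓ →
          DTv r (fun z : X × Fin M → Bool => F q z) := by
        intro q hq
        exact DTv.of_DTr (hF q (by omega))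
      have h1 := hfin X M R t η ht0.le ht1.le hη hη1 (s : X × Fin M → Option Bool) hb
        (fun v z => D v (fun q => F q z)) (fun z => D0 (fun q => F q z))
        (fun v z => hG.nn _ _) (fun v z => hG.le _ _) (fun z => hG.nn0 _) (fun z => hG.le0 _)
        (fun v => hG.dec v _ _ hF') (hG.dec0 _ _ hF') (fun z => hG.sum _)
      exact h1
    · have h0 : nbal t η (X := X) (M := M) s = 1 := if_neg hb
      rw [h0]
      have h1 := EA_le (X := X) (M := M) ht0.le ht1.le [] s hG (fun q => F q)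
      have h2 := EB_nn (X := X) (M := M) ht0.le ht1.le [] hG (fun q => F q)
      have h3 : 0 ≤ (1 + 2 * η) ^ Kc * (EB (X := X) (M := M) t [] D0 (fun q => F q) +
          2 * R * t) := mul_nonneg hK0 (by positivity)
      have h4 : (0 : ℝ) ≤ 8 * R * t := by positivity
      linarith
  | succ k ih =>
    intro cs hcs s m F hF b
    match cs, hcs with
    | c :: cs, hcs =>
      have hlen : cs.length = k := by simpa using hcs
      rw [EA_stage (t' := t) (ξ := ξ) (smin := smin) ht0 ht1 ht0 hs1 cs s,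
        EB_stage (t' := t) (ξ := ξ) (smin := smin) ht0 ht1 ht0 hs1 cs s]
      have hℓ : ℓ + (k + 1) * (2 * m + 1) = ℓ + k * (2 * m + 1) + (2 * m + 1) := by ring
      have hsw := stage_switch (G := Idx (X × Fin M) cs) (c := c) (smin := smin) (r := r)
        (t := t) (t' := t)
        (ξ := ξ) (lam := 1 / 2 ^ (6 * n)) ht0 ht2 ht0 ht1.le hξ0 hξ1 hs1 hl1 hlam4 hr1 hl3 s m
        (ℓ + k * (2 * m + 1)) F (fun y' hy' => hF y' (by rw [hℓ]; exact hy'))
      set bad : (Idx (X × Fin M) cs → St c) → Prop := fun ρ => ¬ ∀ y : List Bool,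
        y.length ≤ ℓ + k * (2 * m + 1) → ∀ b,
        DTr r (fun z : Idx (X × Fin M) cs → Bool => QF m F 1 b y (XX s ρ z)) with hbad
      have hnn : ∀ ρ : Idx (X × Fin M) cs → St c,
          0 ≤ wt (G := Idx (X × Fin M) cs) t t ξ smin s ρ := fun ρ =>
        wt_nonneg ht0 ht1 ht0 hξ0.le hξ1 hs1 hcond s ρ
      set E₁ : ℝ := err k (ℓ + k * (2 * m + 1)) r with hE₁
      have hE₁0 : 0 ≤ E₁ := by rw [hE₁]; unfold err; positivity
      set w : (Idx (X × Fin M) cs → St c) → ℝ := fun ρ =>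
        wt (G := Idx (X × Fin M) cs) t t ξ smin s ρ with hw
      set a : (Idx (X × Fin M) cs → St c) → ℝ := fun ρ =>
        EA t cs (fun h => (ρ h).1) D
          (fun q z => QF m F (k + 1) b q (XX (G := Idx (X × Fin M) cs) s ρ z)) with ha
      set e : (Idx (X × Fin M) cs → St c) → ℝ := fun ρ =>
        EB (X := X) (M := M) t cs D0
          (fun q z => QF m F (k + 1) b q (XX (G := Idx (X × Fin M) cs) s ρ z)) with he
      set wb : (Idx (X × Fin M) cs → St c) → ℝ := fun ρ =>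
        WB (Y := X × Fin M) t ξ smin (nbal t η) cs (fun h => (ρ h).1) with hwb
      have hWB : WB (Y := X × Fin M) t ξ smin (nbal t η) (c :: cs) s = ∑ ρ, w ρ * wb ρ := rfl
      rw [hWB]
      have hterm : ∀ ρ, w ρ * a ρ ≤ (1 + 2 * η) ^ Kc * (w ρ * e ρ) +
          w ρ * ((1 + 2 * η) ^ Kc * (2 * R * t) + 8 * R * t + E₁) +
          2 * (w ρ * (if bad ρ then (1 : ℝ) else 0)) + 2 * (w ρ * wb ρ) := by
        intro ρ
        have key : a ρ ≤ (1 + 2 * η) ^ Kc * e ρ + ((1 + 2 * η) ^ Kc * (2 * R * t) + 8 * R * t +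
            E₁) + 2 * (if bad ρ then (1 : ℝ) else 0) + 2 * wb ρ := by
          have hwb0 : 0 ≤ wb ρ := WB_nonneg ht0 ht1 hξ0.le hξ1 hs1 hcond
            (nbal_nn t η) cs _
          by_cases hb : bad ρ
          · rw [if_pos hb]
            have h3 : a ρ ≤ 2 := EA_le ht0.le ht1.le cs _ hG _
            have h4 : 0 ≤ e ρ := EB_nn ht0.le ht1.le cs hG _
            have h5 : 0 ≤ (1 + 2 * η) ^ Kc * e ρ := mul_nonneg hK0 h4
            have h6 : 0 ≤ (1 + 2 * η) ^ Kc * (2 * R * t) := by positivity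
            have h7 : 0 ≤ 8 * R * t := by positivity
            linarith
          · rw [if_neg hb]
            have hgood : ∀ y : List Bool, y.length ≤ ℓ + k * (2 * m + 1) → ∀ b,
              DTr r (fun z : Idx (X × Fin M) cs → Bool => QF m F 1 b y (XX s ρ z)) :=
                not_not.1 hb
            have h5 := ih cs hlen (fun h => (ρ h).1) m
              (fun y' z => QF m F 1 (bot b k) y' (XX (G := Idx (X × Fin M) cs) s ρ z))
              (fun y' hy' => hgood y' hy' _) b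
            have e1 : (fun q z => QF m F (k + 1) b q (XX (G := Idx (X × Fin M) cs) s ρ z)) =
                fun q => QF m (fun y' z => QF m F 1 (bot b k) y'
                  (XX (G := Idx (X × Fin M) cs) s ρ z)) k b q := by
              funext q z
              rw [QF_peel, QF_comp m (fun y' => QF m F 1 (bot b k) y')
                (XX (G := Idx (X × Fin M) cs) s ρ)]
            rw [← e1] at h5
            have h6 : a ρ ≤ (1 + 2 * η) ^ Kc * (e ρ + 2 * R * t) + 8 * R * t + E₁ +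
                2 * wb ρ := h5
            linarith
        calc w ρ * a ρ ≤ w ρ * _ := mul_le_mul_of_nonneg_left key (hnn ρ)
          _ = _ := by ring
      refine (Finset.sum_le_sum fun ρ _ => hterm ρ).trans ?_
      rw [Finset.sum_add_distrib, Finset.sum_add_distrib, Finset.sum_add_distrib,
        ← Finset.mul_sum, ← Finset.sum_mul, ← Finset.mul_sum, ← Finset.mul_sum,
        wt_sum ht0 ht1 ht0 hs1 s, one_mul]
      have h6 : 2 ^ (ℓ + k * (2 * m + 1) + 2) * (16 * (r : ℝ) * (1 / 2 ^ (6 * n))) ^ (r + 1) ≤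
          2 ^ (ℓ + (k + 1) * (2 * m + 1) + 2) * (1 / 2) ^ (r + 1) := by
        apply mul_le_mul
        · apply pow_le_pow_right₀ (by norm_num)
          rw [hℓ]; omega
        · exact pow_le_pow_left₀ (by positivity) hl2 _
        · positivity
        · positivity
      have h7 : E₁ ≤ k * (2 * (2 ^ (ℓ + (k + 1) * (2 * m + 1) + 2) * (1 / 2) ^ (r + 1))) := by
        rw [hE₁]
        unfold err
        apply mul_le_mul_of_nonneg_left _ (by positivity)
        apply mul_le_mul_of_nonneg_left _ (by positivity)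
        apply mul_le_mul_of_nonneg_right _ (by positivity)
        apply pow_le_pow_right₀ (by norm_num)
        rw [hℓ]; omega
      have h8 := hsw.trans h6
      have h8' : ∑ ρ, w ρ * (if bad ρ then (1 : ℝ) else 0) ≤
          2 ^ (ℓ + (k + 1) * (2 * m + 1) + 2) * (1 / 2) ^ (r + 1) := by
        refine le_trans (le_of_eq (Finset.sum_congr rfl fun ρ _ => ?_)) h8
        exact congrArg (fun q => wt (G := Idx (X × Fin M) cs) t t ξ smin s ρ * q)
          (if_congr Iff.rfl rfl rfl)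
      have h9 : err (k + 1) (ℓ + (k + 1) * (2 * m + 1)) r =
        k * (2 * (2 ^ (ℓ + (k + 1) * (2 * m + 1) + 2) * (1 / 2) ^ (r + 1))) +
          2 * (2 ^ (ℓ + (k + 1) * (2 * m + 1) + 2) * (1 / 2) ^ (r + 1)) := by
        unfold err
        push_cast
        ring
      rw [h9]
      have h10 : (1 + 2 * η) ^ Kc * (∑ ρ, w ρ * e ρ + 2 * R * t) =
        (1 + 2 * η) ^ Kc * ∑ ρ, w ρ * e ρ + (1 + 2 * η) ^ Kc * (2 * R * t) := by ring
      rw [h10]
      linarith

/-- all levels, and the level of the random bits -/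
theorem core_leaf (hfin : FinStm) {n u R : ℕ} {η : ℝ} (hn : 5 ≤ n) (hu : 8 * u ≤ n)
    (hη : 0 ≤ η) (hη1 : η ≤ 1 / 4) (D : (X → Bool) → Oracle → ℝ) (D0 : Oracle → ℝ) (ℓ : ℕ)
    (hG : Game X ℓ (2 ^ (2 * u)) R D D0) (k : ℕ) (cs : List ℕ)
    (hcs : cs.length = k) (m : ℕ) (F : List Bool → (Idx (X × Fin M) (8 * n :: cs) → Bool) → Bool)
    (hF : ∀ y : List Bool, y.length ≤ ℓ + k * (2 * m + 1) → DTr (2 ^ (2 * u)) (F y)) (b : Bool) :
    EA (1 / 2) (8 * n :: cs) (fun _ => none) D (fun q => QF m F k b q) ≤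
      (1 + 2 * η) ^ Fintype.card X * (EB (X := X) (M := M) (1 / 2) (8 * n :: cs) D0
          (fun q => QF m F k b q) + 2 * R * (1 / 2 ^ (4 * n))) + 8 * R * (1 / 2 ^ (4 * n)) +
        err k (ℓ + k * (2 * m + 1)) (2 ^ (2 * u)) +
        2 * Ex (nxt (1 / 2) (1 / 2 ^ (4 * n)) 0 (8 * n) (8 * n) law0)
          (WB (Y := X × Fin M) (1 / 2 ^ (4 * n)) (1 / 2 ^ (2 * n)) (8 * n * 2 ^ (4 * n))
          (nbal (1 / 2 ^ (4 * n)) η) cs) := by
  classical
  set t : ℝ := 1 / 2 ^ (4 * n) with ht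
  have ht0 : 0 < t := by positivity
  have hpow : (1 - 1 / 2 : ℝ) ^ (8 * n) / t ≤ 1 := by
    rw [ht, div_le_one (by positivity)]
    rw [show (1 - 1 / 2 : ℝ) = 1 / 2 by norm_num, one_div_pow]
    apply one_div_le_one_div_of_le (by positivity)
    exact pow_le_pow_right₀ (by norm_num) (by omega)
  have hs1 : 1 ≤ 8 * n := by omega
  have hcond : (1 - 0) * (1 - 1 / 2 : ℝ) ^ (8 * n) / t + 0 * (1 - 1 / 2 : ℝ) ^ (8 * n) ≤ 1 := by
    rw [zero_mul, add_zero, sub_zero, one_mul]
    exact hpow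
  set s0 : Idx (X × Fin M) (8 * n :: cs) → Option Bool := fun _ => none with hs0
  rw [EA_stage (t := 1 / 2) (t' := t) (ξ := 0) (smin := 8 * n) (by norm_num) (by norm_num) ht0 hs1
    cs s0, EB_stage (t := 1 / 2) (t' := t) (ξ := 0) (smin := 8 * n) (by norm_num) (by norm_num)
    ht0 hs1 cs s0]
  set E : ℝ := (1 + 2 * η) ^ Fintype.card X * (2 * R * t) + 8 * R * t +
    err k (ℓ + k * (2 * m + 1)) (2 ^ (2 * u)) with hE
  set W := WB (Y := X × Fin M) t (1 / 2 ^ (2 * n)) (8 * n * 2 ^ (4 * n)) (nbal t η) cs with hW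
  set w : (Idx (X × Fin M) cs → St (8 * n)) → ℝ := fun ρ =>
    wt (G := Idx (X × Fin M) cs) (1 / 2) t 0 (8 * n) s0 ρ with hw
  set e : (Idx (X × Fin M) cs → St (8 * n)) → ℝ := fun ρ =>
        EB (X := X) (M := M) t cs D0
          (fun q z => QF m F k b q (XX (G := Idx (X × Fin M) cs) s0 ρ z)) with he
  have hterm : ∀ ρ : Idx (X × Fin M) cs → St (8 * n),
      w ρ * EA t cs (fun h => (ρ h).1) D
        (fun q z => QF m F k b q (XX (G := Idx (X × Fin M) cs) s0 ρ z)) ≤
      (1 + 2 * η) ^ Fintype.card X * (w ρ * e ρ) + w ρ * E + 2 * (w ρ * W (fun h => (ρ h).1)) := by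
    intro ρ
    have h5 := core_ind hfin hn hu hη hη1 D D0 ℓ hG k cs hcs (fun h => (ρ h).1) m
      (fun y' z => F y' (XX (G := Idx (X × Fin M) cs) s0 ρ z))
      (fun y' hy' => DTr_XX (G := Idx (X × Fin M) cs) s0 ρ (hF y' hy')) b
    have e1 : (fun q z => QF m F k b q (XX (G := Idx (X × Fin M) cs) s0 ρ z)) =
        fun q => QF m (fun y' z => F y' (XX (G := Idx (X × Fin M) cs) s0 ρ z)) k b q := by
      funext q z
      rw [QF_comp m F (XX (G := Idx (X × Fin M) cs) s0 ρ)]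
    rw [← e1] at h5
    have h6 := mul_le_mul_of_nonneg_left h5
      (wt_nonneg (by norm_num) (by norm_num) ht0 le_rfl zero_le_one hs1 hcond s0 ρ)
    refine h6.trans (le_of_eq ?_)
    rw [hE]
    simp only [hw, he, hW]
    ring
  refine (Finset.sum_le_sum fun ρ _ => hterm ρ).trans ?_
  rw [Finset.sum_add_distrib, Finset.sum_add_distrib, ← Finset.mul_sum, ← Finset.sum_mul,
    ← Finset.mul_sum,
    wt_sum (by norm_num) (by norm_num) ht0 hs1 s0, one_mul]
  have h8 := law_stage (G := Idx (X × Fin M) cs) (c := 8 * n) (smin := 8 * n) (t := 1 / 2)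
    (t' := t) (ξ := 0) law0 W
  rw [Ex_law0] at h8
  have h9 : ∑ ρ, w ρ * W (fun h => (ρ h).1) =
      Ex (nxt (1 / 2) t 0 (8 * n) (8 * n) law0) W := h8
  rw [h9, hE]
  refine le_of_eq ?_
  ring

end

end Pool.Agent.W911.KM
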