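import Pool.Agent.W911.KM.Defs

/-!
# Part FIN of project KM: a martingale against balanced NOR gates
-/

set_option autoImplicit false

namespace Pool.Agent.W911.KM

open Finset Pool.Agent.NPC H568R2 Pool.Agent.H676
open Pool.Agent.H620R2.Gauge Pool.Agent.H591R3.PHG Pool.Agent.H591R3.PHG.FinalAux
open Pool.Agent.W911.AL

namespace FinAux

/-- certificates for the all-false input -/
theorem cert {I β : Type} [DecidableEq I] {R : ℕ} : ∀ {f : (I → Bool) → β}, DTv R f →
    ∃ Q : Finset I, Q.card ≤ R ∧ ∀ z, (∀ e ∈ Q, z e = false) → f z = f (fun _ => false) := by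
  induction R with
  | zero =>
    rintro f ⟨c, hc⟩
    exact ⟨∅, by simp, fun z _ => by rw [hc, hc]⟩
  | succ R ih =>
    rintro f (⟨c, hc⟩ | ⟨i, h⟩)
    · exact ⟨∅, by simp, fun z _ => by rw [hc, hc]⟩
    · obtain ⟨Q, hQ, hQ2⟩ := ih (h false)
      refine ⟨insert i Q, (Finset.card_insert_le _ _).trans (by omega), ?_⟩
      intro z hz
      have h1 : Function.update z i false = z :=
        Function.update_eq_self_iff.mpr (hz i (Finset.mem_insert_self _ _)).symm
      have h2 := hQ2 z (fun e he => hz e (Finset.mem_insert_of_mem he))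
      have h3 : Function.update (fun _ : I => false) i false = fun _ => false :=
        Function.update_eq_self_iff.mpr rfl
      simp only [h1, h3] at h2
      exact h2

/-- one random bit -/
theorem Ex_bit {I : Type} [Fintype I] [DecidableEq I] (t : ℝ) (e : I) :
    Ex (ber t) (fun z : I → Bool => if z e = true then (1 : ℝ) else 0) = t := by
  rw [Ex_resample (FinalAux.ber_sum t) _ e]
  have h1 : (fun ω : I → Bool => ∑ a, ber t a *
      (if Function.update ω e a e = true then (1 : ℝ) else 0)) = fun _ => t := by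
    funext ω
    rw [Fintype.sum_bool]
    simp [ber]
  rw [h1, Ex_const (FinalAux.ber_sum t)]

variable {X : Type} [Fintype X] [DecidableEq X] {c : ℕ}

/-- expectations of products over the roots -/
theorem prod_formula (t : ℝ) (φ : X → (Fin c → Bool) → ℝ) :
    Ex (ber t) (fun z : X × Fin c → Bool => ∏ j, φ j (fun i => z (j, i))) =
      ∏ j, ∑ P : Fin c → Bool, (∏ i, ber t (P i)) * φ j P := by
  rw [Finset.prod_univ_sum, Fintype.piFinset_univ]
  unfold Ex
  rw [← (Equiv.curry X (Fin c) Bool).symm.sum_comp]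
  refine Finset.sum_congr rfl (fun ω _ => ?_)
  rw [Finset.prod_mul_distrib, Fintype.prod_prod_type]
  simp only [Equiv.curry_symm_apply, Function.uncurry]

/-- the values of the roots -/
def LL (s : X × Fin c → Option Bool) (z : X × Fin c → Bool) : X → Bool :=
  fun j => decide (∀ i : Fin c, val s z (j, i) = false)

open Classical in
/-- the probability of a value of the root `j` -/
noncomputable def aj (t : ℝ) (s : X × Fin c → Option Bool) (j : X) (b : Bool) : ℝ :=
  ∑ P : Fin c → Bool, (∏ i, ber t (P i)) *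
    (if decide (∀ i, (s (j, i)).getD (P i) = false) = b then (1 : ℝ) else 0)

theorem ber_prod_nonneg {t : ℝ} (ht : 0 ≤ t) (ht1 : t ≤ 1) (P : Fin c → Bool) :
    0 ≤ ∏ i, ber t (P i) := Finset.prod_nonneg (fun _ _ => ber_nonneg ht ht1 _)

omit [Fintype X] [DecidableEq X] in
theorem aj_true (t : ℝ) (s : X × Fin c → Option Bool) (j : X)
    (h : Unkilled (fun i => s (j, i))) :
    aj t s j true = (1 - t) ^ (live (fun i => s (j, i))).card := by
  classical
  rw [← nor_prob t (fun i => s (j, i)) h]
  unfold aj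
  refine Finset.sum_congr rfl fun P _ => ?_
  congr 1
  by_cases h : ∀ i, (s (j, i)).getD (P i) = false <;> simp [h]

omit [Fintype X] [DecidableEq X] in
theorem aj_add (t : ℝ) (s : X × Fin c → Option Bool) (j : X) :
    aj t s j true + aj t s j false = 1 := by
  classical
  unfold aj
  rw [← Finset.sum_add_distrib]
  refine Eq.trans (Finset.sum_congr rfl (fun P _ => ?_)) (sum_ber_pi (c := c) t)
  by_cases h : ∀ i, (s (j, i)).getD (P i) = false <;> simp [h]

omit [Fintype X] [DecidableEq X] in
theorem aj_bounds {t η : ℝ} (hη1 : η ≤ 1 / 4)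
    (s : X × Fin c → Option Bool) (hs : ∀ j, Bal t η (fun i => s (j, i))) (j : X) (b : Bool) :
    1 / 4 ≤ aj t s j b ∧ aj t s j b ≤ (1 + 2 * η) / 2 := by
  have h1 := aj_true t s j (hs j).1
  have h2 := aj_add t s j
  have h3 := abs_le.mp (hs j).2
  rw [← h1] at h3
  cases b
  · constructor <;> linarith [h3.1, h3.2]
  · constructor <;> linarith [h3.1, h3.2]

open Classical in
/-- the probability of a vector of values -/
noncomputable def Pr (t : ℝ) (s : X × Fin c → Option Bool) (v : X → Bool) : ℝ :=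
  Ex (ber t) (fun z => if LL s z = v then (1 : ℝ) else 0)

omit [DecidableEq X] in
open Classical in
theorem ind_prod (s : X × Fin c → Option Bool) (v : X → Bool) (z : X × Fin c → Bool) :
    (if LL s z = v then (1 : ℝ) else 0) =
      ∏ j, (if decide (∀ i, (s (j, i)).getD (z (j, i)) = false) = v j then (1 : ℝ) else 0) := by
  rw [Finset.prod_ite_zero]
  simp only [Finset.prod_const_one, Finset.mem_univ, forall_const]
  refine if_congr ?_ rfl rfl
  rw [funext_iff]
  rfl

theorem Pr_eq (t : ℝ) (s : X × Fin c → Option Bool) (v : X → Bool) :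
    Pr t s v = ∏ j, aj t s j (v j) := by
  classical
  unfold Pr
  simp only [ind_prod]
  exact prod_formula t (fun j P =>
    if decide (∀ i, (s (j, i)).getD (P i) = false) = v j then (1 : ℝ) else 0)

theorem Pr_sum (t : ℝ) (s : X × Fin c → Option Bool) : ∑ v : X → Bool, Pr t s v = 1 := by
  classical
  unfold Pr
  rw [← Ex_sum]
  have h1 : (fun z : X × Fin c → Bool => ∑ v : X → Bool,
      (if LL s z = v then (1 : ℝ) else 0)) = fun _ => 1 := by
    funext z
    simp
  rw [h1, Ex_const (FinalAux.ber_sum t)]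

open Classical in
theorem Pr_bit {t η : ℝ} (ht : 0 ≤ t) (ht1 : t ≤ 1) (hη1 : η ≤ 1 / 4)
    (s : X × Fin c → Option Bool) (hs : ∀ j, Bal t η (fun i => s (j, i))) (v : X → Bool)
    (e : X × Fin c) :
    Ex (ber t) (fun z => (if LL s z = v then (1 : ℝ) else 0) *
      (if z e = true then (1 : ℝ) else 0)) ≤ 4 * t * Pr t s v := by
  obtain ⟨j0, i0⟩ := e
  let φ : X → (Fin c → Bool) → ℝ := fun j P =>
    (if decide (∀ i, (s (j, i)).getD (P i) = false) = v j then (1 : ℝ) else 0) *
      (if j = j0 then (if P i0 = true then (1 : ℝ) else 0) else 1)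
  have h1 : ∀ z : X × Fin c → Bool, (if LL s z = v then (1 : ℝ) else 0) *
      (if z (j0, i0) = true then (1 : ℝ) else 0) = ∏ j, φ j (fun i => z (j, i)) := by
    intro z
    rw [ind_prod, Finset.prod_mul_distrib]
    congr 1
    rw [Finset.prod_ite_eq' Finset.univ j0 (fun j => if z (j, i0) = true then (1 : ℝ) else 0)]
    simp
  simp only [h1]
  rw [prod_formula t φ, Pr_eq, ← Finset.mul_prod_erase univ _ (Finset.mem_univ j0),
    ← Finset.mul_prod_erase univ (fun j => aj t s j (v j)) (Finset.mem_univ j0)]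
  have h2 : ∏ j ∈ univ.erase j0, ∑ P : Fin c → Bool, (∏ i, ber t (P i)) * φ j P =
      ∏ j ∈ univ.erase j0, aj t s j (v j) := by
    refine Finset.prod_congr rfl fun j hj => ?_
    have hj' : j ≠ j0 := Finset.ne_of_mem_erase hj
    unfold aj
    refine Finset.sum_congr rfl fun P _ => ?_
    simp only [φ, if_neg hj', mul_one]
  rw [h2]
  have h3 : ∑ P : Fin c → Bool, (∏ i, ber t (P i)) * φ j0 P ≤ t := by
    have h4 := Ex_bit (I := Fin c) t i0
    unfold Ex at h4
    refine le_trans ?_ h4.le
    refine Finset.sum_le_sum fun P _ => ?_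
    refine mul_le_mul_of_nonneg_left ?_ (ber_prod_nonneg ht ht1 P)
    simp only [φ, if_true]
    split_ifs <;> norm_num
  have h5 := (aj_bounds hη1 s hs j0 (v j0)).1
  have h6 : 0 ≤ ∏ j ∈ univ.erase j0, aj t s j (v j) :=
    Finset.prod_nonneg fun j _ => by linarith [(aj_bounds hη1 s hs j (v j)).1]
  have h7 : ∑ P : Fin c → Bool, (∏ i, ber t (P i)) * φ j0 P ≤ 4 * t * aj t s j0 (v j0) := by
    nlinarith
  calc _ ≤ 4 * t * aj t s j0 (v j0) * ∏ j ∈ univ.erase j0, aj t s j (v j) :=
        mul_le_mul_of_nonneg_right h7 h6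
    _ = _ := by ring

/-- a bounded function is close to its value at the all-false input -/
theorem near {I : Type} (f : (I → Bool) → ℝ) (h0 : ∀ z, 0 ≤ f z)
    (h2 : ∀ z, f z ≤ 2) (Q : Finset I)
    (hQ : ∀ z, (∀ e ∈ Q, z e = false) → f z = f (fun _ => false)) (z : I → Bool) :
    f z ≤ f (fun _ => false) + 2 * ∑ e ∈ Q, (if z e = true then (1 : ℝ) else 0) ∧
    f (fun _ => false) ≤ f z + 2 * ∑ e ∈ Q, (if z e = true then (1 : ℝ) else 0) := by
  have hnn : 0 ≤ ∑ e ∈ Q, (if z e = true then (1 : ℝ) else 0) :=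
    Finset.sum_nonneg fun e _ => by split_ifs <;> norm_num
  by_cases hz : ∀ e ∈ Q, z e = false
  · rw [hQ z hz]
    constructor <;> linarith
  · push Not at hz
    obtain ⟨e, he, hze⟩ := hz
    have hze' : z e = true := by simpa using hze
    have h1 : (1 : ℝ) ≤ ∑ e ∈ Q, (if z e = true then (1 : ℝ) else 0) := by
      have h3 := Finset.single_le_sum (f := fun e => if z e = true then (1 : ℝ) else 0)
        (fun e _ => by split_ifs <;> norm_num) he
      simp only [hze', if_true] at h3
      exact h3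
    constructor
    · linarith [h2 z, h0 (fun _ => false)]
    · linarith [h2 (fun _ => false), h0 z]

end FinAux

open FinAux in
theorem fin_stm : FinStm := by
  classical
  intro X _ _ c R t η ht ht1 hη hη1 s hs D D0 hD0 hD2 hE0 hE2 hDT hET hsum
  choose Q hQc hQ using fun v => cert (hDT v)
  obtain ⟨Q0, hQ0c, hQ0⟩ := cert hET
  have hw : ∀ b, 0 ≤ ber t b := ber_nonneg ht ht1
  have hPr0 : ∀ v, 0 ≤ Pr t s v := fun v => by
    rw [Pr_eq]
    exact Finset.prod_nonneg fun j _ => by linarith [(aj_bounds hη1 s hs j (v j)).1]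
  have hPr1 : ∀ v, Pr t s v ≤ ((1 + 2 * η) / 2) ^ Fintype.card X := fun v => by
    rw [Pr_eq]
    refine (Finset.prod_le_prod (fun j _ => ?_)
      (fun j _ => (aj_bounds hη1 s hs j (v j)).2)).trans (le_of_eq ?_)
    · linarith [(aj_bounds hη1 s hs j (v j)).1]
    · rw [Finset.prod_const, Finset.card_univ]
  -- the pointwise bound
  have hpt : ∀ z : X × Fin c → Bool, D (LL s z) z ≤
      ∑ v, ((D v (fun _ => false)) * (if LL s z = v then (1 : ℝ) else 0) +
        2 * ∑ e ∈ Q v, (if LL s z = v then (1 : ℝ) else 0) * (if z e = true then (1 : ℝ) else 0)) := by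
    intro z
    have h1 : ∀ v, ((D v (fun _ => false)) * (if LL s z = v then (1 : ℝ) else 0) +
        2 * ∑ e ∈ Q v, (if LL s z = v then (1 : ℝ) else 0) *
          (if z e = true then (1 : ℝ) else 0)) =
        if LL s z = v then (D v (fun _ => false) +
          2 * ∑ e ∈ Q v, (if z e = true then (1 : ℝ) else 0)) else 0 := by
      intro v
      split_ifs
      · simp only [one_mul, mul_one]
      · simp only [zero_mul, mul_zero, Finset.sum_const_zero, add_zero]
    simp only [h1]
    rw [Finset.sum_ite_eq Finset.univ (LL s z)]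
    rw [if_pos (Finset.mem_univ _)]
    exact (near (D (LL s z)) (hD0 _) (hD2 _) (Q (LL s z)) (hQ (LL s z)) z).1
  have hmain : Ex (ber t) (fun z => D (LL s z) z) ≤
      ∑ v, (D v (fun _ => false) * Pr t s v + 8 * R * t * Pr t s v) := by
    refine (Ex_mono hw hpt).trans ?_
    rw [Ex_sum]
    refine Finset.sum_le_sum fun v _ => ?_
    rw [Ex_add, Ex_smul, Ex_smul, Ex_sum]
    refine add_le_add le_rfl ?_
    have h1 : ∑ e ∈ Q v, Ex (ber t) (fun z => (if LL s z = v then (1 : ℝ) else 0) *
        (if z e = true then (1 : ℝ) else 0)) ≤ R * (4 * t * Pr t s v) := by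
      refine (Finset.sum_le_card_nsmul _ _ (4 * t * Pr t s v) fun e _ =>
        Pr_bit ht ht1 hη1 s hs v e).trans ?_
      rw [nsmul_eq_mul]
      refine mul_le_mul_of_nonneg_right ?_ (by have := hPr0 v; positivity)
      exact_mod_cast hQc v
    linarith
  have hD0E : D0 (fun _ => false) ≤ Ex (ber t) D0 + 2 * R * t := by
    have h1 := Ex_mono hw (fun z =>
      (near D0 hE0 hE2 Q0 hQ0 z).2)
    rw [Ex_const (FinalAux.ber_sum t), Ex_add, Ex_smul, Ex_sum] at h1
    have h2 : ∑ e ∈ Q0, Ex (ber t) (fun z : X × Fin c → Bool =>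
        if z e = true then (1 : ℝ) else 0) ≤ R * t := by
      rw [Finset.sum_congr rfl (fun e _ => Ex_bit t e), Finset.sum_const, nsmul_eq_mul]
      exact mul_le_mul_of_nonneg_right (by exact_mod_cast hQ0c) ht
    linarith
  have hstep : ∑ v, D v (fun _ => false) * Pr t s v ≤
      (1 + 2 * η) ^ Fintype.card X * D0 (fun _ => false) := by
    have h1 : ∑ v, D v (fun _ => false) * Pr t s v ≤
        ∑ v, D v (fun _ => false) * ((1 + 2 * η) / 2) ^ Fintype.card X :=
      Finset.sum_le_sum fun v _ => mul_le_mul_of_nonneg_left (hPr1 v) (hD0 v _)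
    rw [← Finset.sum_mul] at h1
    refine h1.trans ?_
    refine (mul_le_mul_of_nonneg_right (hsum _) (by positivity)).trans (le_of_eq ?_)
    rw [div_pow]
    field_simp
  change Ex (ber t) (fun z => D (LL s z) z) ≤ _
  refine hmain.trans ?_
  rw [Finset.sum_add_distrib, ← Finset.mul_sum, Pr_sum, mul_one]
  have h9 : (1 + 2 * η) ^ Fintype.card X * D0 (fun _ => false) ≤
      (1 + 2 * η) ^ Fintype.card X * (Ex (ber t) D0 + 2 * R * t) :=
    mul_le_mul_of_nonneg_left hD0E (by positivity)
  linarith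

end Pool.Agent.W911.KM
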