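import Pool.Agent.W911.KM.Defs

/-!
# Part GD: concentration of the number of undetermined children
-/

set_option autoImplicit false

namespace Pool.Agent.W911.KM

open Finset Pool.Agent.NPC H568R2 Pool.Agent.H676
open Pool.Agent.H620R2.Gauge Pool.Agent.H591R3.PHG Pool.Agent.H591R3.PHG.FinalAux
open Pool.Agent.W911.AL

namespace GdAux

/-! ### Numbers -/

theorem num_lower {t : ℝ} (ht0 : 0 ≤ t) (ht1 : t ≤ 1 / 2) (k : ℕ) (hk : (k : ℝ) * t ≤ 1) :
    Real.exp (-(k * t + 2 * t)) ≤ (1 - t) ^ k := by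
  have h1 : (0 : ℝ) < 1 - t := by linarith
  have h2 : Real.exp (-(t / (1 - t))) ≤ 1 - t := by
    rw [Real.exp_neg]
    have h3 := Real.add_one_le_exp (t / (1 - t))
    have h4 : t / (1 - t) + 1 = (1 - t)⁻¹ := by
      field_simp
      ring
    rw [h4] at h3
    have h5 := inv_anti₀ (inv_pos.2 h1) h3
    rwa [inv_inv] at h5
  calc Real.exp (-(k * t + 2 * t)) ≤ Real.exp (k * -(t / (1 - t))) := by
        apply Real.exp_le_exp.2
        have h3 : t / (1 - t) ≤ t + 2 * t * t := by
          rw [div_le_iff₀ h1]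
          nlinarith [mul_nonneg ht0 ht0, mul_nonneg (mul_nonneg ht0 ht0) (by linarith : 0 ≤ 1 - 2 * t)]
        have h4 := mul_le_mul_of_nonneg_left h3 (Nat.cast_nonneg k (α := ℝ))
        have h5 := mul_le_mul_of_nonneg_left hk (by linarith : 0 ≤ 2 * t)
        nlinarith
    _ = Real.exp (-(t / (1 - t))) ^ k := Real.exp_nat_mul _ k
    _ ≤ (1 - t) ^ k := pow_le_pow_left₀ (Real.exp_pos _).le h2 k

theorem num_upper {t : ℝ} (ht1 : t ≤ 1) (k : ℕ) : (1 - t) ^ k ≤ Real.exp (-(k * t)) := by
  calc (1 - t) ^ k ≤ (Real.exp (-t)) ^ k := by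
        refine pow_le_pow_left₀ (by linarith) ?_ k
        have := Real.add_one_le_exp (-t)
        linarith
    _ = Real.exp (-(k * t)) := by
        rw [← Real.exp_nat_mul]
        congr 1
        ring

theorem num {N t : ℝ} {k : ℕ} (hN : 32 ≤ N) (ht0 : 0 ≤ t) (ht : t ≤ 1 / N)
    (h : |(k : ℝ) * t - Real.log 2| ≤ 2.05 / N) : |(1 - t) ^ k - 1 / 2| ≤ 4 / N := by
  have hN0 : 0 < N := by linarith
  set u : ℝ := 1 / N with hu
  have hu0 : 0 < u := by positivity
  have hu1 : u ≤ 1 / 32 := one_div_le_one_div_of_le (by norm_num) hN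
  have e1 : 2.05 / N = 2.05 * u := by rw [hu]; ring
  have e2 : 4 / N = 4 * u := by rw [hu]; ring
  rw [e1] at h
  rw [e2]
  have hl : Real.exp (Real.log 2) = 2 := Real.exp_log (by norm_num)
  have hl2 : Real.exp (-Real.log 2) = 1 / 2 := by rw [Real.exp_neg, hl, one_div]
  have h2 := Real.log_two_lt_d9
  obtain ⟨h3, h4⟩ := abs_le.1 h
  rw [abs_le]
  constructor
  · have h5 := num_lower ht0 (by linarith) k (by linarith)
    have h6 : Real.exp (-Real.log 2 + -(4.05 * u)) ≤ Real.exp (-(k * t + 2 * t)) :=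
      Real.exp_le_exp.2 (by linarith)
    rw [Real.exp_add, hl2] at h6
    have h7 := Real.add_one_le_exp (-(4.05 * u))
    linarith
  · have h5 := num_upper (by linarith : t ≤ 1) k
    have h6 : Real.exp (-(k * t)) ≤ Real.exp (-Real.log 2 + 2.05 * u) :=
      Real.exp_le_exp.2 (by linarith)
    rw [Real.exp_add, hl2] at h6
    have h7 := Real.add_one_le_exp (-(2.05 * u))
    have h8 : Real.exp (2.05 * u) * Real.exp (-(2.05 * u)) = 1 := by
      rw [← Real.exp_add, add_neg_cancel, Real.exp_zero]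
    have h9 := Real.exp_pos (2.05 * u)
    have h10 : Real.exp (2.05 * u) ≤ 1 + 8 * u := by
      have h11 : Real.exp (2.05 * u) * (1 - 2.05 * u) ≤ 1 := by
        rw [← h8]
        exact mul_le_mul_of_nonneg_left (by linarith) h9.le
      have h12 : 1 ≤ (1 + 8 * u) * (1 - 2.05 * u) := by nlinarith
      by_contra hcon
      push Not at hcon
      have h13 : (1 + 8 * u) * (1 - 2.05 * u) < Real.exp (2.05 * u) * (1 - 2.05 * u) :=
        mul_lt_mul_of_pos_right hcon (by linarith)
      linarith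
    linarith

/-! ### Moments -/

section

variable {I : Type} [Fintype I] [DecidableEq I] {law : Option Bool → ℝ}

theorem marg (hl : ∑ v, law v = 1) (F : Option Bool → ℝ) (i : I) :
    Ex law (fun s : I → Option Bool => F (s i)) = ∑ v, law v * F v := by
  rw [Ex_resample hl _ i]
  have h : (fun ω : I → Option Bool => ∑ a, law a * F (Function.update ω i a i)) =
      fun _ => ∑ a, law a * F a := by
    funext ω
    exact Finset.sum_congr rfl fun a _ => by rw [Function.update_self]
  rw [h]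
  exact Ex_const hl _

theorem cov (hl : ∑ v, law v = 1) {g : Option Bool → ℝ} (hg : ∑ v, law v * g v = 0) {i j : I}
    (hij : i ≠ j) : Ex law (fun s : I → Option Bool => g (s i) * g (s j)) = 0 := by
  rw [Ex_resample hl _ i]
  have h : (fun ω : I → Option Bool => ∑ a, law a * (g (Function.update ω i a i) *
      g (Function.update ω i a j))) = fun _ => 0 := by
    funext ω
    have h1 : ∀ a, law a * (g (Function.update ω i a i) * g (Function.update ω i a j)) =
        law a * g a * g (ω j) := by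
      intro a
      rw [Function.update_self, Function.update_of_ne hij.symm, mul_assoc]
    rw [Finset.sum_congr rfl fun a _ => h1 a, ← Finset.sum_mul, hg, zero_mul]
  rw [h]
  exact Ex_const hl _

theorem second (hl : ∑ v, law v = 1) {g : Option Bool → ℝ} (hg : ∑ v, law v * g v = 0) {M : ℕ}
    (e : Fin M → I) (he : Function.Injective e) :
    Ex law (fun s : I → Option Bool => (∑ i, g (s (e i))) ^ 2) = M * ∑ v, law v * g v ^ 2 := by
  have h1 : (fun s : I → Option Bool => (∑ i, g (s (e i))) ^ 2) =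
      fun s => ∑ i, ∑ j, g (s (e i)) * g (s (e j)) := by
    funext s
    rw [sq, Finset.sum_mul_sum]
  rw [h1, Ex_sum]
  have h2 : ∀ i : Fin M, Ex law (fun s : I → Option Bool => ∑ j, g (s (e i)) * g (s (e j))) =
      ∑ v, law v * g v ^ 2 := by
    intro i
    rw [Ex_sum, Finset.sum_eq_single i]
    · have h3 : (fun s : I → Option Bool => g (s (e i)) * g (s (e i))) =
          fun s => (fun v => g v ^ 2) (s (e i)) := by
        funext s
        exact (sq _).symm
      rw [h3]
      exact marg hl (fun v => g v ^ 2) (e i)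
    · intro j _ hj
      exact cov hl hg fun h => hj (he h).symm
    · intro h
      exact absurd (Finset.mem_univ i) h
  rw [Finset.sum_congr rfl fun i _ => h2 i, Finset.sum_const, Finset.card_univ, Fintype.card_fin,
    nsmul_eq_mul]

end

/-- the centred indicator of the undetermined status -/
noncomputable def gg (q : ℝ) (v : Option Bool) : ℝ := (if v = none then 1 else 0) - q

/-- the indicator of the status true -/
noncomputable def kk (v : Option Bool) : ℝ := if v = some true then 1 else 0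

theorem kk_nonneg (v : Option Bool) : 0 ≤ kk v := by
  unfold kk
  split_ifs <;> norm_num

theorem sum_gg {law : Option Bool → ℝ} (hl : ∑ v, law v = 1) :
    ∑ v, law v * gg (law none) v = 0 := by
  rw [GoodProbAux.sum_option_bool] at hl ⊢
  unfold gg
  rw [if_pos rfl, if_neg (by simp), if_neg (by simp)]
  linear_combination -(law none) * hl

theorem sum_gg2 {law : Option Bool → ℝ} (hl : ∑ v, law v = 1) :
    ∑ v, law v * gg (law none) v ^ 2 = law none * (1 - law none) := by
  rw [GoodProbAux.sum_option_bool] at hl ⊢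
  unfold gg
  rw [if_pos rfl, if_neg (by simp), if_neg (by simp)]
  linear_combination (law none) ^ 2 * hl

theorem sum_kk (law : Option Bool → ℝ) : ∑ v, law v * kk v = law (some true) := by
  rw [GoodProbAux.sum_option_bool]
  unfold kk
  rw [if_neg (by simp), if_pos rfl, if_neg (by simp)]
  ring

theorem card_live {c : ℕ} (q : ℝ) (σ : Fin c → Option Bool) :
    ∑ i, gg q (σ i) = (live σ).card - c * q := by
  unfold gg live
  rw [Finset.sum_sub_distrib, Finset.sum_const, Finset.card_univ, Fintype.card_fin, nsmul_eq_mul,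
    ← Finset.sum_filter, Finset.sum_const, nsmul_eq_mul, mul_one]

open Classical in
theorem point {c : ℕ} {t η q lam : ℝ} (hlam : 0 < lam)
    (h : ∀ k : ℕ, |(k : ℝ) - c * q| < lam → |(1 - t) ^ k - 1 / 2| ≤ η)
    (σ : Fin c → Option Bool) :
    (if Bal t η σ then (0 : ℝ) else 1) ≤
      ∑ i, kk (σ i) + 1 / lam ^ 2 * (∑ i, gg q (σ i)) ^ 2 := by
  have h1 : 0 ≤ ∑ i, kk (σ i) := Finset.sum_nonneg fun i _ => kk_nonneg _
  have h2 : 0 ≤ 1 / lam ^ 2 * (∑ i, gg q (σ i)) ^ 2 := by positivity
  split_ifs with hB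
  · linarith
  · by_cases hU : Unkilled σ
    · have h3 : ¬ |(1 - t) ^ (live σ).card - 1 / 2| ≤ η := fun h3 => hB ⟨hU, h3⟩
      have h4 : lam ≤ |((live σ).card : ℝ) - c * q| := by
        by_contra hcon
        push Not at hcon
        exact h3 (h _ hcon)
      rw [card_live]
      have h5 : lam ^ 2 ≤ (((live σ).card : ℝ) - c * q) ^ 2 := by
        rw [← sq_abs (((live σ).card : ℝ) - c * q)]
        exact pow_le_pow_left₀ hlam.le h4 2
      have h6 : 1 ≤ 1 / lam ^ 2 * (((live σ).card : ℝ) - c * q) ^ 2 := by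
        rw [one_div, inv_mul_eq_div, le_div_iff₀ (by positivity), one_mul]
        exact h5
      linarith
    · unfold Unkilled at hU
      push Not at hU
      obtain ⟨i, hi⟩ := hU
      have h3 : kk (σ i) ≤ ∑ i, kk (σ i) :=
        Finset.single_le_sum (f := fun i => kk (σ i)) (fun i _ => kk_nonneg _) (Finset.mem_univ i)
      have h4 : kk (σ i) = 1 := by
        unfold kk
        rw [if_pos hi]
      linarith

end GdAux

open GdAux

/-- Part GD -/
theorem gd_stm : GdStm := by
  classical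
  intro X _ _ n M hn law hI hM
  have hN : (32 : ℝ) ≤ 2 ^ n := by
    calc (32 : ℝ) = 2 ^ 5 := by norm_num
      _ ≤ 2 ^ n := pow_le_pow_right₀ (by norm_num) hn
  have e4 : (2 : ℝ) ^ (4 * n) = (2 ^ n) ^ 4 := by rw [← pow_mul, mul_comm]
  have e2 : (2 : ℝ) ^ (2 * n) = (2 ^ n) ^ 2 := by rw [← pow_mul, mul_comm]
  have hrare := hI.rare
  rw [e4, e2] at hrare
  rw [e4] at hM
  rw [e4, e2]
  set N : ℝ := 2 ^ n with hNd
  have hN0 : 0 < N := by linarith
  set q := law none with hq
  set R := law (some true) with hR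
  have hl := hI.sum
  have hq0 : 0 ≤ q := hI.nonneg _
  have hR0 : 0 ≤ R := hI.nonneg _
  have hM0 : (0 : ℝ) ≤ M := Nat.cast_nonneg M
  have hlog := Real.log_two_lt_d9
  set u : ℝ := 1 / N with hu
  have hu0 : 0 < u := by positivity
  have hu1 : u ≤ 1 / 32 := one_div_le_one_div_of_le (by norm_num) hN
  have hNu : N * u = 1 := by rw [hu]; field_simp
  have f4 : q / N ^ 4 = q * u ^ 4 := by rw [hu]; field_simp
  have f2 : 1 / N ^ 2 = u ^ 2 := by rw [hu]; field_simp
  rw [f4] at hM
  rw [f4, f2] at hrare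
  have hMp : M * (q * u ^ 4 + R) ≤ 0.7245 := by
    have := (abs_le.1 hM).2
    linarith
  have hMR : M * R ≤ 1.449 * u ^ 2 := by
    calc (M : ℝ) * R ≤ M * (2 * u ^ 2 * (q * u ^ 4 + R)) := mul_le_mul_of_nonneg_left hrare hM0
      _ = 2 * u ^ 2 * (M * (q * u ^ 4 + R)) := by ring
      _ ≤ 2 * u ^ 2 * 0.7245 := mul_le_mul_of_nonneg_left hMp (by positivity)
      _ = 1.449 * u ^ 2 := by ring
  have hMR0 : 0 ≤ M * R := mul_nonneg hM0 hR0
  have hMq0 : 0 ≤ M * q := mul_nonneg hM0 hq0
  have hMq : M * q * u ^ 4 ≤ 0.7245 := by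
    have : M * (q * u ^ 4 + R) = M * q * u ^ 4 + M * R := by ring
    linarith
  -- the deterministic part
  have hdet : ∀ k : ℕ, |(k : ℝ) - M * q| < N ^ 3 → |(1 - 1 / N ^ 4) ^ k - 1 / 2| ≤ 4 / N := by
    intro k hk
    have g4 : 1 / N ^ 4 = u ^ 4 := by rw [hu]; field_simp
    rw [g4]
    have hu4 : u ^ 4 ≤ u := by
      calc u ^ 4 ≤ u ^ 1 := pow_le_pow_of_le_one hu0.le (by linarith) (by norm_num)
        _ = u := pow_one u
    refine num hN (by positivity) hu4 ?_
    have h1 : |(k : ℝ) * u ^ 4 - M * q * u ^ 4| ≤ u := by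
      rw [← sub_mul, abs_mul, abs_of_pos (by positivity : 0 < u ^ 4)]
      calc |(k : ℝ) - M * q| * u ^ 4 ≤ N ^ 3 * u ^ 4 :=
            mul_le_mul_of_nonneg_right hk.le (by positivity)
        _ = (N * u) ^ 3 * u := by ring
        _ = u := by rw [hNu, one_pow, one_mul]
    have h2 : |(M : ℝ) * q * u ^ 4 - Real.log 2| ≤ u + 1.449 * u ^ 2 := by
      have h3 : (M : ℝ) * q * u ^ 4 - Real.log 2 =
          (M * (q * u ^ 4 + R) - Real.log 2) - M * R := by ring
      rw [h3]
      refine (abs_sub _ _).trans ?_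
      rw [abs_of_nonneg hMR0]
      linarith
    have h3 : 1.449 * u ^ 2 ≤ 0.05 * u := by nlinarith
    have h4 : 2.05 / N = 2.05 * u := by rw [hu]; ring
    rw [h4]
    calc |(k : ℝ) * u ^ 4 - Real.log 2| ≤
        |(k : ℝ) * u ^ 4 - M * q * u ^ 4| + |(M : ℝ) * q * u ^ 4 - Real.log 2| :=
          abs_sub_le _ _ _
      _ ≤ u + (u + 1.449 * u ^ 2) := add_le_add h1 h2
      _ ≤ 2.05 * u := by linarith
  -- the union bound
  have hpt : ∀ s : X × Fin M → Option Bool,
      (if ∀ j, Bal (1 / N ^ 4) (4 / N) (fun i => s (j, i)) then (0 : ℝ) else 1) ≤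
        ∑ j : X, (∑ i : Fin M, kk (s (j, i)) +
          1 / (N ^ 3) ^ 2 * (∑ i : Fin M, gg q (s (j, i))) ^ 2) := by
    intro s
    have h0 : ∀ j : X, (if Bal (1 / N ^ 4) (4 / N) (fun i => s (j, i)) then (0 : ℝ) else 1) ≤
        ∑ i : Fin M, kk (s (j, i)) + 1 / (N ^ 3) ^ 2 * (∑ i : Fin M, gg q (s (j, i))) ^ 2 :=
      fun j => point (by positivity) hdet (fun i => s (j, i))
    refine le_trans ?_ (Finset.sum_le_sum fun j _ => h0 j)
    split_ifs with hA
    · exact Finset.sum_nonneg fun j _ => by split_ifs <;> norm_num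
    · push Not at hA
      obtain ⟨j, hj⟩ := hA
      have h1 := Finset.single_le_sum
        (f := fun j => if Bal (1 / N ^ 4) (4 / N) (fun i => s (j, i)) then (0 : ℝ) else 1)
        (fun j _ => by split_ifs <;> norm_num) (Finset.mem_univ j)
      simp only [if_neg hj] at h1
      exact h1
  refine (Ex_mono hI.nonneg hpt).trans ?_
  rw [Ex_sum]
  have hone : ∀ j : X, Ex law (fun s : X × Fin M → Option Bool => ∑ i : Fin M, kk (s (j, i)) +
      1 / (N ^ 3) ^ 2 * (∑ i : Fin M, gg q (s (j, i))) ^ 2) ≤ 4 / N ^ 2 := by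
    intro j
    rw [Ex_add, Ex_smul, Ex_sum]
    have h1 : ∀ i : Fin M, Ex law (fun s : X × Fin M → Option Bool => kk (s (j, i))) = R := by
      intro i
      rw [marg hl kk (j, i), sum_kk]
    have h2 := second (I := X × Fin M) hl (sum_gg hl) (fun i : Fin M => (j, i))
      fun a b hab => (Prod.mk.inj hab).2
    rw [sum_gg2 hl] at h2
    rw [Finset.sum_congr rfl fun i _ => h1 i, Finset.sum_const, Finset.card_univ,
      Fintype.card_fin, nsmul_eq_mul, h2]
    have h3 : 1 / (N ^ 3) ^ 2 = u ^ 6 := by rw [hu]; field_simp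
    have h4 : 4 / N ^ 2 = 4 * u ^ 2 := by rw [hu]; field_simp
    rw [h3, h4]
    have h5 : u ^ 6 * (M * (q * (1 - q))) ≤ 0.7245 * u ^ 2 := by
      have h6 : M * (q * (1 - q)) ≤ M * q := by nlinarith [mul_nonneg hMq0 hq0]
      calc u ^ 6 * (M * (q * (1 - q))) ≤ u ^ 6 * (M * q) :=
            mul_le_mul_of_nonneg_left h6 (by positivity)
        _ = (M * q * u ^ 4) * u ^ 2 := by ring
        _ ≤ 0.7245 * u ^ 2 := mul_le_mul_of_nonneg_right hMq (by positivity)
    have h7 : 0 < u ^ 2 := by positivity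
    change (M : ℝ) * R + u ^ 6 * (M * (q * (1 - q))) ≤ 4 * u ^ 2
    linarith
  calc ∑ j : X, Ex law (fun s : X × Fin M → Option Bool => ∑ i : Fin M, kk (s (j, i)) +
      1 / (N ^ 3) ^ 2 * (∑ i : Fin M, gg q (s (j, i))) ^ 2) ≤ ∑ _j : X, 4 / N ^ 2 :=
        Finset.sum_le_sum fun j _ => hone j
    _ = Fintype.card X * (4 / N ^ 2) := by
        rw [Finset.sum_const, Finset.card_univ, nsmul_eq_mul]

end Pool.Agent.W911.KM
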