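import Pool.Agent.W911.KM.Defs

/-!
# The hard language is decided with `κ + 1` alternations
-/

set_option autoImplicit false

namespace Pool.Agent.W911.KM

open Finset Pool.Agent.NPC H568R2 Pool.Agent.H676 Pool.Agent.H622R2
open Pool.Agent.H620R2.Gauge Pool.Agent.H591R3.PHG
open Pool.Agent.W911.AL Pool.Agent.W911.AL.Up

namespace Sig

variable {α : Type} [TEnc α]

/-! ## Lists of exponents -/

theorem lvs_exps (n B : ℕ) : ∀ (k P : ℕ) (acc : List ℕ),
    (lvs n B)^[k] (P, acc) = (pk n B k P, (exps n B k P).reverse ++ acc) := by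
  intro k
  induction k with
  | zero => intro P acc; rfl
  | succ k ih =>
    intro P acc
    rw [Function.iterate_succ_apply, pk, exps, List.reverse_cons, List.append_assoc,
      List.singleton_append]
    exact ih _ _

theorem pk_le (n B k P : ℕ) (hP : P ≤ 2 ^ B) : pk n B k P ≤ 2 ^ B := by
  have h := (lvs_bound n B k (P, []) hP (by simp)).1
  rw [lvs_exps] at h
  exact h

theorem exl_length (n κ : ℕ) : (exl n κ).length = κ := by
  have h := (lvs_bound n (BN n κ) κ (2 ^ (BN n κ - 8 * n), [])
    (Nat.pow_le_pow_right (by norm_num) (Nat.sub_le _ _)) (by simp)).2.1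
  rw [lvs_exps] at h
  simpa [exl] using h

theorem exl_le (n κ : ℕ) : ∀ a ∈ exl n κ, a ≤ 64 * n := by
  have h := (lvs_bound n (BN n κ) κ (2 ^ (BN n κ - 8 * n), [])
    (Nat.pow_le_pow_right (by norm_num) (Nat.sub_le _ _)) (by simp)).2.2
  rw [lvs_exps] at h
  intro a ha
  exact h a (by simpa [exl] using ha)

/-! ## Polynomial time -/

theorem upoly_BN {n : α → ℕ} (hn : UPoly n) (κ : ℕ) : UPoly (fun x => BN (n x) κ) :=
  UPoly.add (UPoly.add (UPoly.mul (UPoly.const 116) hn) (UPoly.const 7))
    (UPoly.mul (UPoly.const (κ + 1)) (UPoly.add hn (UPoly.const 8)))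

theorem poly_lvs {n : α → ℕ} (hn : UPoly n) (κ : ℕ) :
    Poly (fun x => (pk (n x) (BN (n x) κ) κ (2 ^ (BN (n x) κ - 8 * n x)),
      (exl (n x) κ).reverse)) := by
  have hB : UPoly (fun x => BN (n x) κ) := upoly_BN hn κ
  have hκ : UPoly (fun _ : α => κ) := UPoly.const κ
  have hB1 : UPoly (fun x => BN (n x) κ - 1) :=
    UPoly.of_le (Poly.sub hB.toPoly (NPC.Poly.const 1)) hB (fun x => Nat.sub_le _ _)
  have hB8 : UPoly (fun x => BN (n x) κ - 8 * n x) :=
    UPoly.of_le (Poly.sub hB.toPoly (UPoly.mul (UPoly.const 8) hn).toPoly) hB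
      (fun x => Nat.sub_le _ _)
  have hexs : UPoly (fun p : α × ℕ × List ℕ =>
      ex (n p.1) (31 * n p.1 * 2 ^ (BN (n p.1) κ - 1)) p.2.1) :=
    upoly_ex (hn.comp (Poly.fst Poly.id)) (Poly.mul
      ((UPoly.mul (UPoly.const 31) hn).toPoly.comp (Poly.fst Poly.id))
      ((poly_pow2 hB1).comp (Poly.fst Poly.id))) (Poly.fst (Poly.snd Poly.id))
  have hlvs : Poly (fun p : α × ℕ × List ℕ => lvs (n p.1) (BN (n p.1) κ) p.2) := by
    refine Poly.pair (poly_sqi (hB.comp (Poly.fst Poly.id)) hexs
      (Poly.sub ((poly_pow2 hB).comp (Poly.fst Poly.id)) (Poly.fst (Poly.snd Poly.id)))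
      (fun x => Nat.sub_le _ _)) (Poly.cons hexs.toPoly (Poly.snd (Poly.snd Poly.id)))
  obtain ⟨q, hq⟩ := exists_bound (UPoly.add (UPoly.add (UPoly.mul (UPoly.const 4)
    (UPoly.add hB (UPoly.const 1))) (UPoly.const 3))
    (UPoly.mul hκ (UPoly.add (UPoly.mul (UPoly.const 256) hn) (UPoly.const 2))))
  refine (Poly.iterLen (σ := ℕ × List ℕ) (F := fun x s => lvs (n x) (BN (n x) κ) s)
    (s := fun x => (2 ^ (BN (n x) κ - 8 * n x), ([] : List ℕ))) hκ
    (Poly.pair (poly_pow2 hB8) (NPC.Poly.const [])) hlvs q ?_).congr ?_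
  · intro x i hi
    rw [List.length_replicate] at hi
    obtain ⟨h1, h2, h3⟩ := lvs_bound (n x) (BN (n x) κ) i
      (2 ^ (BN (n x) κ - 8 * n x), ([] : List ℕ))
      (Nat.pow_le_pow_right (by norm_num) (Nat.sub_le _ _)) (by simp)
    have h4 := hq x
    set s := (lvs (n x) (BN (n x) κ))^[i] (2 ^ (BN (n x) κ - 8 * n x), ([] : List ℕ))
      with hs
    have h5 : sz s.1 ≤ 4 * (BN (n x) κ + 1) + 1 := sz_le_pow h1
    have h6 : sz s.2 ≤ s.2.length * (4 * (64 * n x) + 1 + 1) + 1 :=
      sz_le_length_mul _ _ (fun a ha => by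
        have e1 := sz_nat_le a
        have e2 := Poly.size_le_self a
        have e3 := h3 a ha
        omega)
    rw [h2, List.length_nil, zero_add] at h6
    have h7 : i * (4 * (64 * n x) + 1 + 1) ≤ κ * (256 * n x + 2) := by
      have : 4 * (64 * n x) + 1 + 1 = 256 * n x + 2 := by ring
      rw [this]
      exact Nat.mul_le_mul_right _ hi
    have h8 : sz s = sz s.1 + sz s.2 + 1 := sz_pair s.1 s.2
    show sz s ≤ _
    rw [h8]
    refine le_trans ?_ h4
    omega
  · intro x
    rw [List.length_replicate]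
    have h := lvs_exps (n x) (BN (n x) κ) κ (2 ^ (BN (n x) κ - 8 * n x)) []
    rw [List.append_nil] at h
    exact h

theorem poly_lnB {B : α → ℕ} (hB : UPoly B) : Poly (fun x => lnB (B x)) := by
  have h1 : UPoly (fun p : α × ℕ => B p.1 - (p.2 + 1)) :=
    UPoly.of_le (Poly.sub (hB.toPoly.comp (Poly.fst Poly.id)) (Poly.succ (Poly.snd Poly.id)))
      (hB.comp (Poly.fst Poly.id)) (fun p => Nat.sub_le _ _)
  have h2 : Poly (fun p : α × ℕ => 2 ^ (B p.1 - (p.2 + 1)) / (p.2 + 1)) :=
    Poly.div (poly_pow2 h1) (Poly.succ (Poly.snd Poly.id))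
  refine (Poly.sum (NPC.Poly.map (F := fun x i => 2 ^ (B x - (i + 1)) / (i + 1))
    hB.range h2)).congr fun x => ?_
  unfold lnB
  rfl

theorem poly_topM {n : α → ℕ} (hn : UPoly n) (κ : ℕ) : Poly (fun x => topM (n x) κ) :=
  Poly.div (poly_lnB (upoly_BN hn κ)) (Poly.fst (poly_lvs hn κ))

theorem poly_exl {n : α → ℕ} (hn : UPoly n) (κ : ℕ) :
    Poly (fun x => (exl (n x) κ).reverse) := Poly.snd (poly_lvs hn κ)

theorem upoly_nn {f : α → List Bool} (hf : Poly f) (c : ℕ × ℕ) :
    UPoly (fun x => nn c (f x).length) :=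
  (UPoly.eval (UPoly.length hf) (Polynomial.C c.1 * (Polynomial.X + Polynomial.C 5) ^ (c.2 + 1))).congr
    fun x => by simp [nn]

theorem poly_root {f : α → List Bool} (hf : Poly f) : Poly (fun x => root (f x)) :=
  poly_pairBits hf (NPC.Poly.const [])

/-! ## The verifier -/

/-- the end of the computation, for the input `x` and all the quantified strings `u` -/
def dec (κ : ℕ) (c : ℕ × ℕ) (x u : List Bool) : St :=
  (step (64 * nn c x.length))^[κ + 1]
    (true, 64 * nn c x.length :: (exl (nn c x.length) κ).reverse, u, root x)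

theorem poly_dec (κ : ℕ) (c : ℕ × ℕ) : Poly (fun p : List Bool × List Bool => dec κ c p.1 p.2) := by
  have hn : UPoly (fun p : List Bool × List Bool => nn c p.1.length) :=
    upoly_nn (Poly.fst Poly.id) c
  have hm : UPoly (fun p : List Bool × List Bool => 64 * nn c p.1.length) :=
    UPoly.mul (UPoly.const 64) hn
  have hS : Poly (fun p : List Bool × List Bool =>
      64 * nn c p.1.length :: (exl (nn c p.1.length) κ).reverse) :=
    Poly.cons hm.toPoly (poly_exl hn κ)
  have hR : Poly (fun p : List Bool × List Bool => root p.1) := poly_root (Poly.fst Poly.id)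
  obtain ⟨r, hr⟩ := hS.sz_le
  obtain ⟨r', hr'⟩ := hR.sz_le
  refine (Poly.iterLen (σ := St) (F := fun (p : List Bool × List Bool) s =>
      step (64 * nn c p.1.length) s)
    (s := fun p : List Bool × List Bool =>
      (true, 64 * nn c p.1.length :: (exl (nn c p.1.length) κ).reverse, p.2, root p.1))
    (UPoly.const (κ + 1))
    (Poly.pair (NPC.Poly.const true) (Poly.pair hS (Poly.pair (Poly.snd Poly.id) hR)))
    (poly_step (hm.comp (Poly.fst Poly.id)) (Poly.snd Poly.id))
    (r + Polynomial.C 2 * r' + Polynomial.C 8 * Polynomial.X + Polynomial.C 20) ?_).congr ?_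
  · rintro ⟨x, u⟩ i _
    obtain ⟨h2, h2'⟩ := iter_len (64 * nn c x.length) i
      (true, 64 * nn c x.length :: (exl (nn c x.length) κ).reverse, u, root x)
    have h3 : ∀ s : St, sz s ≤ 3 + sz s.2.1 + (4 * s.2.2.1.length + 1) +
        (4 * s.2.2.2.length + 1) + 3 := by
      rintro ⟨b, r, v, q⟩
      have e1 := sz_bool_le b
      have e3 := sz_listBool_le v
      have e4 := sz_listBool_le q
      simp only [sz_pair]
      omega
    have h4 := sz_listBool_ge (root x)
    have h5 := sz_listBool_ge u
    have h6 := hr (x, u)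
    have h6' := hr' (x, u)
    show sz ((step (64 * nn c x.length))^[i]
      (true, 64 * nn c x.length :: (exl (nn c x.length) κ).reverse, u, root x)) ≤ _
    refine (h3 _).trans ?_
    simp only [Polynomial.eval_add, Polynomial.eval_mul, Polynomial.eval_C,
      Polynomial.eval_X]
    have h7 : sz (x, u) = sz x + sz u + 1 := sz_pair x u
    simp only at h2 h2' h6 h6'
    rw [h7] at h6 h6' ⊢
    omega
  · rintro ⟨x, u⟩
    rw [List.length_replicate]
    rfl

/-- the questions to the oracle -/
def Qs (κ : ℕ) (c : ℕ × ℕ) (y : List Bool) : List (List Bool) :=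
  (List.range (8 * nn c (unpair y).1.length)).map (fun l =>
    (dec κ c (unpair y).1 (unpair y).2).2.2.2 ++
      (List.replicate (min l (8 * nn c (unpair y).1.length)) ()).map (fun _ => true))

theorem poly_decy (κ : ℕ) (c : ℕ × ℕ) :
    Poly (fun y : List Bool => dec κ c (unpair y).1 (unpair y).2) :=
  (poly_dec κ c).comp poly_unpair

theorem upoly_nny (c : ℕ × ℕ) : UPoly (fun y : List Bool => nn c (unpair y).1.length) :=
  upoly_nn (Poly.fst poly_unpair) c

theorem poly_Qs (κ : ℕ) (c : ℕ × ℕ) : Poly (Qs κ c) := by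
  have h0 := poly_decy κ c
  have h2 : UPoly (fun y : List Bool => 8 * nn c (unpair y).1.length) :=
    UPoly.mul (UPoly.const 8) (upoly_nny c)
  have h3 : UPoly (fun p : List Bool × ℕ => min p.2 (8 * nn c (unpair p.1).1.length)) :=
    UPoly.of_le (Poly.min (Poly.snd Poly.id) (h2.toPoly.comp (Poly.fst Poly.id)))
      (h2.comp (Poly.fst Poly.id)) (fun p => min_le_right _ _)
  have h4 : Poly (fun p : List Bool × ℕ => (dec κ c (unpair p.1).1 (unpair p.1).2).2.2.2 ++
      (List.replicate (min p.2 (8 * nn c (unpair p.1).1.length)) ()).map (fun _ => true)) :=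
    Poly.append (Poly.snd (Poly.snd (Poly.snd (h0.comp (Poly.fst Poly.id)))))
      (NPC.Poly.map (F := fun _ _ => true) h3 (NPC.Poly.const true))
  exact NPC.Poly.map (F := fun y l => (dec κ c (unpair y).1 (unpair y).2).2.2.2 ++
    (List.replicate (min l (8 * nn c (unpair y).1.length)) ()).map (fun _ => true)) h2.range h4

/-- the test of the first quantified string -/
def tst (κ : ℕ) (c : ℕ × ℕ) (x u : List Bool) : Bool :=
  decide (valB (u.take (64 * nn c x.length)) < topM (nn c x.length) κ)

theorem poly_tst (κ : ℕ) (c : ℕ × ℕ) : Poly (fun y : List Bool => tst κ c (unpair y).1 (unpair y).2) :=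
  Poly.decide_lt (Poly.valBits (R1.poly_take (Poly.snd poly_unpair)
    (UPoly.mul (UPoly.const 64) (upoly_nny c)))) (poly_topM (upoly_nny c) κ)

/-- the verifier -/
def Ver (κ : ℕ) (c : ℕ × ℕ) (A : Oracle) (y : List Bool) : List Bool :=
  [tst κ c (unpair y).1 (unpair y).2 &&
    decide (((Qs κ c y).map A).all (fun b => !b) = !(dec κ c (unpair y).1 (unpair y).2).1)]

theorem isFP_Ver (κ : ℕ) (c : ℕ × ℕ) (A : Oracle) : IsFP A (Ver κ c A) := by
  have h0 : Poly (fun p : List Bool × List Bool => dec κ c (unpair p.1).1 (unpair p.1).2) :=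
    (poly_decy κ c).comp (Poly.fst Poly.id)
  have h1 : Poly (fun p : List Bool × List Bool => p.2.all (fun b => !b)) :=
    Poly.all (p := fun _ b => !b) (Poly.snd Poly.id) (Poly.not (Poly.snd Poly.id))
  have h2 : Poly (fun p : List Bool × List Bool =>
      [tst κ c (unpair p.1).1 (unpair p.1).2 &&
        decide (p.2.all (fun b => !b) = !(dec κ c (unpair p.1).1 (unpair p.1).2).1)]) :=
    Poly.cons (Poly.and ((poly_tst κ c).comp (Poly.fst Poly.id))
      (Poly.decide_eq h1 (Poly.not (Poly.fst h0)))) (NPC.Poly.const [])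
  exact IsFP.tt (A := A) (H := fun p =>
    [tst κ c (unpair p.1).1 (unpair p.1).2 &&
      decide (p.2.all (fun b => !b) = !(dec κ c (unpair p.1).1 (unpair p.1).2).1)])
    (poly_Qs κ c) h2

theorem Ver_iff (κ : ℕ) (c : ℕ × ℕ) (A : Oracle) (x u : List Bool) :
    Ver κ c A (pairBits x u) = [true] ↔
      valB (u.take (64 * nn c x.length)) < topM (nn c x.length) κ ∧
      bitv A (8 * nn c x.length) (dec κ c x u).2.2.2 = !(dec κ c x u).1 := by
  have h1 : ((Qs κ c (pairBits x u)).map A).all (fun b => !b) =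
      bitv A (8 * nn c x.length) (dec κ c x u).2.2.2 := by
    rw [Bool.eq_iff_iff]
    unfold bitv Qs
    rw [List.all_eq_true, decide_eq_true_iff, unpair_pairBits]
    simp only [List.mem_map, List.mem_range, Bool.not_eq_true', List.map_replicate]
    constructor
    · intro h l hl
      have h2 := h (A ((dec κ c x u).2.2.2 ++ List.replicate l true)) ⟨_, ⟨l, hl, rfl⟩, by
        rw [Nat.min_eq_left hl.le]⟩
      exact h2
    · rintro h b ⟨_, ⟨l, hl, rfl⟩, rfl⟩
      rw [Nat.min_eq_left hl.le]
      exact h l hl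
  unfold Ver tst
  rw [h1, unpair_pairBits]
  simp only [List.cons.injEq, and_true, Bool.and_eq_true, decide_eq_true_eq]

/-! ## Correctness -/

theorem alt_and {m : ℕ} {R C' : List Bool → Prop} {C : Prop} : ∀ (j : ℕ) (b : Bool)
    (u : List Bool), (∀ v, C' (u ++ v) ↔ C) →
      (Alt m (fun v => C' v ∧ R v) j b u ↔ C ∧ Alt m R j b u) := by
  intro j
  induction j with
  | zero =>
    intro b u h
    have h1 := h []
    rw [List.append_nil] at h1
    cases b <;> exact and_congr_left fun _ => h1
  | succ j ih =>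
    intro b u h
    have h1 : ∀ (b : Bool) (w : List Bool),
        (Alt m (fun v => C' v ∧ R v) j b (u ++ w) ↔ C ∧ Alt m R j b (u ++ w)) := by
      intro b w
      refine ih b (u ++ w) fun v => ?_
      rw [List.append_assoc]
      exact h _
    cases b with
    | true =>
      simp only [Alt, h1]
      constructor
      · rintro ⟨w, hw, hC, h2⟩
        exact ⟨hC, w, hw, h2⟩
      · rintro ⟨hC, w, hw, h2⟩
        exact ⟨w, hw, hC, h2⟩
    | false =>
      simp only [Alt, h1]
      constructor
      · intro h2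
        exact ⟨(h2 (List.replicate m false) (by simp)).1, fun w hw => (h2 w hw).2⟩
      · rintro ⟨hC, h2⟩ w hw
        exact ⟨hC, h2 w hw⟩

theorem valB_bitsOf_le : ∀ n i : ℕ, valB (bitsOf n i) ≤ i := by
  intro n
  induction n with
  | zero => intro i; simp [bitsOf]
  | succ n ih =>
    intro i
    rw [bitsOf, valB_cons]
    have h := ih (i / 2)
    have h2 : (if (i % 2 == 1) = true then 1 else 0) = i % 2 := by
      rcases Nat.mod_two_eq_zero_or_one i with h | h <;> simp [h]
    rw [h2]
    omega

theorem bitsOf_valB : ∀ w : List Bool, bitsOf w.length (valB w) = w := by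
  intro w
  induction w with
  | nil => rfl
  | cons b w ih =>
    rw [List.length_cons, bitsOf, valB_cons]
    have h1 : ((if b = true then 1 else 0) + 2 * valB w) / 2 = valB w := by
      cases b with
      | true => simp; omega
      | false => simp
    have h2 : (((if b = true then 1 else 0) + 2 * valB w) % 2 == 1) = b := by
      cases b <;> simp
    rw [h1, h2, ih]

theorem main (κ : ℕ) (c : ℕ × ℕ) (A : Oracle) (x : List Bool) :
    x ∈ HLC κ c A ↔ Alt (64 * nn c x.length)
      (fun u => Ver κ c A (pairBits x u) = [true]) (κ + 1) true [] := by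
  set n := nn c x.length with hn
  have h1 : Alt (64 * n) (fun u => Ver κ c A (pairBits x u) = [true]) (κ + 1) true [] ↔
      ∃ w : List Bool, w.length = 64 * n ∧ (valB w < topM n κ ∧
        HC κ n A (root x ++ w) = true) := by
    refine (Alt_congr (κ + 1) true [] fun v _ => Ver_iff κ c A x v).trans ?_
    simp only [Alt, List.nil_append]
    refine exists_congr fun w => and_congr_right fun hw => ?_
    rw [← hn] at *
    have h2 := alt_and (m := 64 * n)
      (R := fun v => bitv A (8 * n) (dec κ c x v).2.2.2 = !(dec κ c x v).1)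
      (C' := fun v => valB (v.take (64 * n)) < topM n κ) (C := valB w < topM n κ) κ false w
      (fun v => by
        rw [List.take_append_of_le_length hw.ge, List.take_of_length_le hw.le])
    refine h2.trans (and_congr_right fun _ => ?_)
    have h3 := alt_iff A (64 * n) (8 * n) (κ + 1) (64 * n :: (exl n κ).reverse) (root x)
      κ 1 false w (exl n κ).reverse (root x ++ w) (by omega) (by omega) (by
        show step (64 * n) _ = _
        unfold step
        simp only [List.tail_cons, List.headD_cons, min_self, Bool.not_true]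
        rw [List.take_of_length_le hw.le, List.drop_of_length_le hw.le])
      (by rw [List.length_reverse, exl_length])
      (fun a ha => exl_le n κ a (List.mem_reverse.1 ha))
    rw [List.foldr_reverse, Bool.not_false] at h3
    exact h3
  rw [h1]
  have h4 : x ∈ HLC κ c A ↔ ∃ i < topM n κ, HC κ n A (root x ++ bitsOf (64 * n) i) = true := by
    unfold HLC HT
    rw [Set.mem_ofPred_eq, decide_eq_false_iff_not, ← hn]
    push Not
    simp only [ne_eq, Bool.not_eq_false]
  rw [h4]
  constructor
  · rintro ⟨i, hi, h⟩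
    exact ⟨bitsOf (64 * n) i, length_bitsOf _ _, lt_of_le_of_lt (valB_bitsOf_le _ _) hi, h⟩
  · rintro ⟨w, hw, h5, h⟩
    refine ⟨valB w, h5, ?_⟩
    rw [← hw, bitsOf_valB]
    exact h

end Sig

/-- the hard language is decided with `κ + 1` alternations -/
theorem sig_stm : SigStm := by
  intro κ c A
  refine ⟨Sig.Ver κ c A, Polynomial.C 64 * (Polynomial.C c.1 *
    (Polynomial.X + Polynomial.C 5) ^ (c.2 + 1)), Sig.isFP_Ver κ c A, fun x => ?_⟩
  have hm : (Polynomial.C 64 * (Polynomial.C c.1 * (Polynomial.X + Polynomial.C 5) ^ (c.2 + 1)) :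
      Polynomial ℕ).eval x.length = 64 * nn c x.length := by
    simp [nn]
  rw [hm]
  exact Sig.main κ c A x

end Pool.Agent.W911.KM
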