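import Pool.Agent.W911.KM.Defs

/-!
# The numbers of children
-/

set_option autoImplicit false

namespace Pool.Agent.W911.KM

open Finset Pool.Agent.NPC H568R2 Pool.Agent.H676
open Pool.Agent.H620R2.Gauge Pool.Agent.H591R3.PHG Pool.Agent.H591R3.PHG.FinalAux
open Pool.Agent.W911.AL

namespace SizAux

/-- one level -/
theorem level_step {n B k P : ℕ} (hn : 5 ≤ n) {law : Option Bool → ℝ} (hinv : Inv n law)
    (hB : 116 * n + 7 + (k + 1) * (n + 8) ≤ B)
    (hnear : Near B P (law none / 2 ^ (4 * n) + law (some true))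
      (1 / 2 ^ (6 + (k + 1) * (n + 8)))) :
    Inv n (nxt (1 / 2 ^ (4 * n)) (1 / 2 ^ (4 * n)) (1 / 2 ^ (2 * n)) (8 * n * 2 ^ (4 * n))
        (2 ^ ex n (31 * n * 2 ^ (B - 1)) P) law) ∧
      Near B ((sqd B)^[ex n (31 * n * 2 ^ (B - 1)) P] (2 ^ B - P))
        (nxt (1 / 2 ^ (4 * n)) (1 / 2 ^ (4 * n)) (1 / 2 ^ (2 * n)) (8 * n * 2 ^ (4 * n))
          (2 ^ ex n (31 * n * 2 ^ (B - 1)) P) law none / 2 ^ (4 * n) +
        nxt (1 / 2 ^ (4 * n)) (1 / 2 ^ (4 * n)) (1 / 2 ^ (2 * n)) (8 * n * 2 ^ (4 * n))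
          (2 ^ ex n (31 * n * 2 ^ (B - 1)) P) law (some true))
        (1 / 2 ^ (6 + k * (n + 8))) := by
  have hnr : (5 : ℝ) ≤ n := by exact_mod_cast hn
  set ε : ℝ := 1 / 2 ^ (6 + (k + 1) * (n + 8)) with hεdef
  have hε0 : 0 ≤ ε := by positivity
  have hε : ε ≤ 1 / 64 := by
    rw [hεdef]
    apply one_div_le_one_div_of_le (by norm_num)
    calc (64 : ℝ) = 2 ^ 6 := by norm_num
      _ ≤ _ := pow_le_pow_right₀ (by norm_num) (by omega)
  have hn2 : 132 * (n : ℝ) ≤ 2 ^ (n + 7) := by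
    have h4 : 66 * n ≤ 2 ^ (n + 6) := by
      have h5 : ∀ m : ℕ, 66 * (m + 5) ≤ 2 ^ (m + 11) := by
        intro m
        induction m with
        | zero => norm_num
        | succ m ih =>
          have e : (2 : ℕ) ^ (m + 1 + 11) = 2 ^ (m + 11) * 2 := by
            rw [← pow_succ]
          have : 2 ^ 11 ≤ 2 ^ (m + 11) := Nat.pow_le_pow_right (by norm_num) (by omega)
          omega
      obtain ⟨m, rfl⟩ : ∃ m, n = m + 5 := ⟨n - 5, by omega⟩
      exact h5 m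
    have h6 : 132 * n ≤ 2 ^ (n + 7) := by
      rw [show n + 7 = (n + 6) + 1 by ring, pow_succ]; omega
    exact_mod_cast h6
  have hε2 : 66 * n * ε ≤ 1 := by
    rw [hεdef, mul_one_div, div_le_one (by positivity)]
    calc 66 * (n : ℝ) ≤ 132 * n := by linarith
      _ ≤ 2 ^ (n + 7) := hn2
      _ ≤ _ := pow_le_pow_right₀ (by norm_num) (by
          have : (k + 1) * (n + 8) = k * (n + 8) + (n + 8) := by ring
          omega)
  have hW : ((31 * n * 2 ^ (B - 1) : ℕ) : ℝ) = 31 / 2 * n * 2 ^ B := by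
    obtain ⟨b, rfl⟩ : ∃ b, B = b + 1 := ⟨B - 1, by omega⟩
    rw [Nat.add_sub_cancel, pow_succ]
    push_cast
    ring
  obtain ⟨h1, h2, h3⟩ := ex_window hn hinv.lo hinv.hi hε hnear hW (by linarith)
    (by linarith)
  set a := ex n (31 * n * 2 ^ (B - 1)) P with ha
  set p := law none / 2 ^ (4 * n) + law (some true) with hp
  have hc2 : (((2 ^ a : ℕ)) : ℝ) = 2 ^ a := by push_cast; rfl
  have hinv' := inv_step_w (c := 2 ^ a) hn hinv (by rw [hc2]; linarith)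
    (by rw [hc2]; linarith)
  have hp' : nxt (1 / 2 ^ (4 * n)) (1 / 2 ^ (4 * n)) (1 / 2 ^ (2 * n)) (8 * n * 2 ^ (4 * n))
      (2 ^ a) law none / 2 ^ (4 * n) +
      nxt (1 / 2 ^ (4 * n)) (1 / 2 ^ (4 * n)) (1 / 2 ^ (2 * n)) (8 * n * 2 ^ (4 * n)) (2 ^ a)
      law (some true) = (1 - p) ^ (2 ^ a) := by
    have ht0 : (0 : ℝ) < 1 / 2 ^ (4 * n) := by positivity
    have ht1 : (1 : ℝ) / 2 ^ (4 * n) < 1 := by
      rw [div_lt_one (by positivity)]
      exact one_lt_pow₀ (by norm_num) (by omega)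
    have hs : 1 ≤ 8 * n * 2 ^ (4 * n) := Nat.mul_pos (by omega) (by positivity)
    have e := nxt_p (c := 2 ^ a) (ξ := 1 / 2 ^ (2 * n)) ht0 ht1 ht0 hs hinv.sum
    rw [one_div_mul_eq_div, one_div_mul_eq_div] at e
    exact e
  have hlo' := hinv'.lo
  rw [hp'] at hlo'
  have hnear' := near_step (a := a) hn hinv.lo hinv.hi hε0 hε hε2 hnear (by linarith)
    (ex_le _ _ _) hlo'
  refine ⟨hinv', ?_⟩
  rw [hp']
  refine le_trans hnear' (mul_le_mul_of_nonneg_right ?_ ?_)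
  · have e1 : 132 * n * ε ≤ 1 / 2 * (1 / 2 ^ (6 + k * (n + 8))) := by
      have e2 : (2 : ℝ) ^ (6 + (k + 1) * (n + 8)) = 2 ^ (n + 7) * (2 * 2 ^ (6 + k * (n + 8))) := by
        rw [← pow_succ', ← pow_add]
        congr 1
        ring
      rw [hεdef, e2]
      rw [mul_one_div, div_le_iff₀ (by positivity)]
      calc 132 * (n : ℝ) ≤ 2 ^ (n + 7) := hn2
        _ = 1 / 2 * (1 / 2 ^ (6 + k * (n + 8))) * (2 ^ (n + 7) * (2 * 2 ^ (6 + k * (n + 8)))) := by
            field_simp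
    have e3 : (2 : ℝ) ^ (116 * n) / 2 ^ B ≤ 1 / 2 * (1 / 2 ^ (6 + k * (n + 8))) := by
      rw [div_le_iff₀ (by positivity)]
      have e4 : (2 : ℝ) ^ (116 * n + 7 + k * (n + 8)) ≤ 2 ^ B :=
        pow_le_pow_right₀ (by norm_num) (by
          have : (k + 1) * (n + 8) = k * (n + 8) + (n + 8) := by ring
          omega)
      have e5 : (2 : ℝ) ^ (116 * n + 7 + k * (n + 8)) = 2 ^ (116 * n) * (2 * 2 ^ (6 + k * (n + 8))) := by
        rw [← pow_succ', ← pow_add]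
        congr 1
        ring
      rw [e5] at e4
      calc (2 : ℝ) ^ (116 * n) = 1 / 2 * (1 / 2 ^ (6 + k * (n + 8))) *
            (2 ^ (116 * n) * (2 * 2 ^ (6 + k * (n + 8)))) := by field_simp
        _ ≤ _ := mul_le_mul_of_nonneg_left e4 (by positivity)
    linarith
  · exact (Real.exp_pos _).le.trans hlo'

/-- the levels -/
theorem levels {n B : ℕ} (hn : 5 ≤ n) : ∀ (k P : ℕ) (law : Option Bool → ℝ), Inv n law →
    116 * n + 7 + (k + 1) * (n + 8) ≤ B →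
    Near B P (law none / 2 ^ (4 * n) + law (some true)) (1 / 2 ^ (6 + (k + 1) * (n + 8))) →
    ∃ law' : Option Bool → ℝ, Inv n law' ∧
      Near B (pk n B k P) (law' none / 2 ^ (4 * n) + law' (some true))
        (1 / 2 ^ (6 + 1 * (n + 8))) ∧
      ∀ (Y : Type) [Fintype Y] [DecidableEq Y] (Φ : (Y → Option Bool) → ℝ),
        Ex law (WB (Y := Y) (1 / 2 ^ (4 * n)) (1 / 2 ^ (2 * n)) (8 * n * 2 ^ (4 * n)) Φ
          (pw (exps n B k P))) = Ex law' Φ := by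
  intro k
  induction k with
  | zero =>
    intro P law hinv _ hnear
    refine ⟨law, hinv, ?_, fun Y _ _ Φ => rfl⟩
    rw [zero_add] at hnear
    exact hnear
  | succ k ih =>
    intro P law hinv hB hnear
    obtain ⟨h1, h2⟩ := level_step (k := k + 1) hn hinv hB hnear
    obtain ⟨law', h3, h4, h5⟩ := ih _ _ h1 (by
      have : (k + 1 + 1) * (n + 8) = (k + 1) * (n + 8) + (n + 8) := by ring
      omega) h2
    refine ⟨law', h3, h4, fun Y _ _ Φ => ?_⟩
    rw [← h5 Y Φ]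
    exact law_stage (G := Idx Y (pw (exps n B k
        ((sqd B)^[ex n (31 * n * 2 ^ (B - 1)) P] (2 ^ B - P)))))
      (c := 2 ^ ex n (31 * n * 2 ^ (B - 1)) P) (smin := 8 * n * 2 ^ (4 * n))
      (t := 1 / 2 ^ (4 * n)) (t' := 1 / 2 ^ (4 * n)) (ξ := 1 / 2 ^ (2 * n)) law
      (WB (Y := Y) (1 / 2 ^ (4 * n)) (1 / 2 ^ (2 * n)) (8 * n * 2 ^ (4 * n)) Φ
        (pw (exps n B k ((sqd B)^[ex n (31 * n * 2 ^ (B - 1)) P] (2 ^ B - P)))))

/-- the approximation of `log 2` -/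
theorem lnB_near (B : ℕ) : |(lnB B : ℝ) / 2 ^ B - Real.log 2| ≤ ((B : ℝ) + 1) / 2 ^ B := by
  have hB : (0 : ℝ) < 2 ^ B := by positivity
  have h1 := Real.abs_log_sub_add_sum_range_le (x := 1 / 2)
    (by rw [abs_of_pos (by norm_num)]; norm_num) B
  have e1 : Real.log (1 - 1 / 2) = - Real.log 2 := by
    rw [show (1 : ℝ) - 1 / 2 = 2⁻¹ by norm_num, Real.log_inv]
  have e2 : |(1 : ℝ) / 2| ^ (B + 1) / (1 - |(1 : ℝ) / 2|) = 1 / 2 ^ B := by
    rw [abs_of_pos (by norm_num), pow_succ, one_div_pow]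
    field_simp
    norm_num
  rw [e1, e2, ← sub_eq_add_neg] at h1
  set s : ℝ := ∑ i ∈ range B, (1 / 2 : ℝ) ^ (i + 1) / (i + 1) with hs
  -- the terms
  have hterm : ∀ i ∈ range B, ((2 ^ (B - (i + 1)) / (i + 1) : ℕ) : ℝ) / 2 ^ B ≤
      (1 / 2 : ℝ) ^ (i + 1) / (i + 1) ∧ (1 / 2 : ℝ) ^ (i + 1) / (i + 1) - 1 / 2 ^ B ≤
      ((2 ^ (B - (i + 1)) / (i + 1) : ℕ) : ℝ) / 2 ^ B := by
    intro i hi
    rw [mem_range] at hi
    have e3 : (2 : ℝ) ^ (B - (i + 1)) = 2 ^ B * (1 / 2) ^ (i + 1) := by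
      rw [one_div_pow, mul_one_div, eq_div_iff (by positivity), ← pow_add]
      congr 1
      omega
    have hi0 : (0 : ℝ) < (i : ℝ) + 1 := by positivity
    have h2 : (2 ^ (B - (i + 1)) / (i + 1)) * (i + 1) ≤ 2 ^ (B - (i + 1)) := Nat.div_mul_le_self _ _
    have h3 : 2 ^ (B - (i + 1)) < (2 ^ (B - (i + 1)) / (i + 1) + 1) * (i + 1) := by
      rw [mul_comm]
      exact Nat.lt_mul_div_succ _ (by omega)
    set F := 2 ^ (B - (i + 1)) / (i + 1) with hF
    have h2' : (F : ℝ) * (i + 1) ≤ 2 ^ B * (1 / 2) ^ (i + 1) := by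
      rw [← e3]; exact_mod_cast h2
    have h3' : 2 ^ B * (1 / 2) ^ (i + 1) < ((F : ℝ) + 1) * (i + 1) := by
      rw [← e3]; exact_mod_cast h3
    constructor
    · rw [div_le_div_iff₀ hB hi0]
      linarith
    · rw [sub_le_iff_le_add, ← add_div, div_le_div_iff₀ hi0 hB]
      linarith
  have e4 : (lnB B : ℝ) / 2 ^ B =
      ∑ i ∈ range B, ((2 ^ (B - (i + 1)) / (i + 1) : ℕ) : ℝ) / 2 ^ B := by
    unfold lnB
    rw [Nat.cast_sum, Finset.sum_div]
  have h5 : (lnB B : ℝ) / 2 ^ B ≤ s := by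
    rw [e4, hs]
    exact Finset.sum_le_sum fun i hi => (hterm i hi).1
  have h6 : s - B * (1 / 2 ^ B) ≤ (lnB B : ℝ) / 2 ^ B := by
    rw [e4, hs]
    calc _ = ∑ i ∈ range B, ((1 / 2 : ℝ) ^ (i + 1) / (i + 1) - 1 / 2 ^ B) := by
          rw [Finset.sum_sub_distrib, Finset.sum_const, card_range, nsmul_eq_mul]
      _ ≤ _ := Finset.sum_le_sum fun i hi => (hterm i hi).2
  have h7 := abs_le.1 h1
  have e5 : ((B : ℝ) + 1) / 2 ^ B = B * (1 / 2 ^ B) + 1 / 2 ^ B := by ring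
  have h8 : 0 ≤ (B : ℝ) * (1 / 2 ^ B) := by positivity
  rw [e5, abs_le]
  constructor
  · linarith [h7.1]
  · linarith [h7.2]

theorem two_mul_add_one_le (m : ℕ) (hm : 3 ≤ m) : 2 * m + 1 ≤ 2 ^ m := by
  induction m, hm using Nat.le_induction with
  | base => norm_num
  | succ m hm ih =>
    rw [pow_succ]
    omega

theorem top {n κ P : ℕ} (hn : 5 ≤ n) {p : ℝ} (hlo : Real.exp (-(36 * n)) ≤ p)
    (hhi : p ≤ 1 / 2 ^ (8 * n)) (h : Near (BN n κ) P p (1 / 2 ^ (6 + 1 * (n + 8)))) :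
    lnB (BN n κ) / P ≤ 2 ^ (64 * n) ∧
      |((lnB (BN n κ) / P : ℕ) : ℝ) * p - Real.log 2| ≤ 1 / 2 ^ n := by
  set B := BN n κ with hBdef
  set ε : ℝ := 1 / 2 ^ (6 + 1 * (n + 8)) with hεdef
  have hε0 : 0 < ε := by positivity
  have hε : ε ≤ 1 / 64 := by
    rw [hεdef]
    apply one_div_le_one_div_of_le (by norm_num)
    calc (64 : ℝ) = 2 ^ 6 := by norm_num
      _ ≤ _ := pow_le_pow_right₀ (by norm_num) (by omega)
  obtain ⟨hP, h1, h2, h3, hp, hp40⟩ := near_facts hn hlo hhi hε h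
  have hB : (0 : ℝ) < 2 ^ B := by positivity
  have hBn : 116 * n + 7 + (n + 8) ≤ B := by
    rw [hBdef]
    unfold BN
    have : (κ + 1) * (n + 8) = κ * (n + 8) + (n + 8) := by ring
    have h0 : 0 ≤ κ * (n + 8) := Nat.zero_le _
    omega
  have hBs : ((B : ℝ) + 1) / 2 ^ B ≤ 1 / 2 ^ (n + 2) := by
    obtain ⟨m, hm⟩ : ∃ m, B = n + 2 + m := ⟨B - (n + 2), by omega⟩
    have h4 := two_mul_add_one_le m (by omega)
    have h5 : B + 1 ≤ 2 ^ m := by omega
    have h6 : (B : ℝ) + 1 ≤ 2 ^ m := by exact_mod_cast h5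
    rw [div_le_div_iff₀ hB (by positivity), one_mul]
    calc ((B : ℝ) + 1) * 2 ^ (n + 2) ≤ 2 ^ m * 2 ^ (n + 2) :=
          mul_le_mul_of_nonneg_right h6 (by positivity)
      _ = 2 ^ B := by rw [← pow_add]; congr 1; omega
  have hn4 : (1 : ℝ) / 2 ^ (n + 2) ≤ 1 / 128 := by
    apply one_div_le_one_div_of_le (by norm_num)
    calc (128 : ℝ) = 2 ^ 7 := by norm_num
      _ ≤ _ := pow_le_pow_right₀ (by norm_num) (by omega)
  have hL := abs_le.1 ((lnB_near B).trans hBs)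
  set L : ℝ := (lnB B : ℝ) / 2 ^ B with hLdef
  set M : ℕ := lnB B / P with hM
  set q : ℝ := (P : ℝ) / 2 ^ B with hq
  have hlog : Real.log 2 < 0.7 := by
    have := Real.log_two_lt_d9
    linarith
  have hL1 : L ≤ 3 / 4 := by linarith [hL.2]
  have hM1 : (M : ℝ) * q ≤ L := by
    have h4 : M * P ≤ lnB B := Nat.div_mul_le_self _ _
    have h5 : (M : ℝ) * P ≤ lnB B := by exact_mod_cast h4
    rw [hq, hLdef, ← mul_div_assoc]
    exact div_le_div_of_nonneg_right h5 hB.le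
  have hM2 : L ≤ ((M : ℝ) + 1) * q := by
    have h4 : lnB B < (M + 1) * P := by
      rw [mul_comm]
      exact Nat.lt_mul_div_succ _ hP
    have h5 : (lnB B : ℝ) ≤ ((M : ℝ) + 1) * P := by exact_mod_cast h4.le
    rw [hq, hLdef, ← mul_div_assoc]
    exact div_le_div_of_nonneg_right h5 hB.le
  have hM0 : (0 : ℝ) ≤ M := Nat.cast_nonneg _
  have hMp : (M : ℝ) * p ≤ 1 := by
    have h4 : (M : ℝ) * (63 / 64 * p) ≤ M * q := mul_le_mul_of_nonneg_left h2 hM0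
    linarith
  constructor
  · have h4 : (M : ℝ) * (1 / 2 ^ (52 * n)) ≤ 1 :=
      (mul_le_mul_of_nonneg_left ((exp36_ge n).trans hlo) hM0).trans hMp
    have h5 : (M : ℝ) ≤ 2 ^ (52 * n) := by
      rwa [mul_one_div, div_le_one (by positivity)] at h4
    have h6 : M ≤ 2 ^ (52 * n) := by exact_mod_cast h5
    exact h6.trans (Nat.pow_le_pow_right (by norm_num) (by omega))
  · have h4 := abs_le.1 h
    have h5 : |(M : ℝ) * p - M * q| ≤ ε := by
      rw [← mul_sub, abs_mul, abs_of_nonneg hM0, abs_sub_comm]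
      calc (M : ℝ) * |q - p| ≤ M * (ε * p) := mul_le_mul_of_nonneg_left h hM0
        _ = ε * (M * p) := by ring
        _ ≤ ε * 1 := mul_le_mul_of_nonneg_left hMp hε0.le
        _ = ε := mul_one _
    have h6 := abs_le.1 h5
    have h7 : q ≤ 1 / 2 ^ (n + 2) := by
      have h8 : (1 : ℝ) / 2 ^ (8 * n) ≤ 1 / 2 ^ (n + 2) * (1 / 2) := by
        rw [one_div_mul_one_div, ← pow_succ]
        exact one_div_le_one_div_of_le (by positivity)
          (pow_le_pow_right₀ (by norm_num) (by omega))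
      linarith
    have h8 : ε ≤ 1 / 2 ^ (n + 2) := by
      rw [hεdef]
      exact one_div_le_one_div_of_le (by positivity)
        (pow_le_pow_right₀ (by norm_num) (by omega))
    have h9 : (1 : ℝ) / 2 ^ n = 4 * (1 / 2 ^ (n + 2)) := by
      rw [pow_add]
      field_simp
      norm_num
    rw [h9, abs_le]
    constructor
    · linarith [hL.1, h6.1]
    · linarith [hL.2, h6.2]

end SizAux

open SizAux in
theorem siz_stm : SizStm := by
  intro n κ hn
  have hs : 1 ≤ 8 * n := by omega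
  have hT : (0 : ℝ) < 1 / 2 ^ (4 * n) := by positivity
  obtain ⟨h2, h3⟩ := nxt_law0 (w := 8 * n) (smin := 8 * n) hs le_rfl hT
  have hB8 : 8 * n ≤ BN n κ := by
    unfold BN
    omega
  have hnear : Near (BN n κ) (2 ^ (BN n κ - 8 * n))
      (nxt (1 / 2) (1 / 2 ^ (4 * n)) 0 (8 * n) (8 * n) law0 none / 2 ^ (4 * n) +
        nxt (1 / 2) (1 / 2 ^ (4 * n)) 0 (8 * n) (8 * n) law0 (some true))
      (1 / 2 ^ (6 + (κ + 1) * (n + 8))) := by
    rw [h2, h3]
    have e1 : ((1 : ℝ) / 2) ^ (8 * n) / (1 / 2 ^ (4 * n)) / 2 ^ (4 * n) + 0 = 1 / 2 ^ (8 * n) := by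
      rw [one_div_pow]
      field_simp
      ring
    have e2 : (((2 ^ (BN n κ - 8 * n) : ℕ)) : ℝ) / 2 ^ BN n κ = 1 / 2 ^ (8 * n) := by
      rw [Nat.cast_pow, Nat.cast_ofNat, div_eq_div_iff (by positivity) (by positivity), ← pow_add,
        one_mul]
      congr 1
      omega
    unfold Near
    rw [e1, e2, sub_self, abs_zero]
    positivity
  obtain ⟨law', hinv, hnear', hE⟩ := levels (B := BN n κ) hn κ _ _ (inv_start hn)
    (le_of_eq rfl) hnear
  obtain ⟨h4, h5⟩ := top hn hinv.lo hinv.hi hnear'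
  exact ⟨h4, law', hinv, h5, fun Y _ _ Φ => hE Y Φ⟩

end Pool.Agent.W911.KM
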