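import Pool.Agent.W911.KM.Null
import Pool.Agent.W911.KM.Fin
import Pool.Agent.W911.KM.Gd
import Pool.Agent.W911.KM.Siz
import Pool.Agent.W911.KM.Sig
import Pool.Agent.W911.KM.InE
import Pool.Agent.H620R2.GaugeR.Seq

/-!
# Resource-bounded measure relative to an oracle, and the levels of the polynomial hierarchy
-/

set_option autoImplicit false

set_option maxHeartbeats 400000

namespace Pool.Agent.W911.KM

open Finset Filter MeasureTheory Pool.Agent.NPC H568R2 Pool.Agent.H676
open Pool.Agent.H620R2.Gauge Pool.Agent.H591R3.PHG Pool.Agent.H591R3.PHG.FinalAux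
open Pool.Agent.W911.AL

open Classical in
/-- The join of the oracle `A` and the set `B`: the string `0q` is in it if `q` is in `A`, the
string `1q` is in it if `q` is in `B`. -/
noncomputable def join (A : Oracle) (B : Set (List Bool)) : Oracle
  | [] => false
  | false :: q => A q
  | true :: q => decide (q ∈ B)

/-- `d` is a null cover of the class `X` of languages: every `d k` is a density function with
`d k λ ≤ 2 ^ (-k)`, and every language in `X` has, for every `k`, a finite part at which `d k` is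
at least `1`. -/
def IsNullCover (d : ℕ → List Bool → ℝ) (X : Set (Set (List Bool))) : Prop :=
  (∀ k w, 0 ≤ d k w) ∧ (∀ k w, (d k (w ++ [false]) + d k (w ++ [true])) / 2 ≤ d k w) ∧
    (∀ k, d k [] ≤ 1 / 2 ^ k) ∧ ∀ k, ∀ L ∈ X, ∃ n, 1 ≤ d k (prefL L n)

/-- The function `F` of strings gives dyadic approximations of `d`; the integers are given to `F`
in unary notation. -/
def Approximates (F : List Bool → List Bool) (d : ℕ → List Bool → ℝ) : Prop :=
  ∀ k r w, |dy (F (inp k r w)) - d k w| ≤ 1 / 2 ^ r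

/-- The class `X` has measure zero for density functions computable in polynomial time relative to
the oracle `O`. -/
def NullP (O : Oracle) (X : Set (Set (List Bool))) : Prop :=
  ∃ d, IsNullCover d X ∧ ∃ F, IsFP O F ∧ Approximates F d

/-- The function `F` is computable relative to the oracle `O` in time polynomial in
`n + 2 ^ ((log n) ^ c)`: it is computable in polynomial time from a padded input. -/
def IsQP (O : Oracle) (c : ℕ) (F : List Bool → List Bool) : Prop :=
  ∃ G, IsFP O G ∧ ∀ z, F z = G (qpad c z)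

/-- The class `X` has measure zero for density functions computable relative to the oracle `O` in
time polynomial in `n + 2 ^ ((log n) ^ c)`. -/
def NullQP (O : Oracle) (c : ℕ) (X : Set (Set (List Bool))) : Prop :=
  ∃ d, IsNullCover d X ∧ ∃ F, IsQP O c F ∧ Approximates F d

theorem IsFP.isQP {O : Oracle} {F : List Bool → List Bool} (h : IsFP O F) (c : ℕ) :
    IsQP O c F := by
  refine ⟨fun y => F (unpair y).2, h.precomp (Poly.snd poly_unpair), fun z => ?_⟩
  simp only [qpad, unpair_pairBits]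

theorem NullP.nullQP {O : Oracle} {X : Set (Set (List Bool))} (h : NullP O X) (c : ℕ) :
    NullQP O c X := by
  obtain ⟨d, hd, F, hF, hFd⟩ := h
  exact ⟨d, hd, F, IsFP.isQP hF c, hFd⟩

theorem ob_join {A : Oracle} {V : Alg} {V' : List Bool → List Bool} {p : Polynomial ℕ} {κ : ℕ}
    {B : Set (List Bool)} (hV : ∀ x, V.out A x = some (V' x))
    (hB : ∀ x, x ∈ B ↔ Alt (p.eval x.length) (fun u => V' (pairBits x u) = [true]) κ true []) :
    OB V p κ A = join A B := by
  funext y
  cases y with
  | nil => rfl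
  | cons b q =>
    cases b with
    | false => rfl
    | true =>
      simp only [OB, join]
      rw [decide_eq_decide, hB q]
      apply Alt_congr
      intro v _
      rw [hV]
      exact Option.some_inj

/-- a null cover makes the capital grow -/
theorem win_of_null {θ : Par} {A : Oracle} {F : List Bool → List Bool}
    {d : ℕ → List Bool → ℝ} {X : Set (Set (List Bool))}
    (hF : ∀ z, θ.M.out (OB θ.V θ.p θ.κ A) (qpad θ.cp z) = some (F z))
    (hd : IsNullCover d X) (hFd : Approximates F d) (hX : θ.L A ∈ X) (k : ℕ) :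
    ∃ ℓ, 1 ≤ SV θ k ℓ A := by
  obtain ⟨h0, havg, hnil, hcov⟩ := hd
  obtain ⟨n, hn⟩ := hcov k _ hX
  set e := ee θ.M θ.cp (OB θ.V θ.p θ.κ A) k with he
  have hlow : ∀ u, d k u + 7 / 8 * (1 / 2 ^ (k + u.length)) ≤ e u := by
    intro u
    have h1 := hFd k (k + u.length + 3) u
    have h2 : e u = dy (F (inp k (k + u.length + 3) u)) + 1 / 2 ^ (k + u.length) := by
      rw [he, ee, hF]
      rfl
    have h3 : (1 : ℝ) / 2 ^ (k + u.length + 3) = 1 / 8 * (1 / 2 ^ (k + u.length)) := by
      rw [pow_add]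
      field_simp
      norm_num
    rw [h3] at h1
    have h4 := (abs_le.1 h1).1
    rw [h2]
    linarith
  have hup : ∀ u, e u ≤ d k u + 9 / 8 * (1 / 2 ^ (k + u.length)) := by
    intro u
    have h1 := hFd k (k + u.length + 3) u
    have h2 : e u = dy (F (inp k (k + u.length + 3) u)) + 1 / 2 ^ (k + u.length) := by
      rw [he, ee, hF]
      rfl
    have h3 : (1 : ℝ) / 2 ^ (k + u.length + 3) = 1 / 8 * (1 / 2 ^ (k + u.length)) := by
      rw [pow_add]
      field_simp
      norm_num
    rw [h3] at h1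
    have h4 := (abs_le.1 h1).2
    rw [h2]
    linarith
  have hpos : ∀ u : List Bool, (0 : ℝ) < 1 / 2 ^ (k + u.length) := fun u => by positivity
  have hnn : ∀ u, 0 ≤ e u := by
    intro u
    have h1 := hlow u
    have h2 := h0 k u
    have h3 := hpos u
    linarith
  have h1 : 1 ≤ ss e (4 / 2 ^ k) (prefL (θ.L A) n) := by
    refine ss_success (hnn []) ?_ hnn (fun u => ?_) _ ?_
    · have h2 := hup []
      have h3 := hnil k
      rw [List.length_nil, Nat.add_zero] at h2
      have h4 : (4 : ℝ) / 2 ^ k = 4 * (1 / 2 ^ k) := by ring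
      have h5 : (0 : ℝ) < 1 / 2 ^ k := by positivity
      rw [h4]
      linarith
    · have h2 := hup (u ++ [false])
      have h3 := hup (u ++ [true])
      have h4 := havg k u
      have h5 := hlow u
      have h6 : ∀ b : Bool, (1 : ℝ) / 2 ^ (k + (u ++ [b]).length) =
          1 / 2 * (1 / 2 ^ (k + u.length)) := by
        intro b
        rw [List.length_append, List.length_singleton, ← Nat.add_assoc, pow_succ]
        field_simp
      rw [h6] at h2 h3
      have h7 := hpos u
      linarith
    · have h2 := hlow (prefL (θ.L A) n)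
      have h3 := hpos (prefL (θ.L A) n)
      linarith
  refine ⟨n, ?_⟩
  have h2 : n < 2 ^ n := Nat.lt_two_pow_self
  obtain ⟨K, hK⟩ : ∃ K, 2 ^ n - 1 = n + K := ⟨2 ^ n - 1 - n, by omega⟩
  unfold SV
  rw [hK, prefL_add]
  exact st_stop' _ _ h1

instance : Countable Par := by
  have h2 := countable_polynomial
  let F : Par → Alg × ℕ × (ℕ × ℕ) × Alg × Polynomial ℕ × ℕ :=
    fun θ => (θ.M, θ.cp, θ.cl, θ.V, θ.p, θ.κ)
  have hF : Function.Injective F := by
    rintro ⟨M, a, l, V, p, b⟩ ⟨M', a', l', V', p', b'⟩ h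
    simp only [F, Prod.mk.injEq] at h
    obtain ⟨rfl, rfl, ⟨rfl, rfl⟩, rfl, rfl, rfl⟩ := h
    rfl
  exact hF.countable

/-- the algorithm, the padding, the set in the level `Σ_κ` and the bets -/
theorem not_null {A : Oracle} {κ c : ℕ} {cl : ℕ × ℕ} {M : Alg}
    {B : Set (List Bool)} {V : Alg} {V' G F : List Bool → List Bool} {p : Polynomial ℕ}
    (hA : ¬ ∀ k, ∃ ℓ, 1 ≤ SV ⟨M, c, cl, V, p, κ⟩ k ℓ A)
    (hV : ∀ x, V.out A x = some (V' x))
    (hB : ∀ x, x ∈ B ↔ Alt (p.eval x.length) (fun u => V' (pairBits x u) = [true]) κ true [])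
    (hM : ∀ x, M.out (join A B) x = some (G x)) (hFG : ∀ z, F z = G (qpad c z))
    {d : ℕ → List Bool → ℝ} (hFd : Approximates F d)
    {X : Set (Set (List Bool))} (hX : HLC κ cl A ∈ X) : ¬ IsNullCover d X := by
  intro hd
  have hOB := ob_join hV hB
  obtain ⟨θ, hθ⟩ : ∃ θ : Par, θ = ⟨M, c, cl, V, p, κ⟩ := ⟨_, rfl⟩
  have e1 : θ.M = M := by rw [hθ]
  have e2 : θ.cp = c := by rw [hθ]
  have e3 : θ.V = V := by rw [hθ]
  have e4 : θ.p = p := by rw [hθ]
  have e5 : θ.κ = κ := by rw [hθ]
  have e6 : θ.cl = cl := by rw [hθ]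
  have hL : θ.L A ∈ X := by
    unfold Par.L
    rw [e5, e6]
    exact hX
  have hF : ∀ z, θ.M.out (OB θ.V θ.p θ.κ A) (qpad θ.cp z) = some (F z) := by
    intro z
    rw [e1, e2, e3, e4, e5, hOB, hM, hFG]
  rw [← hθ] at hA
  exact hA fun k => win_of_null hF hd hFd hL k

theorem ae_good : ∀ᵐ A ∂fair, ∀ θ : Par, GoodB θ → ¬ ∀ k, ∃ ℓ, 1 ≤ SV θ k ℓ A := by
  rw [ae_all_iff]
  intro θ
  by_cases hg : GoodB θ
  · have h1 := win_null fin_stm gd_stm siz_stm θ hg
    have h2 : ∀ᵐ A ∂fair, ¬ ∀ k, ∃ ℓ, 1 ≤ SV θ k ℓ A := by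
      rw [ae_iff]
      simp only [not_not]
      exact h1
    filter_upwards [h2] with A hA _
    exact hA
  · exact Filter.Eventually.of_forall fun A h => absurd h hg

/-- Relative to almost every oracle `A`, for all `κ` and `c` there is a language in the level
`Σ_{κ+1}` of the polynomial hierarchy such that no class containing it has measure zero for density
functions computable in time polynomial in `n + 2 ^ ((log n) ^ c)` relative to the join of `A` and
a set in `Σ_κ`. -/
theorem km_ae : ∀ᵐ A ∂fair, ∀ κ c : ℕ, ∃ L : Set (List Bool), IsSigma A (fun _ => κ + 1) L ∧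
    ∀ B : Set (List Bool), IsSigma A (fun _ => κ) B →
      ∀ X : Set (Set (List Bool)), L ∈ X → ¬ NullQP (join A B) c X := by
  filter_upwards [ae_good] with A hA
  intro κ c
  refine ⟨HLC κ (1, c + 1) A, sig_stm κ (1, c + 1) A, ?_⟩
  rintro B ⟨V', p, ⟨V, hV⟩, hB⟩ X hX ⟨d, hd, F, ⟨G, ⟨M, hM⟩, hFG⟩, hFd⟩
  exact not_null (hA _ (good_qp M c V p κ)) hV hB hM hFG hFd hX hd

/-- Relative to almost every oracle `A`, for all `κ`: the part of the level `Σ_{κ+1}` of the
polynomial hierarchy inside `E` does not have measure zero for density functions computable in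
polynomial time relative to the join of `A` and a set in `Σ_κ`. -/
theorem km_e : ∀ᵐ A ∂fair, ∀ (κ : ℕ) (B : Set (List Bool)), IsSigma A (fun _ => κ) B →
    ¬ NullP (join A B) {L | IsSigma A (fun _ => κ + 1) L ∧ IsE A L} := by
  filter_upwards [ae_good] with A hA
  rintro κ B ⟨V', p, ⟨V, hV⟩, hB⟩ hn
  obtain ⟨d, hd, F, ⟨G, ⟨M, hM⟩, hFG⟩, hFd⟩ := hn.nullQP 0
  obtain ⟨C, hC⟩ := good_lin M V p κ
  exact not_null (hA _ hC) hV hB hM hFG hFd
    (X := {L | IsSigma A (fun _ => κ + 1) L ∧ IsE A L})
    ⟨sig_stm κ (C, 0) A, hlc_isE κ C A⟩ hd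

end Pool.Agent.W911.KM
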