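import Pool.Agent.W911.KM.Blk

/-!
# The bets on the strings of one length
-/

set_option autoImplicit false

namespace Pool.Agent.W911.KM

open Finset Pool.Agent.NPC H568R2 Pool.Agent.H676
open Pool.Agent.H620R2.Gauge Pool.Agent.H591R3.PHG Pool.Agent.H591R3.PHG.FinalAux
open Pool.Agent.W911.AL

theorem block (hfin : FinStm) (hgd : GdStm) (hsiz : SizStm) (θ : Par) {qb qb' : Polynomial ℕ}
    (hqb : ∀ x a : List Bool, a.length ≤ θ.M.p.eval x.length →
      (θ.M.D (pairBits x a)).length ≤ qb.eval x.length)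
    (hqb' : ∀ (A : Oracle) (x : List Bool), ∃ Q : Finset (List Bool),
      Q.card ≤ θ.M.p.eval x.length ∧ (∀ q ∈ Q, q.length ≤ qb'.eval x.length) ∧
      ∀ A' : Oracle, (∀ q ∈ Q, A' q = A q) → θ.M.out A' x = θ.M.out A x)
    {k ℓ u Λ L m : ℕ} (hc : Cond θ qb k ℓ u Λ L m) (hL' : qb'.eval Λ ≤ L) (hn5 : 5 ≤ θ.n ℓ) {N : ℕ}
    (hN : 2 ^ (2 * ℓ + 1 + 64 * θ.n ℓ + (exl (θ.n ℓ) θ.κ).sum + 8 * θ.n ℓ + 1) ≤ N) :
    Ex unif (fun a : Fin N → Bool => SV θ k (ℓ + 1) (orc N a)) ≤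
      (1 + 2 * (4 / 2 ^ θ.n ℓ)) ^ 2 ^ ℓ * (Ex unif (fun a : Fin N → Bool => SV θ k ℓ (orc N a)) +
        2 * (RR θ ℓ u Λ) * (1 / 2 ^ (4 * θ.n ℓ))) + 8 * (RR θ ℓ u Λ) * (1 / 2 ^ (4 * θ.n ℓ)) +
        err θ.κ (L + θ.κ * (2 * m + 1)) (2 ^ (2 * u)) +
        2 * (2 ^ ℓ * (4 / 2 ^ (2 * θ.n ℓ))) := by
  classical
  set n := θ.n ℓ with hn
  obtain ⟨hM, law', hinv, hbal, hlaw⟩ := hsiz n θ.κ hn5
  set M' := topM n θ.κ with hM'
  set as := exl n θ.κ with has
  have hlenas : as.length = θ.κ := by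
    have : ∀ (k P : ℕ), (exps n (BN n θ.κ) k P).length = k := by
      intro k
      induction k with
      | zero => intro P; rfl
      | succ k ih => intro P; simp [exps, ih]
    exact this _ _
  have hpos : ∀ g : Idx (Fin (2 ^ ℓ) × Fin M') (8 * n :: pw as),
      idx (lf ℓ n M' (8 * n) as g) < N := by
    intro g
    have h1 := leaf_len (ys ℓ n M') _ (length_ys ℓ n M') as (8 * n) g
    have h2 := idx_lt (lf ℓ n M' (8 * n) as g)
    have h3 : 2 ^ ((lf ℓ n M' (8 * n) as g).length + 1) ≤ N := by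
      refine le_trans (Nat.pow_le_pow_right (by norm_num) ?_) hN
      have h4 : (lf ℓ n M' (8 * n) as g).length ≤ 2 * ℓ + 1 + 64 * n + as.sum + 8 * n := h1
      omega
    omega
  have hinj := ps_inj hM hpos
  rw [Ex_overwrite (ps hpos) hinj (fun a : Fin N → Bool => SV θ k (ℓ + 1) (orc N a)),
    Ex_overwrite (ps hpos) hinj (fun a : Fin N → Bool => SV θ k ℓ (orc N a))]
  have hη0 : (0 : ℝ) ≤ 4 / 2 ^ n := by positivity
  have hη1 : (4 : ℝ) / 2 ^ n ≤ 1 / 4 := by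
    rw [div_le_div_iff₀ (by positivity) (by norm_num)]
    have : (2 : ℝ) ^ 5 ≤ 2 ^ n := pow_le_pow_right₀ (by norm_num) hn5
    linarith
  set E : ℝ := (1 + 2 * (4 / 2 ^ n)) ^ 2 ^ ℓ * (2 * (RR θ ℓ u Λ) * (1 / 2 ^ (4 * n))) +
      8 * (RR θ ℓ u Λ) * (1 / 2 ^ (4 * n)) +
      err θ.κ (L + θ.κ * (2 * m + 1)) (2 ^ (2 * u)) +
      2 * (2 ^ ℓ * (4 / 2 ^ (2 * n))) with hE
  have hkey : ∀ a : Fin N → Bool,
      Ex (ber (1 / 2)) (fun z : Idx (Fin (2 ^ ℓ) × Fin M') (8 * n :: pw as) → Bool =>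
        SV θ k (ℓ + 1) (orc N (ow hpos a z))) ≤
      (1 + 2 * (4 / 2 ^ n)) ^ 2 ^ ℓ *
        Ex (ber (1 / 2)) (fun z : Idx (Fin (2 ^ ℓ) × Fin M') (8 * n :: pw as) → Bool =>
        SV θ k ℓ (orc N (ow hpos a z))) + E := by
    intro a
    set w0 : List Bool := prefL (θ.L (orc N a)) (2 ^ ℓ - 1) with hw0
    have h2ℓ : 0 < 2 ^ ℓ := by positivity
    have hw0l : w0.length + 2 ^ ℓ ≤ 2 ^ (ℓ + 1) := by
      rw [hw0, length_prefL, pow_succ]
      omega
    set D : (Fin (2 ^ ℓ) → Bool) → Oracle → ℝ := fun v O =>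
      ss (ee θ.M θ.cp O k) (4 / 2 ^ k) (w0 ++ List.ofFn (fun j => !(v j))) with hD
    set D0 : Oracle → ℝ := fun O => ss (ee θ.M θ.cp O k) (4 / 2 ^ k) w0 with hD0
    have hG : Game (Fin (2 ^ ℓ)) L (2 ^ (2 * u)) (RR θ ℓ u Λ) D D0 := game θ hqb hc w0 hw0l
    set F : List Bool → (Idx (Fin (2 ^ ℓ) × Fin M') (8 * n :: pw as) → Bool) → Bool := fun y z =>
      leafO θ.V (orc N (ow hpos a z)) (ndp (fun y => θ.p.eval y.tail.length) θ.κ y).1
        (ndp (fun y => θ.p.eval y.tail.length) θ.κ y).2 with hF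
    have hFd : ∀ y : List Bool, y.length ≤ L + θ.κ * (2 * m + 1) → DTr (2 ^ (2 * u)) (F y) := by
      intro y hy
      obtain ⟨h1, h2⟩ := ndp_len (fun y => θ.p.eval y.tail.length) θ.κ y
      have h3 : DTr (2 ^ (2 * u)) (fun a : Fin N → Bool => leafO θ.V (orc N a)
          (ndp (fun y => θ.p.eval y.tail.length) θ.κ y).1
          (ndp (fun y => θ.p.eval y.tail.length) θ.κ y).2) := by
        refine dtr_leafO θ.V N _ _ (le_trans (eval_mono _ ?_) hc.hV) Nat.one_le_two_pow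
        have h4 : θ.p.eval (ndp (fun y => θ.p.eval y.tail.length) θ.κ y).1.tail.length ≤
            θ.p.eval (L + θ.κ * (2 * m + 1)) := by
          apply eval_mono
          rw [List.length_tail]
          omega
        have h5 : (ndp (fun y => θ.p.eval y.tail.length) θ.κ y).2.length ≤
            θ.κ * θ.p.eval (L + θ.κ * (2 * m + 1)) := by
          rw [h2]
          exact Nat.mul_le_mul_left _ h4
        omega
      exact DTr_overwrite (ps hpos) a h3
    have h1 := core_leaf (X := Fin (2 ^ ℓ)) (M := M') hfin hn5 hc.hu hη0 hη1 D D0 L hG θ.κ (pw as)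
      (by rw [pw, List.length_map]; exact hlenas) m F hFd true
    rw [Fintype.card_fin] at h1
    have hWB := hlaw (Fin (2 ^ ℓ) × Fin M') (nbal (X := Fin (2 ^ ℓ)) (M := M')
      (1 / 2 ^ (4 * n)) (4 / 2 ^ n))
    rw [hWB] at h1
    have h2 : Ex law' (nbal (X := Fin (2 ^ ℓ)) (M := M') (1 / 2 ^ (4 * n)) (4 / 2 ^ n)) ≤
        2 ^ ℓ * (4 / 2 ^ (2 * n)) := by
      have h3 := hgd (Fin (2 ^ ℓ)) n M' hn5 law' hinv hbal
      rw [Fintype.card_fin] at h3
      push_cast at h3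
      refine le_trans (le_of_eq ?_) h3
      congr 1
    -- the oracles
    have hO : ∀ (z : Idx (Fin (2 ^ ℓ) × Fin M') (8 * n :: pw as) → Bool) (q : List Bool),
        q.length ≤ L → QF m F θ.κ true q z = OB θ.V θ.p θ.κ (orc N (ow hpos a z)) q := by
      intro z q hq
      exact ob_qf θ.V θ.p θ.κ m (fun z => orc N (ow hpos a z)) q ((eval_mono _ (by
        rw [List.length_tail]; omega)).trans hc.hm) z
    have hss : ∀ (z : Idx (Fin (2 ^ ℓ) × Fin M') (8 * n :: pw as) → Bool) (w : List Bool),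
        w.length ≤ 2 ^ (ℓ + 1) →
        ss (ee θ.M θ.cp (fun q => QF m F θ.κ true q z) k) (4 / 2 ^ k) w =
          ss (ee θ.M θ.cp (OB θ.V θ.p θ.κ (orc N (ow hpos a z))) k) (4 / 2 ^ k) w := by
      intro z w hw
      apply ss_congr
      intro v hv
      exact ee_congr θ.M hqb' hc.hΛ hL' (fun q hq => hO z q hq) v (hv.trans hw)
    -- the languages
    have hpre0 : ∀ z : Idx (Fin (2 ^ ℓ) × Fin M') (8 * n :: pw as) → Bool,
        prefL (θ.L (orc N (ow hpos a z))) (2 ^ ℓ - 1) = w0 := by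
      intro z
      rw [hw0]
      unfold prefL
      apply List.map_congr_left
      intro i hi
      rw [List.mem_range] at hi
      rw [decide_eq_decide]
      show HT θ.κ θ.cl (orc N (ow hpos a z)) (str i) = false ↔
        HT θ.κ θ.cl (orc N a) (str i) = false
      rw [ht_other hpos a z (str i) (by have := length_str_lt hi; omega)]
    have hpre1 : ∀ z : Idx (Fin (2 ^ ℓ) × Fin M') (8 * n :: pw as) → Bool,
        prefL (θ.L (orc N (ow hpos a z))) (2 ^ (ℓ + 1) - 1) =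
          w0 ++ List.ofFn (fun j => !(decide (∀ i : Fin M',
            Tr (8 * n :: pw as) (val (fun _ => none) z) (j, i) = false))) := by
      intro z
      have e1 : 2 ^ (ℓ + 1) - 1 = (2 ^ ℓ - 1) + 2 ^ ℓ := by rw [pow_succ]; omega
      rw [e1, prefL_add, hpre0]
      congr 1
      congr 1
      funext j
      have h3 : HT θ.κ θ.cl (orc N (ow hpos a z)) (xs ℓ j) =
          decide (∀ i : Fin M', Tr (8 * n :: pw as) (val (fun _ => none) z) (j, i) = false) :=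
        ht_block (κ := θ.κ) (c := θ.cl) (ℓ := ℓ) hM hpos a z j
      have h4 : (str (2 ^ ℓ - 1 + j.val) ∈ θ.L (orc N (ow hpos a z))) ↔
          HT θ.κ θ.cl (orc N (ow hpos a z)) (xs ℓ j) = false := Iff.rfl
      rw [h3] at h4
      by_cases h5 : str (2 ^ ℓ - 1 + j.val) ∈ θ.L (orc N (ow hpos a z))
      · rw [decide_eq_true h5]
        exact (by rw [h4.1 h5]; rfl)
      · rw [decide_eq_false h5]
        have h6 : ¬ (decide (∀ i : Fin M',
            Tr (8 * n :: pw as) (val (fun _ => none) z) (j, i) = false) = false) :=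
          fun h => h5 (h4.2 h)
        rw [Bool.not_eq_false] at h6
        rw [h6]
        rfl
    have hA : Ex (ber (1 / 2)) (fun z : Idx (Fin (2 ^ ℓ) × Fin M') (8 * n :: pw as) → Bool =>
        SV θ k (ℓ + 1) (orc N (ow hpos a z))) =
        EA (1 / 2) (8 * n :: pw as) (fun _ => none) D (fun q => QF m F θ.κ true q) := by
      unfold EA
      congr 1
      funext z
      unfold SV
      rw [hpre1 z]
      exact (hss z _ (by rw [List.length_append, List.length_ofFn]; exact hw0l)).symm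
    have hBe : Ex (ber (1 / 2)) (fun z : Idx (Fin (2 ^ ℓ) × Fin M') (8 * n :: pw as) → Bool =>
        SV θ k ℓ (orc N (ow hpos a z))) =
        EB (X := Fin (2 ^ ℓ)) (M := M') (1 / 2) (8 * n :: pw as) D0
          (fun q => QF m F θ.κ true q) := by
      unfold EB
      congr 1
      funext z
      unfold SV
      rw [hpre0 z]
      exact (hss z _ (by omega)).symm
    rw [hA, hBe]
    refine h1.trans ?_
    rw [hE]
    have h7 : (1 + 2 * (4 / 2 ^ n) : ℝ) ^ 2 ^ ℓ * (EB (X := Fin (2 ^ ℓ)) (M := M') (1 / 2)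
        (8 * n :: pw as) D0 (fun q => QF m F θ.κ true q) +
        2 * (RR θ ℓ u Λ) * (1 / 2 ^ (4 * n))) = (1 + 2 * (4 / 2 ^ n)) ^ 2 ^ ℓ *
        EB (X := Fin (2 ^ ℓ)) (M := M') (1 / 2) (8 * n :: pw as) D0
          (fun q => QF m F θ.κ true q) +
        (1 + 2 * (4 / 2 ^ n)) ^ 2 ^ ℓ * (2 * (RR θ ℓ u Λ) * (1 / 2 ^ (4 * n))) := by ring
    rw [h7]
    linarith
  have h1 : Ex unif (fun a : Fin N → Bool => Ex (ber (1 / 2))
      (fun z : Idx (Fin (2 ^ ℓ) × Fin M') (8 * n :: pw as) → Bool =>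
        SV θ k (ℓ + 1) (orc N (ow hpos a z)))) ≤
      Ex unif (fun a : Fin N → Bool => (1 + 2 * (4 / 2 ^ n)) ^ 2 ^ ℓ *
        Ex (ber (1 / 2)) (fun z : Idx (Fin (2 ^ ℓ) × Fin M') (8 * n :: pw as) → Bool =>
        SV θ k ℓ (orc N (ow hpos a z))) + E) := Ex_mono unif_nonneg hkey
  have h2 : Ex unif (fun a : Fin N → Bool => (1 + 2 * (4 / 2 ^ n)) ^ 2 ^ ℓ *
        Ex (ber (1 / 2)) (fun z : Idx (Fin (2 ^ ℓ) × Fin M') (8 * n :: pw as) → Bool =>
        SV θ k ℓ (orc N (ow hpos a z))) + E) =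
      (1 + 2 * (4 / 2 ^ n)) ^ 2 ^ ℓ * Ex unif (fun a : Fin N → Bool => Ex (ber (1 / 2))
        (fun z : Idx (Fin (2 ^ ℓ) × Fin M') (8 * n :: pw as) → Bool =>
        SV θ k ℓ (orc N (ow hpos a z)))) + E := by
    unfold Ex
    simp only [mul_add, Finset.sum_add_distrib]
    congr 1
    · rw [Finset.mul_sum]
      refine Finset.sum_congr rfl fun a _ => ?_
      ring
    · have := Ex_const (I := Fin N) unif_sum E
      unfold Ex at this
      exact this
  rw [h2] at h1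
  refine h1.trans (le_of_eq ?_)
  rw [hE]
  show (1 + 2 * (4 / 2 ^ n)) ^ 2 ^ ℓ * Ex unif (fun a : Fin N → Bool => Ex (ber (1 / 2))
    (fun z : Idx (Fin (2 ^ ℓ) × Fin M') (8 * n :: pw as) → Bool =>
      SV θ k ℓ (orc N (ow hpos a z)))) + _ = _
  have h3 : Ex unif (fun a : Fin N → Bool => Ex (ber (1 / 2)) (fun z =>
      (fun a : Fin N → Bool => SV θ k ℓ (orc N a))
        (fun i => if h : ∃ j, ps hpos j = i then z h.choose else a i))) =
      Ex unif (fun a : Fin N → Bool => Ex (ber (1 / 2))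
    (fun z : Idx (Fin (2 ^ ℓ) × Fin M') (8 * n :: pw as) → Bool =>
      SV θ k ℓ (orc N (ow hpos a z)))) := rfl
  rw [h3]
  ring

end Pool.Agent.W911.KM
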