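import Pool.Agent.W911.KM.Block

/-!
# All lengths
-/

set_option autoImplicit false

namespace Pool.Agent.W911.KM

open Finset Filter MeasureTheory Pool.Agent.NPC H568R2 Pool.Agent.H676
open Pool.Agent.H620R2.Gauge Pool.Agent.H591R3.PHG Pool.Agent.H591R3.PHG.FinalAux
open Pool.Agent.W911.AL
open Pool.Agent.W911.IB (Ew bt law_local)

/-- the length of the longest input of the algorithm -/
def LL (c ℓ : ℕ) : ℕ := 2 ^ ((ℓ + 6) ^ c + ℓ + 8)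

theorem LL_spec {c k ℓ : ℕ} (hk : k ≤ 2 ^ (ℓ + 3)) :
    2 ^ (Nat.size (4 * k + 3 * 2 ^ (ℓ + 1) + 8)) ^ c * 2 + 4 * k + 3 * 2 ^ (ℓ + 1) + 9 ≤
      LL c ℓ := by
  have h0 : 1 ≤ 2 ^ ℓ := Nat.one_le_two_pow
  have e1 : 2 ^ (ℓ + 3) = 8 * 2 ^ ℓ := by rw [pow_add]; ring
  have e2 : 2 ^ (ℓ + 1) = 2 * 2 ^ ℓ := by rw [pow_add]; ring
  have e3 : 2 ^ (ℓ + 6) = 64 * 2 ^ ℓ := by rw [pow_add]; ring
  have h1 : 4 * k + 3 * 2 ^ (ℓ + 1) + 8 < 2 ^ (ℓ + 6) := by omega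
  have h2 : Nat.size (4 * k + 3 * 2 ^ (ℓ + 1) + 8) ≤ ℓ + 6 := Nat.size_le.2 h1
  have h3 : 2 ^ (Nat.size (4 * k + 3 * 2 ^ (ℓ + 1) + 8)) ^ c ≤ 2 ^ (ℓ + 6) ^ c :=
    Nat.pow_le_pow_right (by norm_num) (Nat.pow_le_pow_left h2 c)
  have h4 : LL c ℓ = 2 ^ (ℓ + 6) ^ c * 2 ^ (ℓ + 6) * 4 := by
    unfold LL
    rw [← pow_add, show (4 : ℕ) = 2 ^ 2 by norm_num, ← pow_add]
    congr 1
  have h5 : 1 ≤ 2 ^ (ℓ + 6) ^ c := Nat.one_le_two_pow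
  have h6 : 64 ≤ 2 ^ (ℓ + 6) := by omega
  have h7 : 2 ^ (ℓ + 6) ^ c * 2 ^ (ℓ + 6) * 4 ≥ 2 ^ (ℓ + 6) ^ c * 2 + 2 ^ (ℓ + 6) + 1 := by
    nlinarith
  omega

/-- polynomials of the length of the input are small -/
theorem poly_small (c : ℕ) (P : Polynomial ℕ) :
    ∀ᶠ ℓ : ℕ in atTop, P.eval (LL c ℓ) ≤ 2 ^ (nn (1, c + 1) ℓ / 8) := by
  obtain ⟨d, hd⟩ := poly_le_pow P
  have h1 : Tendsto (fun ℓ => LL c ℓ) atTop atTop := by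
    refine tendsto_atTop_mono (fun ℓ => ?_) tendsto_id
    unfold LL
    exact (Nat.lt_two_pow_self (n := ℓ)).le.trans (Nat.pow_le_pow_right (by norm_num) (by omega))
  filter_upwards [h1.eventually hd, eventually_ge_atTop (8 * (d * (2 ^ c + 2) + 1))] with ℓ h2 h3
  refine h2.trans ?_
  unfold LL nn
  rw [← pow_mul, one_mul]
  apply Nat.pow_le_pow_right (by norm_num)
  have h4 : (ℓ + 6) ^ c ≤ 2 ^ c * (ℓ + 5) ^ (c + 1) := by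
    calc (ℓ + 6) ^ c ≤ (2 * (ℓ + 5)) ^ c := Nat.pow_le_pow_left (by omega) c
      _ = 2 ^ c * (ℓ + 5) ^ c := mul_pow _ _ _
      _ ≤ 2 ^ c * (ℓ + 5) ^ (c + 1) :=
        Nat.mul_le_mul_left _ (Nat.pow_le_pow_right (by omega) (by omega))
  have h5 : ℓ + 8 ≤ 2 * (ℓ + 5) ^ (c + 1) := by
    have : ℓ + 5 ≤ (ℓ + 5) ^ (c + 1) := by
      calc ℓ + 5 = (ℓ + 5) ^ 1 := (pow_one _).symm
        _ ≤ _ := Nat.pow_le_pow_right (by omega) (by omega)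
    omega
  rw [Nat.le_div_iff_mul_le (by norm_num)]
  have h6 : ((ℓ + 6) ^ c + ℓ + 8) * d * 8 ≤ (2 ^ c + 2) * (ℓ + 5) ^ (c + 1) * d * 8 := by
    apply Nat.mul_le_mul_right
    apply Nat.mul_le_mul_right
    have : (2 ^ c + 2) * (ℓ + 5) ^ (c + 1) = 2 ^ c * (ℓ + 5) ^ (c + 1) + 2 * (ℓ + 5) ^ (c + 1) := by
      ring
    omega
  refine h6.trans ?_
  calc (2 ^ c + 2) * (ℓ + 5) ^ (c + 1) * d * 8 = (8 * (d * (2 ^ c + 2))) * (ℓ + 5) ^ (c + 1) := by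
        ring
    _ ≤ (ℓ + 5) * (ℓ + 5) ^ (c + 1) := Nat.mul_le_mul_right _ (by omega)
    _ = (ℓ + 5) ^ (c + 1 + 1) := by rw [pow_succ (ℓ + 5) (c + 1)]; ring

/-- polynomials of the length of the input are small, for linear parameters -/
theorem poly_small' (P : Polynomial ℕ) : ∃ C : ℕ, 2 ≤ C ∧
    ∀ᶠ ℓ : ℕ in atTop, P.eval (LL 0 ℓ) ≤ 2 ^ (nn (C, 0) ℓ / 8) := by
  obtain ⟨d, hd⟩ := poly_le_pow P
  refine ⟨16 * d + 2, by omega, ?_⟩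
  have h1 : Tendsto (fun ℓ => LL 0 ℓ) atTop atTop := by
    refine tendsto_atTop_mono (fun ℓ => ?_) tendsto_id
    unfold LL
    exact (Nat.lt_two_pow_self (n := ℓ)).le.trans (Nat.pow_le_pow_right (by norm_num) (by omega))
  filter_upwards [h1.eventually hd] with ℓ h2
  refine h2.trans ?_
  unfold LL nn
  rw [← pow_mul]
  apply Nat.pow_le_pow_right (by norm_num)
  rw [Nat.le_div_iff_mul_le (by norm_num)]
  simp only [pow_zero, zero_add, pow_one]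
  nlinarith

/-- the polynomial for all the bounds -/
noncomputable def Par.big (θ : Par) (qb qb' : Polynomial ℕ) : Polynomial ℕ :=
  θ.V.p.comp (2 * ((qb + qb') + Polynomial.C θ.κ * (2 * θ.p.comp (qb + qb') + 1)) + 1 +
    Polynomial.C θ.κ * θ.p.comp
      ((qb + qb') + Polynomial.C θ.κ * (2 * θ.p.comp (qb + qb') + 1))) +
  θ.M.p + ((qb + qb') + Polynomial.C θ.κ * (2 * θ.p.comp (qb + qb') + 1)) + Polynomial.X +
    Polynomial.C (θ.κ + 6)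

theorem exists_params (θ : Par) (qb qb' : Polynomial ℕ)
    (hbig : ∀ᶠ ℓ : ℕ in atTop, (θ.big qb qb').eval (LL θ.cp ℓ) ≤ 2 ^ (θ.n ℓ / 8)) :
    ∀ᶠ ℓ : ℕ in atTop,
    ∃ L m : ℕ, qb'.eval (LL θ.cp ℓ) ≤ L ∧
      (∀ k, 1 ≤ k → k ≤ 2 ^ (ℓ + 3) → Cond θ qb k ℓ (θ.n ℓ / 8) (LL θ.cp ℓ) L m) ∧
      θ.M.p.eval (LL θ.cp ℓ) ≤ 2 ^ (θ.n ℓ / 8) ∧
      3 * 2 ^ (ℓ + 1) + 1 ≤ 2 ^ (θ.n ℓ / 8) ∧
      θ.κ + (L + θ.κ * (2 * m + 1)) + 2 + (ℓ + 4) ≤ 2 ^ (θ.n ℓ / 8) := by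
  set Lp : Polynomial ℕ := qb + qb' with hLp
  set mp : Polynomial ℕ := θ.p.comp Lp with hmp
  set Tp : Polynomial ℕ := Lp + Polynomial.C θ.κ * (2 * mp + 1) with hTp
  set Vp : Polynomial ℕ := θ.V.p.comp (2 * Tp + 1 + Polynomial.C θ.κ * θ.p.comp Tp) with hVp
  have hb : θ.big qb qb' = Vp + θ.M.p + Tp + Polynomial.X + Polynomial.C (θ.κ + 6) := rfl
  rw [hb] at hbig
  filter_upwards [hbig] with ℓ h
  have e1 : Lp.eval (LL θ.cp ℓ) = qb.eval (LL θ.cp ℓ) + qb'.eval (LL θ.cp ℓ) := by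
    rw [hLp, Polynomial.eval_add]
  have e2 : mp.eval (LL θ.cp ℓ) = θ.p.eval (Lp.eval (LL θ.cp ℓ)) := by
    rw [hmp, Polynomial.eval_comp]
  have e3 : Tp.eval (LL θ.cp ℓ) = Lp.eval (LL θ.cp ℓ) +
      θ.κ * (2 * mp.eval (LL θ.cp ℓ) + 1) := by
    rw [hTp]
    simp
  have e4 : Vp.eval (LL θ.cp ℓ) = θ.V.p.eval (2 * Tp.eval (LL θ.cp ℓ) + 1 +
      θ.κ * θ.p.eval (Tp.eval (LL θ.cp ℓ))) := by
    rw [hVp, Polynomial.eval_comp]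
    simp [Polynomial.eval_comp]
  simp only [Polynomial.eval_add, Polynomial.eval_X, Polynomial.eval_C] at h
  have hLL : ∀ a : ℕ, a ≤ (ℓ + 6) ^ θ.cp + ℓ + 8 → 2 ^ a ≤ LL θ.cp ℓ := fun a ha =>
    Nat.pow_le_pow_right (by norm_num) ha
  refine ⟨Lp.eval (LL θ.cp ℓ), mp.eval (LL θ.cp ℓ), by omega, fun k hk1 hk => ?_, by omega, ?_, ?_⟩
  · refine ⟨hk1, Nat.mul_div_le _ _, LL_spec hk, by omega, e2 ▸ le_rfl, ?_⟩
    rw [← e3, ← e4]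
    calc Vp.eval (LL θ.cp ℓ) ≤ 2 ^ (θ.n ℓ / 8) := by omega
      _ ≤ 2 ^ (2 * (θ.n ℓ / 8)) := Nat.pow_le_pow_right (by norm_num) (by omega)
  · have h1 := hLL (ℓ + 4) (by omega)
    have e5 : 2 ^ (ℓ + 4) = 16 * 2 ^ ℓ := by rw [pow_add]; ring
    have e6 : 2 ^ (ℓ + 1) = 2 * 2 ^ ℓ := by rw [pow_add]; ring
    have h0 : 1 ≤ 2 ^ ℓ := Nat.one_le_two_pow
    omega
  · have h1 := hLL ℓ (by omega)
    have h2 : ℓ < 2 ^ ℓ := Nat.lt_two_pow_self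
    rw [← e3]
    omega

theorem exp_bound {x : ℝ} (h0 : 0 ≤ x) (h1 : x ≤ 1) : Real.exp x ≤ 1 + 2 * x := by
  have h2 : |x| ≤ 1 := by rw [abs_of_nonneg h0]; exact h1
  have h3 := abs_le.1 (Real.abs_exp_sub_one_sub_id_le h2)
  nlinarith [h3.2]

/-- the numbers in one step -/
theorem numbers {n ℓ u κ T R : ℕ} (hn : 2 * ℓ + 10 ≤ n) (hu : 8 * u ≤ n)
    (hR : R ≤ 2 ^ (4 * u)) (hT : κ + T + 2 + (ℓ + 4) ≤ 2 ^ u) {S : ℝ} (hS : 0 ≤ S) :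
    (1 + 2 * (4 / 2 ^ n)) ^ 2 ^ ℓ * (S + 2 * R * (1 / 2 ^ (4 * n))) + 8 * R * (1 / 2 ^ (4 * n)) +
      err κ T (2 ^ (2 * u)) + 2 * (2 ^ ℓ * (4 / 2 ^ (2 * n))) ≤
      (1 + 1 / 2 ^ ℓ) * S + 1 / 2 ^ ℓ := by
  have hℓ0 : (0 : ℝ) < 2 ^ ℓ := by positivity
  have hn0 : (0 : ℝ) < 2 ^ n := by positivity
  -- the first factor
  have hx : (2 : ℝ) ^ ℓ * (2 * (4 / 2 ^ n)) ≤ 1 / (8 * 2 ^ ℓ) := by
    have h1 : (2 : ℝ) ^ (2 * ℓ + 10) ≤ 2 ^ n := pow_le_pow_right₀ (by norm_num) hn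
    have h2 : (2 : ℝ) ^ (2 * ℓ + 10) = 1024 * (2 ^ ℓ * 2 ^ ℓ) := by
      rw [pow_add, two_mul, pow_add]; ring
    rw [le_div_iff₀ (by positivity)]
    have h3 : (2 : ℝ) ^ ℓ * (2 * (4 / 2 ^ n)) * (8 * 2 ^ ℓ) = 64 * (2 ^ ℓ * 2 ^ ℓ) / 2 ^ n := by
      field_simp
      ring
    rw [h3, div_le_one hn0]
    nlinarith [mul_pos hℓ0 hℓ0]
  have h1le : (1 : ℝ) ≤ 2 ^ ℓ := one_le_pow₀ (by norm_num)
  have hfac : (1 + 2 * (4 / 2 ^ n) : ℝ) ^ 2 ^ ℓ ≤ 1 + 1 / (4 * 2 ^ ℓ) := by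
    have h1 : (1 + 2 * (4 / 2 ^ n) : ℝ) ^ 2 ^ ℓ ≤ Real.exp (2 ^ ℓ * (2 * (4 / 2 ^ n))) := by
      have h2 : (1 + 2 * (4 / 2 ^ n) : ℝ) ≤ Real.exp (2 * (4 / 2 ^ n)) := by
        have := Real.add_one_le_exp (2 * (4 / 2 ^ n) : ℝ)
        linarith
      calc (1 + 2 * (4 / 2 ^ n) : ℝ) ^ 2 ^ ℓ ≤ (Real.exp (2 * (4 / 2 ^ n))) ^ 2 ^ ℓ :=
            pow_le_pow_left₀ (by positivity) h2 _
        _ = Real.exp (2 ^ ℓ * (2 * (4 / 2 ^ n))) := by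
            rw [← Real.exp_nat_mul]
            push_cast
            rfl
    have h2 : (2 : ℝ) ^ ℓ * (2 * (4 / 2 ^ n)) ≤ 1 := by
      refine hx.trans ?_
      rw [div_le_one (by positivity)]
      linarith
    have h3 := exp_bound (x := 2 ^ ℓ * (2 * (4 / 2 ^ n))) (by positivity) h2
    have h4 : 1 / (4 * (2 : ℝ) ^ ℓ) = 2 * (1 / (8 * 2 ^ ℓ)) := by field_simp; norm_num
    rw [h4]
    linarith
  -- small numbers
  have hRt : (R : ℝ) * (1 / 2 ^ (4 * n)) ≤ 1 / 2 ^ (2 * ℓ + 10) := by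
    have h1 : (R : ℝ) ≤ 2 ^ (4 * u) := by exact_mod_cast hR
    rw [mul_one_div, div_le_div_iff₀ (by positivity) (by positivity), one_mul]
    calc (R : ℝ) * 2 ^ (2 * ℓ + 10) ≤ 2 ^ (4 * u) * 2 ^ (2 * ℓ + 10) :=
          mul_le_mul_of_nonneg_right h1 (by positivity)
      _ = 2 ^ (4 * u + (2 * ℓ + 10)) := (pow_add _ _ _).symm
      _ ≤ 2 ^ (4 * n) := pow_le_pow_right₀ (by norm_num) (by omega)
  have hsm : (1 : ℝ) / 2 ^ (2 * ℓ + 10) ≤ 1 / 1024 * (1 / 2 ^ ℓ) := by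
    rw [one_div_mul_one_div, one_div_le_one_div (by positivity) (by positivity)]
    rw [pow_add, two_mul, pow_add]
    nlinarith
  have herr : err κ T (2 ^ (2 * u)) ≤ 1 / 16 * (1 / 2 ^ ℓ) := by
    unfold err
    have h1 : (κ : ℝ) ≤ 2 ^ κ := by exact_mod_cast (Nat.lt_two_pow_self (n := κ)).le
    have h2 : κ + T + 2 + (ℓ + 4) ≤ 2 ^ (2 * u) :=
      hT.trans (Nat.pow_le_pow_right (by norm_num) (by omega))
    calc (κ : ℝ) * (2 * (2 ^ (T + 2) * (1 / 2) ^ (2 ^ (2 * u) + 1)))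
        ≤ 2 ^ κ * (2 * (2 ^ (T + 2) * (1 / 2) ^ (2 ^ (2 * u) + 1))) :=
          mul_le_mul_of_nonneg_right h1 (by positivity)
      _ = 2 ^ (κ + (T + 2) + 1) * (1 / 2) ^ (2 ^ (2 * u) + 1) := by
          rw [pow_succ, pow_add]; ring
      _ ≤ 2 ^ (κ + (T + 2) + 1) * (1 / 2) ^ ((κ + (T + 2) + 1) + (ℓ + 4)) := by
          apply mul_le_mul_of_nonneg_left _ (by positivity)
          exact pow_le_pow_of_le_one (by norm_num) (by norm_num) (by omega)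
      _ = 1 / 16 * (1 / 2 ^ ℓ) := by
          generalize κ + (T + 2) + 1 = a
          have hx1 : (2 : ℝ) ^ a * (1 / 2) ^ a = 1 := by
            rw [← mul_pow]; norm_num
          have hx2 : (1 / 2 : ℝ) ^ ℓ = 1 / 2 ^ ℓ := by
            rw [div_pow, one_pow]
          rw [pow_add (1 / 2 : ℝ) a (ℓ + 4), ← mul_assoc, hx1, one_mul, pow_add, hx2]
          norm_num
          ring
  have hlast : (2 : ℝ) * (2 ^ ℓ * (4 / 2 ^ (2 * n))) ≤ 1 / 16 * (1 / 2 ^ ℓ) := by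
    have h1 : (2 : ℝ) ^ (2 * ℓ + 10) ≤ 2 ^ n := pow_le_pow_right₀ (by norm_num) hn
    have h2 : (2 : ℝ) ^ (2 * ℓ + 10) = 1024 * (2 ^ ℓ * 2 ^ ℓ) := by
      rw [pow_add, two_mul, pow_add]; ring
    have h3 : (2 : ℝ) ^ (2 * n) = 2 ^ n * 2 ^ n := by rw [two_mul, pow_add]
    have h4 : (1 : ℝ) ≤ 2 ^ n := one_le_pow₀ (by norm_num)
    rw [h3]
    have h5 : (2 : ℝ) * (2 ^ ℓ * (4 / (2 ^ n * 2 ^ n))) ≤ 2 * (2 ^ ℓ * (4 / 2 ^ n)) := by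
      apply mul_le_mul_of_nonneg_left _ (by norm_num)
      apply mul_le_mul_of_nonneg_left _ hℓ0.le
      apply div_le_div_of_nonneg_left (by norm_num) hn0
      nlinarith
    refine h5.trans ?_
    have h6 : (2 : ℝ) * (2 ^ ℓ * (4 / 2 ^ n)) = 8 * 2 ^ ℓ / 2 ^ n := by ring
    rw [h6, one_div_mul_one_div, div_le_div_iff₀ hn0 (by positivity)]
    nlinarith [mul_pos hℓ0 hℓ0]
  set X : ℝ := R * (1 / 2 ^ (4 * n)) with hX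
  have hX0 : 0 ≤ X := by positivity
  set f : ℝ := (1 + 2 * (4 / 2 ^ n)) ^ 2 ^ ℓ with hf
  have hf0 : 0 ≤ f := by positivity
  set y : ℝ := 1 / 2 ^ ℓ with hy
  have hy0 : 0 < y := by positivity
  have hy1 : y ≤ 1 := by rw [hy, div_le_one hℓ0]; exact h1le
  have e1 : 1 / (4 * (2 : ℝ) ^ ℓ) = y / 4 := by rw [hy]; field_simp
  rw [e1] at hfac
  have e2 : f * (S + 2 * R * (1 / 2 ^ (4 * n))) = f * S + 2 * (f * X) := by rw [hX]; ring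
  have e3 : 8 * (R : ℝ) * (1 / 2 ^ (4 * n)) = 8 * X := by rw [hX]; ring
  rw [e2, e3]
  have h1 : f * S ≤ (1 + y / 4) * S := mul_le_mul_of_nonneg_right hfac hS
  have h2 : f * X ≤ 2 * X := mul_le_mul_of_nonneg_right (by linarith) hX0
  have h3 : X ≤ y / 1024 := by
    have := hRt.trans hsm
    rw [hX]
    linarith
  nlinarith [mul_nonneg hy0.le hS]

end Pool.Agent.W911.KM
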