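import Pool.Agent.W911.AL.Main

/-!
# Resource-bounded measure of the levels of the polynomial hierarchy relative to a random oracle:
the objects of the proof and the statements of the parts
-/

set_option autoImplicit false

namespace Pool.Agent.W911.KM

open Finset Pool.Agent.NPC H568R2 Pool.Agent.H676
open Pool.Agent.H620R2.Gauge Pool.Agent.H591R3.PHG Pool.Agent.H591R3.PHG.FinalAux
open Pool.Agent.W911.AL

/-! ## Statuses -/

/-- No child is determined to be true, and the probability that all the undetermined children are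
false is close to `1 / 2`. -/
def Bal {c : ℕ} (t η : ℝ) (σ : Fin c → Option Bool) : Prop :=
  Unkilled σ ∧ |(1 - t) ^ (live σ).card - 1 / 2| ≤ η

/-- The expectation of `Φ` of the statuses of the roots, from the statuses at the last level. -/
noncomputable def WB {Y : Type} [Fintype Y] [DecidableEq Y] (t ξ : ℝ) (smin : ℕ)
    (Φ : (Y → Option Bool) → ℝ) : (cs : List ℕ) → (Idx Y cs → Option Bool) → ℝ
  | [], s => Φ s
  | c :: cs, s => ∑ ρ : Idx Y cs → St c, wt (G := Idx Y cs) t t ξ smin s ρ *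
      WB t ξ smin Φ cs (fun h => (ρ h).1)

/-! ## Numbers of children -/

/-- an approximation of `2 ^ B * log 2` -/
def lnB (B : ℕ) : ℕ := ∑ i ∈ Finset.range B, 2 ^ (B - (i + 1)) / (i + 1)

/-- the exponents of the numbers of children of `k` levels, the last level first; `P / 2 ^ B` is
an approximation of the probability that a node is true -/
def exps (n B : ℕ) : ℕ → ℕ → List ℕ
  | 0, _ => []
  | k + 1, P => ex n (31 * n * 2 ^ (B - 1)) P ::
      exps n B k ((sqd B)^[ex n (31 * n * 2 ^ (B - 1)) P] (2 ^ B - P))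

/-- the approximation of the probability after `k` levels -/
def pk (n B : ℕ) : ℕ → ℕ → ℕ
  | 0, P => P
  | k + 1, P => pk n B k ((sqd B)^[ex n (31 * n * 2 ^ (B - 1)) P] (2 ^ B - P))

/-- the number of binary digits -/
def BN (n κ : ℕ) : ℕ := 116 * n + 7 + (κ + 1) * (n + 8)

/-- the exponents of the numbers of children of the levels between the random bits and the
children of the roots -/
def exl (n κ : ℕ) : List ℕ := exps n (BN n κ) κ (2 ^ (BN n κ - 8 * n))

/-- the number of children of the roots -/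
def topM (n κ : ℕ) : ℕ := lnB (BN n κ) / pk n (BN n κ) κ (2 ^ (BN n κ - 8 * n))

/-! ## The hard language -/

/-- the parameter of the trees for the inputs of length `ℓ` -/
def nn (c : ℕ × ℕ) (ℓ : ℕ) : ℕ := c.1 * (ℓ + 5) ^ (c.2 + 1)

/-- the string for a root -/
def root (x : List Bool) : List Bool := pairBits x []

/-- the value of a node below the root number `j` of the tree for `x` -/
def HC (κ n : ℕ) (A : Oracle) (q : List Bool) : Bool :=
  ((exl n κ).foldl (fun v a => up a v) (bitv A (8 * n))) q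

/-- The value of the tree of NOR gates for the string `x`. -/
def HT (κ : ℕ) (c : ℕ × ℕ) (A : Oracle) (x : List Bool) : Bool :=
  decide (∀ i < topM (nn c x.length) κ,
    HC κ (nn c x.length) A (root x ++ bitsOf (64 * nn c x.length) i) = false)

/-- The hard language for `κ + 1` alternations. -/
def HLC (κ : ℕ) (c : ℕ × ℕ) (A : Oracle) : Set (List Bool) := {x | HT κ c A x = false}

/-! ## The statements of the parts -/

/-- Part FIN -/
def FinStm : Prop := ∀ (X : Type) [Fintype X] [DecidableEq X] (c R : ℕ) (t η : ℝ), 0 ≤ t → t ≤ 1 →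
  0 ≤ η → η ≤ 1 / 4 → ∀ s : X × Fin c → Option Bool, (∀ j, Bal t η (fun i => s (j, i))) →
  ∀ (D : (X → Bool) → (X × Fin c → Bool) → ℝ) (D0 : (X × Fin c → Bool) → ℝ),
  (∀ v z, 0 ≤ D v z) → (∀ v z, D v z ≤ 2) → (∀ z, 0 ≤ D0 z) → (∀ z, D0 z ≤ 2) →
  (∀ v, DTv R (D v)) → DTv R D0 → (∀ z, ∑ v, D v z ≤ 2 ^ Fintype.card X * D0 z) →
  Ex (ber t) (fun z => D (fun j => decide (∀ i : Fin c, val s z (j, i) = false)) z) ≤
    (1 + 2 * η) ^ Fintype.card X * (Ex (ber t) D0 + 2 * R * t) + 8 * R * t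

open Classical in
/-- Part GD -/
def GdStm : Prop := ∀ (X : Type) [Fintype X] [DecidableEq X] (n M : ℕ), 5 ≤ n →
  ∀ law : Option Bool → ℝ, Inv n law →
  |(M : ℝ) * (law none / 2 ^ (4 * n) + law (some true)) - Real.log 2| ≤ 1 / 2 ^ n →
  Ex law (fun s : X × Fin M → Option Bool =>
    if ∀ j, Bal (1 / 2 ^ (4 * n)) (4 / 2 ^ n) (fun i => s (j, i)) then (0 : ℝ) else 1) ≤
    Fintype.card X * (4 / 2 ^ (2 * n))

/-- Part SIZ -/
def SizStm : Prop := ∀ n κ : ℕ, 5 ≤ n → topM n κ ≤ 2 ^ (64 * n) ∧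
  ∃ law' : Option Bool → ℝ, Inv n law' ∧
    |(topM n κ : ℝ) * (law' none / 2 ^ (4 * n) + law' (some true)) - Real.log 2| ≤ 1 / 2 ^ n ∧
    ∀ (Y : Type) [Fintype Y] [DecidableEq Y] (Φ : (Y → Option Bool) → ℝ),
      Ex (nxt (1 / 2) (1 / 2 ^ (4 * n)) 0 (8 * n) (8 * n) law0)
        (WB (Y := Y) (1 / 2 ^ (4 * n)) (1 / 2 ^ (2 * n)) (8 * n * 2 ^ (4 * n)) Φ
          (pw (exl n κ))) = Ex law' Φ

/-- Part SIG -/
def SigStm : Prop := ∀ (κ : ℕ) (c : ℕ × ℕ) (A : Oracle), IsSigma A (fun _ => κ + 1) (HLC κ c A)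

end Pool.Agent.W911.KM
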