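import Pool.Agent.W911.KM.Mart

/-!
# The oracle together with a set in a level of the hierarchy
-/

set_option autoImplicit false

namespace Pool.Agent.W911.KM

open Finset Pool.Agent.NPC H568R2 Pool.Agent.H676
open Pool.Agent.H620R2.Gauge Pool.Agent.H591R3.PHG Pool.Agent.H591R3.PHG.FinalAux
open Pool.Agent.W911.AL

/-- the string at the start and the concatenation of `j` strings, from the nested pairs -/
def ndp (P : List Bool → ℕ) : ℕ → List Bool → List Bool × List Bool
  | 0, y => (y, [])
  | j + 1, y => ((ndp P j (unpair y).2).1,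
      (ndp P j (unpair y).2).2 ++ fm (P (ndp P j (unpair y).2).1) (unpair y).1)

theorem ndp_pair (P : List Bool → ℕ) (j : ℕ) (w y : List Bool) :
    ndp P (j + 1) (pairBits w y) = ((ndp P j y).1, (ndp P j y).2 ++ fm (P (ndp P j y).1) w) := by
  simp only [ndp, unpair_pairBits]

theorem ndp_len (P : List Bool → ℕ) : ∀ (j : ℕ) (y : List Bool),
    (ndp P j y).1.length ≤ y.length ∧ (ndp P j y).2.length = j * P (ndp P j y).1 := by
  intro j
  induction j with
  | zero => intro y; simp [ndp]
  | succ j ih =>
    intro y
    have h1 := ih (unpair y).2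
    have h2 := Pool.Agent.H591R3.PHG.LangSig.length_unpair y
    refine ⟨by simp only [ndp]; omega, ?_⟩
    simp only [ndp, List.length_append, length_fm, h1.2]
    ring

theorem qf_altp {I : Type*} (P : List Bool → ℕ) (m κ : ℕ)
    (F : List Bool → List Bool → (I → Bool) → Bool) (a : I → Bool)
    (y0 : List Bool) (hP : P y0 ≤ m) : ∀ (j i : ℕ) (b : Bool) (y u : List Bool), i + j = κ →
      ndp P i y = (y0, u) →
      (QF m (fun y a => F (ndp P κ y).1 (ndp P κ y).2 a) j b y a = true ↔
        Alt (P y0) (fun v => F y0 v a = true) j b u) := by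
  intro j
  induction j with
  | zero =>
    intro i b y u hi hy
    have : i = κ := by omega
    subst this
    cases b <;> simp only [QF, Alt, hy]
  | succ j ih =>
    intro i b y u hi hy
    have h1 : ∀ (b : Bool) (w : List Bool),
        (QF m (fun y a => F (ndp P κ y).1 (ndp P κ y).2 a) j b (pairBits w y) a = true ↔
        Alt (P y0) (fun v => F y0 v a = true) j b (u ++ fm (P y0) w)) := by
      intro b w
      refine ih (i + 1) b (pairBits w y) (u ++ fm (P y0) w) (by omega) ?_
      rw [ndp_pair, hy]
    cases b with
    | true =>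
      simp only [QF, Alt, decide_eq_true_eq, h1]
      constructor
      · rintro ⟨w, _, h⟩
        exact ⟨fm (P y0) w, length_fm _ w, h⟩
      · rintro ⟨w, hw, h⟩
        exact ⟨w, hw.le.trans hP, by rw [fm_eq hw]; exact h⟩
    | false =>
      simp only [QF, Alt, decide_eq_true_eq, h1]
      constructor
      · intro h w hw
        have := h w (hw.le.trans hP)
        rwa [fm_eq hw] at this
      · intro h w _
        exact h (fm (P y0) w) (length_fm _ w)

theorem alt_const (m : ℕ) (R : Prop) : ∀ (j : ℕ) (b : Bool) (u : List Bool),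
    Alt m (fun _ => R) j b u ↔ R := by
  intro j
  induction j with
  | zero => intro b u; cases b <;> exact Iff.rfl
  | succ j ih =>
    intro b u
    cases b with
    | true =>
      simp only [Alt, ih]
      constructor
      · rintro ⟨_, _, h⟩; exact h
      · intro h; exact ⟨List.replicate m true, by simp, h⟩
    | false =>
      simp only [Alt, ih]
      constructor
      · intro h; exact h (List.replicate m true) (by simp)
      · intro h _ _; exact h

open Classical in
/-- The oracle `A` (on the strings `0q`) and the set in the level `Σ_κ` given by the algorithm `V`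
and the polynomial `p` (on the strings `1q`). -/
noncomputable def OB (V : Alg) (p : Polynomial ℕ) (κ : ℕ) (A : Oracle) : Oracle
  | [] => false
  | false :: q => A q
  | true :: q => decide (Alt (p.eval q.length)
      (fun u => V.out A (pairBits q u) = some [true]) κ true [])

/-- the end of the computation -/
def leafO (V : Alg) (A : Oracle) (y0 u : List Bool) : Bool :=
  match y0 with
  | [] => false
  | false :: q => A q
  | true :: q => decide (V.out A (pairBits q u) = some [true])

theorem ob_qf {I : Type} (V : Alg) (p : Polynomial ℕ) (κ m : ℕ) (A : (I → Bool) → Oracle)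
    (q : List Bool) (hq : p.eval q.tail.length ≤ m) (a : I → Bool) :
    QF m (fun y a => leafO V (A a) (ndp (fun y => p.eval y.tail.length) κ y).1
      (ndp (fun y => p.eval y.tail.length) κ y).2) κ true q a = OB V p κ (A a) q := by
  have h1 := qf_altp (fun y => p.eval y.tail.length) m κ (fun y0 u a => leafO V (A a) y0 u) a q hq
    κ 0 true q [] (by omega) rfl
  rw [Bool.eq_iff_iff, h1]
  cases q with
  | nil =>
    simp only [leafO, OB]
    exact alt_const _ _ _ _ _
  | cons b q =>
    cases b with
    | false =>
      simp only [leafO, OB]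
      exact alt_const _ _ _ _ _
    | true =>
      simp only [leafO, OB, List.tail_cons, decide_eq_true_eq]

theorem dtr_orc {N : ℕ} (q : List Bool) : DTr 1 (fun a : Fin N → Bool => orc N a q) := by
  by_cases h : idx q < N
  · refine Or.inr ⟨⟨idx q, h⟩, fun b => ?_⟩
    refine ⟨b, fun a => ?_⟩
    exact orc_update a q h b
  · exact DTr.const ⟨false, fun a => by simp [orc, h]⟩

theorem dtr_leafO (V : Alg) (N : ℕ) (y0 u : List Bool) {r : ℕ}
    (h : V.p.eval (2 * y0.length + 1 + u.length) ≤ r) (hr : 1 ≤ r) :
    DTr r (fun a : Fin N → Bool => leafO V (orc N a) y0 u) := by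
  cases y0 with
  | nil => exact DTr.const ⟨false, fun a => rfl⟩
  | cons b q =>
    cases b with
    | false => exact (dtr_orc q).mono hr
    | true =>
      refine (dtr_out V N (pairBits q u)).mono (le_trans (eval_mono _ ?_) h)
      rw [length_pairBits, List.length_cons]
      omega

theorem ob_congr (V : Alg) (p : Polynomial ℕ) (κ : ℕ) : ∃ qb : Polynomial ℕ, ∀ (A A' : Oracle)
    (q : List Bool), (∀ y : List Bool, y.length ≤ qb.eval q.length → A y = A' y) →
      OB V p κ A q = OB V p κ A' q := by
  obtain ⟨b, hb⟩ := Alg.out_local V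
  refine ⟨Polynomial.X + b.comp (2 * Polynomial.X + 1 + Polynomial.C κ * p), fun A A' q h => ?_⟩
  simp only [Polynomial.eval_add, Polynomial.eval_X, Polynomial.eval_comp,
    Polynomial.eval_mul, Polynomial.eval_C, Polynomial.eval_one, Polynomial.eval_ofNat] at h
  cases q with
  | nil => rfl
  | cons c q =>
    cases c with
    | false =>
      exact h q (by rw [List.length_cons]; omega)
    | true =>
      simp only [OB]
      rw [decide_eq_decide]
      apply Alt_congr
      intro v hv
      obtain ⟨Q, _, hQl, hQA⟩ := hb A' (pairBits q v)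
      have h1 : V.out A (pairBits q v) = V.out A' (pairBits q v) := by
        apply hQA
        intro y hy
        apply h
        have h2 := hQl y hy
        have h3 : (pairBits q v).length ≤
            2 * (true :: q).length + 1 + κ * p.eval (true :: q).length := by
          rw [length_pairBits, hv, List.length_cons, List.length_nil, zero_add]
          have : κ * p.eval q.length ≤ κ * p.eval (q.length + 1) :=
            Nat.mul_le_mul_left _ (eval_mono _ (by omega))
          omega
        have h4 := eval_mono b h3
        omega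
      rw [h1]

theorem st_congr {e e' : List Bool → ℝ} {B : ℝ} {n : ℕ}
    (h : ∀ u : List Bool, u.length ≤ n → e u = e' u) : ∀ rw : List Bool, rw.length ≤ n →
      st e B rw = st e' B rw := by
  intro rw
  induction rw with
  | nil => intro _; simp only [st, h [] (Nat.zero_le _)]
  | cons b rw ih =>
    intro hn
    rw [List.length_cons] at hn
    have h1 : ∀ b, e (rw.reverse ++ [b]) = e' (rw.reverse ++ [b]) := fun b => h _ (by
      rw [List.length_append, List.length_reverse, List.length_singleton]; omega)
    simp only [st, sstep, ih (by omega), h1, h rw.reverse (by rw [List.length_reverse]; omega)]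

theorem ss_congr {e e' : List Bool → ℝ} {B : ℝ} (w : List Bool)
    (h : ∀ u : List Bool, u.length ≤ w.length → e u = e' u) : ss e B w = ss e' B w := by
  unfold ss
  rw [st_congr h w.reverse (by rw [List.length_reverse])]

/-- the length of the input of the algorithm -/
theorem length_qpad_le {c k n Λ : ℕ} (u : List Bool) (hu : u.length ≤ n)
    (hΛ : 2 ^ (Nat.size (4 * k + 3 * n + 8)) ^ c * 2 + 4 * k + 3 * n + 9 ≤ Λ) :
    (qpad c (inp k (k + u.length + 3) u)).length ≤ Λ := by
  have h1 : (inp k (k + u.length + 3) u).length = 4 * k + 3 * u.length + 8 := by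
    unfold inp
    rw [length_pairBits, length_pairBits, List.length_replicate, List.length_replicate]
    ring
  unfold qpad
  rw [length_pairBits, List.length_replicate, h1]
  have h2 : Nat.size (4 * k + 3 * u.length + 8) ≤ Nat.size (4 * k + 3 * n + 8) :=
    Nat.size_le_size (by omega)
  have h3 : 2 ^ (Nat.size (4 * k + 3 * u.length + 8)) ^ c ≤
      2 ^ (Nat.size (4 * k + 3 * n + 8)) ^ c :=
    Nat.pow_le_pow_right (by norm_num) (Nat.pow_le_pow_left h2 c)
  omega

theorem ee_congr (M : Alg) {qb : Polynomial ℕ}
    (hqb : ∀ (A : Oracle) (x : List Bool), ∃ Q : Finset (List Bool),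
      Q.card ≤ M.p.eval x.length ∧ (∀ q ∈ Q, q.length ≤ qb.eval x.length) ∧
      ∀ A' : Oracle, (∀ q ∈ Q, A' q = A q) → M.out A' x = M.out A x)
    {c k n Λ L : ℕ} (hΛ : 2 ^ (Nat.size (4 * k + 3 * n + 8)) ^ c * 2 + 4 * k + 3 * n + 9 ≤ Λ)
    (hL : qb.eval Λ ≤ L) {O O' : Oracle} (h : ∀ q : List Bool, q.length ≤ L → O q = O' q)
    (u : List Bool) (hu : u.length ≤ n) : ee M c O k u = ee M c O' k u := by
  unfold ee
  obtain ⟨Q, _, hQl, hQA⟩ := hqb O' (qpad c (inp k (k + u.length + 3) u))
  rw [hQA O fun q hq => h q ((hQl q hq).trans ((eval_mono _ (length_qpad_le u hu hΛ)).trans hL))]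

end Pool.Agent.W911.KM
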