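import Pool.Agent.W911.KM.Join

/-!
# The parts of the oracle on which the hard language depends
-/

set_option autoImplicit false

namespace Pool.Agent.W911.KM

open Finset Pool.Agent.NPC H568R2 Pool.Agent.H676
open Pool.Agent.H620R2.Gauge Pool.Agent.H591R3.PHG Pool.Agent.H591R3.PHG.FinalAux
open Pool.Agent.W911.AL

theorem root_append (x s : List Bool) : root x ++ s = pairBits x s := by
  simp [root, pairBits]

theorem unpair_root (x s : List Bool) : (unpair (root x ++ s)).1 = x := by
  rw [root_append, unpair_pairBits]

theorem length_root (x : List Bool) : (root x).length = 2 * x.length + 1 := by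
  unfold root
  rw [length_pairBits]
  simp

theorem up_congr {v v' : List Bool → Bool} {q : List Bool} (h : ∀ s, v (q ++ s) = v' (q ++ s))
    (a : ℕ) (s : List Bool) : up a v (q ++ s) = up a v' (q ++ s) := by
  unfold up
  rw [decide_eq_decide]
  refine forall_congr' fun i => forall_congr' fun _ => ?_
  rw [List.append_assoc, h]

theorem fold_congr : ∀ (as : List ℕ) {v v' : List Bool → Bool} {q : List Bool},
    (∀ s, v (q ++ s) = v' (q ++ s)) → ∀ s,
    (as.foldl (fun v a => up a v) v) (q ++ s) = (as.foldl (fun v a => up a v) v') (q ++ s) := by
  intro as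
  induction as with
  | nil => intro v v' q h s; exact h s
  | cons a as ih =>
    intro v v' q h s
    exact ih (v := up a v) (v' := up a v') (fun s => up_congr h a s) s

theorem bitv_congr {A A' : Oracle} {q : List Bool} (h : ∀ s, A (q ++ s) = A' (q ++ s)) (w : ℕ)
    (s : List Bool) : bitv A w (q ++ s) = bitv A' w (q ++ s) := by
  unfold bitv
  rw [decide_eq_decide]
  refine forall_congr' fun i => forall_congr' fun _ => ?_
  rw [List.append_assoc, h]

theorem ht_congr {κ : ℕ} {c : ℕ × ℕ} {A A' : Oracle} {x : List Bool}
    (h : ∀ s, A (root x ++ s) = A' (root x ++ s)) : HT κ c A x = HT κ c A' x := by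
  unfold HT HC
  rw [decide_eq_decide]
  refine forall_congr' fun i => forall_congr' fun _ => ?_
  rw [fold_congr _ (fun s => bitv_congr h _ s)]

/-- the bound for the length of the strings on which the values of the tree depend -/
theorem fold_local : ∀ (as : List ℕ) {v v' : List Bool → Bool} {L : ℕ},
    (∀ q : List Bool, q.length ≤ L + as.sum → v q = v' q) → ∀ q : List Bool, q.length ≤ L →
    (as.foldl (fun v a => up a v) v) q = (as.foldl (fun v a => up a v) v') q := by
  intro as
  induction as with
  | nil => intro v v' L h q hq; exact h q (by simpa using hq)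
  | cons a as ih =>
    intro v v' L h q hq
    refine ih (v := up a v) (v' := up a v') (L := L) (fun q hq => ?_) q hq
    unfold up
    rw [decide_eq_decide]
    refine forall_congr' fun i => forall_congr' fun _ => ?_
    rw [h]
    rw [List.length_append, length_bitsOf, List.sum_cons]
    omega

theorem ht_local {κ : ℕ} {c : ℕ × ℕ} {A A' : Oracle} {x : List Bool}
    (h : ∀ q : List Bool, q.length ≤ 2 * x.length + 1 + 64 * nn c x.length +
      (exl (nn c x.length) κ).sum + 8 * nn c x.length → A q = A' q) :
    HT κ c A x = HT κ c A' x := by
  unfold HT HC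
  rw [decide_eq_decide]
  refine forall_congr' fun i => forall_congr' fun _ => ?_
  rw [fold_local _ (L := 2 * x.length + 1 + 64 * nn c x.length) (fun q hq => ?_)]
  · rw [List.length_append, length_root, length_bitsOf]
  · unfold bitv
    rw [decide_eq_decide]
    refine forall_congr' fun i => forall_congr' fun hi => ?_
    rw [h]
    rw [List.length_append, List.length_replicate]
    omega

open Classical in
/-- The characteristic sequence of the first `n` strings of the language `L`. -/
noncomputable def prefL (L : Set (List Bool)) (n : ℕ) : List Bool :=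
  (List.range n).map (fun i => decide (str i ∈ L))

theorem length_prefL (L : Set (List Bool)) (n : ℕ) : (prefL L n).length = n := by
  simp [prefL]

theorem prefL_add (L : Set (List Bool)) (n K : ℕ) :
    prefL L (n + K) = prefL L n ++ List.ofFn (fun j : Fin K => @decide (str (n + j) ∈ L)
      (Classical.propDecidable _)) := by
  unfold prefL
  rw [List.range_add, List.map_append, List.map_map]
  congr 1
  apply List.ext_getElem
  · simp
  · intro i h1 h2
    simp

theorem length_str_block {ℓ j : ℕ} (hj : j < 2 ^ ℓ) : (str (2 ^ ℓ - 1 + j)).length = ℓ := by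
  rw [length_str]
  have h0 : 0 < 2 ^ ℓ := by positivity
  apply Nat.log_eq_of_pow_le_of_lt_pow
  · omega
  · rw [pow_succ]; omega

theorem length_str_lt {ℓ i : ℕ} (hi : i < 2 ^ ℓ - 1) : (str i).length < ℓ := by
  rw [length_str]
  exact Nat.log_lt_of_lt_pow (by omega) (by omega)

end Pool.Agent.W911.KM
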