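import Pool.Agent.W911.KM.Core

/-!
# Null covers computed relative to an oracle, and martingales defined for every oracle
-/

set_option autoImplicit false

namespace Pool.Agent.W911.KM

open Finset Pool.Agent.NPC H568R2 Pool.Agent.H676
open Pool.Agent.H620R2.Gauge Pool.Agent.H591R3.PHG Pool.Agent.H591R3.PHG.FinalAux
open Pool.Agent.W911.AL

section DT

variable {I : Type} [DecidableEq I] {β γ : Type}

theorem DTv.bind {k l : ℕ} : ∀ {f : (I → Bool) → β} {g : β → (I → Bool) → γ}, DTv k f →
    (∀ c, DTv l (g c)) → DTv (k + l) (fun x => g (f x) x) := by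
  induction k with
  | zero =>
    rintro f g ⟨c, hc⟩ hg
    have h : (fun x => g (f x) x) = g c := by
      funext x
      rw [hc]
    rw [h, Nat.zero_add]
    exact hg c
  | succ k ih =>
    rintro f g (⟨c, hc⟩ | ⟨i, h⟩) hg
    · have h : (fun x => g (f x) x) = g c := by
        funext x
        rw [hc]
      rw [h]
      exact (hg c).mono (by omega)
    · rw [Nat.add_right_comm]
      exact Or.inr ⟨i, fun b => ih (g := fun c x => g c (Function.update x i b)) (h b)
        fun c => (hg c).update i b⟩

/-- the run of an oracle algorithm, if the values of the oracle are decision trees -/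
theorem dtv_run (M : Alg) (x : List Bool) {L r : ℕ} (O : (I → Bool) → Oracle)
    (hO : ∀ q : List Bool, q.length ≤ L → DTv r (fun z => O z q)) :
    ∀ (n : ℕ) (a : List Bool), (∀ a' : List Bool, a'.length ≤ a.length + n →
      (M.D (pairBits x a')).length ≤ L) →
      DTv (n * r) (fun z => M.run (O z) x n a) := by
  intro n
  induction n with
  | zero => intro a _; exact DTv.const ⟨none, fun z => rfl⟩
  | succ n ih =>
    intro a ha
    rcases hq : M.D (pairBits x a) with _ | ⟨c, q⟩
    · exact DTv.const ⟨some [], fun z => by simp only [Alg.run, hq]⟩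
    · cases c with
      | true => exact DTv.const ⟨some q, fun z => by simp only [Alg.run, hq]⟩
      | false =>
        have h1 : (fun z => M.run (O z) x (n + 1) a) =
            fun z => (fun (b : Bool) z => M.run (O z) x n (a ++ [b])) (O z q) z := by
          funext z
          simp only [Alg.run, hq]
        have hql : q.length ≤ L := by
          have := ha a (by omega)
          rw [hq, List.length_cons] at this
          omega
        rw [h1, Nat.succ_mul, Nat.add_comm]
        refine DTv.bind (g := fun (b : Bool) z => M.run (O z) x n (a ++ [b])) (hO q hql)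
          fun b => ih (a ++ [b]) fun a' ha' => ha a' ?_
        rw [List.length_append, List.length_singleton] at ha'
        omega

end DT

/-- the bound for the lengths of the questions -/
theorem exists_qb (M : Alg) : ∃ qb : Polynomial ℕ,
    (∀ x a : List Bool, a.length ≤ M.p.eval x.length →
      (M.D (pairBits x a)).length ≤ qb.eval x.length) := M.next_length

theorem dtv_out (M : Alg) {qb : Polynomial ℕ} (hqb : ∀ x a : List Bool,
    a.length ≤ M.p.eval x.length → (M.D (pairBits x a)).length ≤ qb.eval x.length)
    {I : Type} [DecidableEq I] (x : List Bool) {L r T : ℕ} (O : (I → Bool) → Oracle)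
    (hO : ∀ q : List Bool, q.length ≤ L → DTv r (fun z => O z q)) (hL : qb.eval x.length ≤ L)
    (hT : M.p.eval x.length ≤ T) :
    DTv (T * r) (fun z => M.out (O z) x) := by
  have h1 := dtv_run M x (L := qb.eval x.length) O (fun q hq => hO q (hq.trans hL))
    (M.p.eval x.length) [] (fun a' ha' => hqb x a' (by simpa using ha'))
  exact DTv.mono (Nat.mul_le_mul_right _ hT) h1

/-- The dyadic rational number given by a string: `(a - b) / 2 ^ c`, where `a` and `b` are given
in binary notation (least significant bit first) and `c` in unary notation. -/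
noncomputable def dy (z : List Bool) : ℝ :=
  ((valB (unpair z).1 : ℝ) - valB (unpair (unpair z).2).1) /
    2 ^ (unpair (unpair z).2).2.length

/-- the arguments: two numbers in unary notation, and a string -/
def inp (k r : ℕ) (w : List Bool) : List Bool :=
  pairBits (List.replicate k true) (pairBits (List.replicate r true) w)

/-- the string `z` with a padding of length `2 ^ (|z|₂ ^ c)`, where `|z|₂` is the length of the
binary representation of the length of `z` -/
def qpad (c : ℕ) (z : List Bool) : List Bool :=
  pairBits (List.replicate (2 ^ (Nat.size z.length) ^ c) true) z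

/-- the approximation of the martingale number `k`, at the string `u`, plus a small number -/
noncomputable def ee (M : Alg) (c : ℕ) (O : Oracle) (k : ℕ) (u : List Bool) : ℝ :=
  dy ((M.out O (qpad c (inp k (k + u.length + 3) u))).getD []) + 1 / 2 ^ (k + u.length)

open Classical in
/-- one bet, from the string `u`; the state tells whether the martingale is still running -/
noncomputable def sstep (e : List Bool → ℝ) (u : List Bool) (b : Bool) (s : Bool × ℝ) :
    Bool × ℝ :=
  if s.1 = true ∧ e u < 1 ∧ 0 ≤ e (u ++ [false]) ∧ 0 ≤ e (u ++ [true]) ∧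
      (e (u ++ [false]) + e (u ++ [true])) / 2 ≤ e u then
    (true, e (u ++ [b])) else (false, s.2)

open Classical in
/-- the state at a string, given in reverse -/
noncomputable def st (e : List Bool → ℝ) (B : ℝ) : List Bool → Bool × ℝ
  | [] => if 0 ≤ e [] ∧ e [] ≤ B then (true, e []) else (false, 0)
  | b :: rw => sstep e rw.reverse b (st e B rw)

/-- the martingale -/
noncomputable def ss (e : List Bool → ℝ) (B : ℝ) (w : List Bool) : ℝ := (st e B w.reverse).2

section Props

variable {e : List Bool → ℝ} {B : ℝ}

theorem st_run : ∀ rw : List Bool, (st e B rw).1 = true → (st e B rw).2 = e rw.reverse := by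
  intro rw
  cases rw with
  | nil =>
    intro h
    unfold st at h ⊢
    split_ifs at h ⊢ with h1
    · rfl
  | cons b rw =>
    intro h
    rw [st, sstep] at h ⊢
    split_ifs at h ⊢ with h1
    · simp

theorem st_nonneg : ∀ rw : List Bool, 0 ≤ (st e B rw).2 := by
  intro rw
  induction rw with
  | nil =>
    unfold st
    split_ifs with h1
    · exact h1.1
    · exact le_rfl
  | cons b rw ih =>
    rw [st, sstep]
    split_ifs with h1
    · cases b
      · exact h1.2.2.1
      · exact h1.2.2.2.1
    · exact ih

theorem st_le (hB : B ≤ 2) (hB0 : 0 ≤ B) : ∀ rw : List Bool, (st e B rw).2 ≤ 2 := by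
  intro rw
  induction rw with
  | nil =>
    unfold st
    split_ifs with h1
    · exact h1.2.trans hB
    · norm_num
  | cons b rw ih =>
    rw [st, sstep]
    split_ifs with h1
    · obtain ⟨_, h2, h3, h4, h5⟩ := h1
      cases b
      · show e (rw.reverse ++ [false]) ≤ 2
        linarith
      · show e (rw.reverse ++ [true]) ≤ 2
        linarith
    · exact ih

theorem ss_nonneg (w : List Bool) : 0 ≤ ss e B w := st_nonneg _

theorem ss_le (hB : B ≤ 2) (hB0 : 0 ≤ B) (w : List Bool) : ss e B w ≤ 2 := st_le hB hB0 _

theorem ss_snoc (w : List Bool) (b : Bool) :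
    ss e B (w ++ [b]) = (sstep e w b (st e B w.reverse)).2 := by
  unfold ss
  rw [List.reverse_append, List.reverse_singleton, List.singleton_append, st, List.reverse_reverse]

theorem ss_avg (w : List Bool) : ss e B (w ++ [false]) + ss e B (w ++ [true]) ≤ 2 * ss e B w := by
  rw [ss_snoc, ss_snoc, sstep, sstep]
  split_ifs with h1
  · have h2 := st_run (e := e) (B := B) w.reverse h1.1
    rw [List.reverse_reverse] at h2
    unfold ss
    rw [h2]
    have h3 := h1.2.2.2.2
    show e (w ++ [false]) + e (w ++ [true]) ≤ 2 * e w
    linarith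
  · unfold ss
    exact le_of_eq (by ring)

theorem ss_double (w : List Bool) (b : Bool) : ss e B (w ++ [b]) ≤ 2 * ss e B w := by
  have h1 := ss_avg (e := e) (B := B) w
  have h2 := ss_nonneg (e := e) (B := B) (w ++ [false])
  have h3 := ss_nonneg (e := e) (B := B) (w ++ [true])
  cases b
  · linarith
  · linarith

theorem ss_nil_le (hB0 : 0 ≤ B) : ss e B [] ≤ B := by
  unfold ss
  rw [List.reverse_nil, st]
  split_ifs with h
  · exact h.2
  · exact hB0

theorem ss_growth (hB0 : 0 ≤ B) (w : List Bool) : ss e B w ≤ 2 ^ w.length * B := by
  induction w using List.reverseRecOn with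
  | nil =>
    rw [List.length_nil, pow_zero, one_mul]
    exact ss_nil_le hB0
  | append_singleton w b ih =>
    rw [List.length_append, List.length_singleton, pow_succ]
    have := ss_double (e := e) (B := B) w b
    linarith

/-- the sum over all the outcomes of `K` bets -/
theorem ss_sum (w : List Bool) : ∀ K : ℕ,
    ∑ v : Fin K → Bool, ss e B (w ++ List.ofFn v) ≤ 2 ^ K * ss e B w := by
  intro K
  induction K with
  | zero =>
    simp
  | succ K ih =>
    have h1 : ∑ v : Fin (K + 1) → Bool, ss e B (w ++ List.ofFn v) =
        ∑ v : Fin K → Bool, (ss e B ((w ++ List.ofFn v) ++ [false]) +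
          ss e B ((w ++ List.ofFn v) ++ [true])) := by
      rw [← (Fin.snocEquiv (fun _ : Fin (K + 1) => Bool)).sum_comp, Fintype.sum_prod_type_right]
      refine Finset.sum_congr rfl fun v _ => ?_
      rw [Fintype.sum_bool, add_comm]
      have h2 : ∀ b : Bool, w ++ List.ofFn ((Fin.snocEquiv fun _ : Fin (K + 1) => Bool) (b, v)) =
          (w ++ List.ofFn v) ++ [b] := by
        intro b
        rw [List.append_assoc]
        congr 1
        rw [List.ofFn_succ_last]
        simp [Fin.snocEquiv]
      rw [h2, h2]
    rw [h1]
    calc ∑ v : Fin K → Bool, (ss e B ((w ++ List.ofFn v) ++ [false]) +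
          ss e B ((w ++ List.ofFn v) ++ [true]))
        ≤ ∑ v : Fin K → Bool, 2 * ss e B (w ++ List.ofFn v) :=
          Finset.sum_le_sum fun v _ => ss_avg _
      _ = 2 * ∑ v : Fin K → Bool, ss e B (w ++ List.ofFn v) := by rw [Finset.mul_sum]
      _ ≤ 2 * (2 ^ K * ss e B w) := by linarith
      _ = 2 ^ (K + 1) * ss e B w := by rw [pow_succ]; ring

/-- the martingale stays above `1` -/
theorem st_stop (w : List Bool) (b : Bool) (h : 1 ≤ ss e B w) : 1 ≤ ss e B (w ++ [b]) := by
  rw [ss_snoc, sstep]
  split_ifs with h1
  · exfalso
    have h2 := st_run (e := e) (B := B) w.reverse h1.1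
    rw [List.reverse_reverse] at h2
    unfold ss at h
    rw [h2] at h
    linarith [h1.2.1]
  · exact h

theorem st_stop' (w v : List Bool) (h : 1 ≤ ss e B w) : 1 ≤ ss e B (w ++ v) := by
  induction v using List.reverseRecOn with
  | nil => rwa [List.append_nil]
  | append_singleton v b ih =>
    rw [← List.append_assoc]
    exact st_stop _ b ih

/-- If `e` comes from a null cover, then the martingale reaches `1` where `e` does. -/
theorem ss_success (h0 : 0 ≤ e []) (hB : e [] ≤ B) (hnn : ∀ u, 0 ≤ e u)
    (havg : ∀ u, (e (u ++ [false]) + e (u ++ [true])) / 2 ≤ e u) (w : List Bool)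
    (h : 1 ≤ e w) : 1 ≤ ss e B w := by
  have key : ∀ w : List Bool, (st e B w.reverse).1 = true ∨ 1 ≤ ss e B w := by
    intro w
    induction w using List.reverseRecOn with
    | nil =>
      left
      rw [List.reverse_nil, st, if_pos ⟨h0, hB⟩]
    | append_singleton w b ih =>
      rcases ih with h1 | h1
      · by_cases h2 : e w < 1
        · left
          rw [List.reverse_append, List.reverse_singleton, List.singleton_append, st, sstep,
            List.reverse_reverse, if_pos ⟨h1, h2, hnn _, hnn _, havg _⟩]
        · right
          apply st_stop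
          have h3 := st_run (e := e) (B := B) w.reverse h1
          rw [List.reverse_reverse] at h3
          unfold ss
          rw [h3]
          linarith
      · exact Or.inr (st_stop _ _ h1)
  rcases key w with h1 | h1
  · have h3 := st_run (e := e) (B := B) w.reverse h1
    rw [List.reverse_reverse] at h3
    unfold ss
    rw [h3]
    exact h
  · exact h1

end Props

section Tree

variable {I : Type} [DecidableEq I]

theorem dtv_st (e : (I → Bool) → List Bool → ℝ) (B : ℝ) {E n : ℕ}
    (he : ∀ u : List Bool, u.length ≤ n → DTv E (fun z => e z u)) :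
    ∀ rw : List Bool, rw.length ≤ n → DTv (E * (3 * rw.length + 1)) (fun z => st (e z) B rw) := by
  classical
  intro rw
  induction rw with
  | nil =>
    intro _
    have h1 := (he [] (Nat.zero_le _)).map
      (fun c => if 0 ≤ c ∧ c ≤ B then (true, c) else (false, 0))
    refine DTv.mono ?_ h1
    simp
  | cons b rw ih =>
    intro hn
    rw [List.length_cons] at hn
    have h1 := ih (by omega)
    have h2 := he rw.reverse (by rw [List.length_reverse]; omega)
    have h3 := he (rw.reverse ++ [false]) (by
      rw [List.length_append, List.length_reverse, List.length_singleton]; omega)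
    have h4 := he (rw.reverse ++ [true]) (by
      rw [List.length_append, List.length_reverse, List.length_singleton]; omega)
    have h5 := ((h1.pair h2).pair (h3.pair h4)).map
      (fun c : ((Bool × ℝ) × ℝ) × (ℝ × ℝ) =>
        if c.1.1.1 = true ∧ c.1.2 < 1 ∧ 0 ≤ c.2.1 ∧ 0 ≤ c.2.2 ∧ (c.2.1 + c.2.2) / 2 ≤ c.1.2
        then (true, if b then c.2.2 else c.2.1) else (false, c.1.1.2))
    have h6 : E * (3 * rw.length + 1) + E + (E + E) ≤ E * (3 * (b :: rw).length + 1) := by
      rw [List.length_cons]
      have : E * (3 * (rw.length + 1) + 1) = E * (3 * rw.length + 1) + E + (E + E) := by ring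
      omega
    refine DTv.mono h6 ?_
    have h7 : (fun z => st (e z) B (b :: rw)) = fun z =>
        (fun c : ((Bool × ℝ) × ℝ) × (ℝ × ℝ) =>
        if c.1.1.1 = true ∧ c.1.2 < 1 ∧ 0 ≤ c.2.1 ∧ 0 ≤ c.2.2 ∧ (c.2.1 + c.2.2) / 2 ≤ c.1.2
        then (true, if b then c.2.2 else c.2.1) else (false, c.1.1.2))
        (((st (e z) B rw, e z rw.reverse)),
          (e z (rw.reverse ++ [false]), e z (rw.reverse ++ [true]))) := by
      funext z
      rw [st, sstep]
      cases b
      · simp
      · simp
    rw [h7]
    exact h5

theorem dtv_ss (e : (I → Bool) → List Bool → ℝ) (B : ℝ) {E n : ℕ}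
    (he : ∀ u : List Bool, u.length ≤ n → DTv E (fun z => e z u)) (w : List Bool)
    (hw : w.length ≤ n) : DTv (E * (3 * n + 1)) (fun z => ss (e z) B w) := by
  have h1 := (dtv_st e B he w.reverse (by rw [List.length_reverse]; exact hw)).map Prod.snd
  refine DTv.mono ?_ h1
  rw [List.length_reverse]
  exact Nat.mul_le_mul_left _ (by omega)

end Tree

end Pool.Agent.W911.KM
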