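import Pool.Agent.W911.KM.Meas

/-!
# No level of the polynomial hierarchy is small relative to a random oracle

`IsSigma A (fun _ => κ) B`: the language `B` is in the level `Σ_κ` of the polynomial hierarchy
relative to the oracle `A`, i.e. it is decided in polynomial time relative to `A` with `κ`
alternating quantifiers, the first one existential (`κ = 0` is `P`, `κ = 1` is `NP`).

`NullP O X`: the class `X` of languages has `p`-measure zero relative to the oracle `O`, i.e. it
has a null cover which is computable (through dyadic approximations) in polynomial time relative
to `O`.

Relative to almost every oracle `A`, the following holds for all `κ`. There is a language `L` in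
`Σ_{κ+1}` such that no class which contains `L` has `p`-measure zero, not even relative to the join
of `A` and any set `B` in `Σ_κ`. In particular `Σ_{κ+1}` does not have `p`-measure zero, even for
the null covers which are computable in polynomial time with questions to sets in `Σ_κ`.
-/

set_option autoImplicit false

namespace Pool.Agent.W911.KM.NotSmall

open MeasureTheory Pool.Agent.W911.AL Pool.Agent.W911.KM
open Pool.Agent.H620R2.Gauge (Oracle)

theorem not_small : ∀ᵐ A ∂fair, ∀ κ : ℕ, ∃ L : Set (List Bool), IsSigma A (fun _ => κ + 1) L ∧
    ∀ B : Set (List Bool), IsSigma A (fun _ => κ) B →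
      ∀ X : Set (Set (List Bool)), L ∈ X → ¬ NullP (join A B) X := by
  filter_upwards [km_ae] with A hA κ
  obtain ⟨L, hL, h⟩ := hA κ 0
  exact ⟨L, hL, fun B hB X hX hn => h B hB X hX (hn.nullQP 0)⟩

end Pool.Agent.W911.KM.NotSmall
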