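import Pool.Agent.W911.KM.Chain
import Pool.Agent.W911.AL.Easy

/-!
# The oracles for which a null cover wins have measure zero
-/

set_option autoImplicit false

namespace Pool.Agent.W911.KM

open Finset Filter MeasureTheory Pool.Agent.NPC H568R2 Pool.Agent.H676
open Pool.Agent.H620R2.Gauge Pool.Agent.H591R3.PHG Pool.Agent.H591R3.PHG.FinalAux
open Pool.Agent.W911.AL
open Pool.Agent.W911.IB (Ew bt law_local orc_pre_eq)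

/-- the mean of the capital -/
noncomputable def EE (θ : Par) (k ℓ N : ℕ) : ℝ :=
  Ex unif (fun a : Fin N → Bool => SV θ k ℓ (orc N a))

theorem EE_nonneg (θ : Par) (k ℓ N : ℕ) : 0 ≤ EE θ k ℓ N := by
  unfold EE Ex
  refine Finset.sum_nonneg fun a _ => mul_nonneg (Finset.prod_nonneg fun i _ => unif_nonneg _) ?_
  exact ss_nonneg _

/-- The parameters of the trees are large enough for the algorithms. -/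
def GoodB (θ : Par) : Prop := (∀ ℓ, 2 * ℓ + 10 ≤ θ.n ℓ) ∧
  ∃ qb qb' : Polynomial ℕ, (∀ x a : List Bool, a.length ≤ θ.M.p.eval x.length →
      (θ.M.D (pairBits x a)).length ≤ qb.eval x.length) ∧
    (∀ (A : Oracle) (x : List Bool), ∃ Q : Finset (List Bool),
      Q.card ≤ θ.M.p.eval x.length ∧ (∀ q ∈ Q, q.length ≤ qb'.eval x.length) ∧
      ∀ A' : Oracle, (∀ q ∈ Q, A' q = A q) → θ.M.out A' x = θ.M.out A x) ∧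
    ∀ᶠ ℓ : ℕ in atTop, (θ.big qb qb').eval (LL θ.cp ℓ) ≤ 2 ^ (θ.n ℓ / 8)

theorem good_qp (M : Alg) (c : ℕ) (V : Alg) (p : Polynomial ℕ) (κ : ℕ) :
    GoodB ⟨M, c, (1, c + 1), V, p, κ⟩ := by
  obtain ⟨qb, hqb⟩ := exists_qb M
  obtain ⟨qb', hqb'⟩ := Alg.out_local M
  refine ⟨fun ℓ => ?_, qb, qb', hqb, hqb', poly_small c _⟩
  show 2 * ℓ + 10 ≤ 1 * (ℓ + 5) ^ (c + 1 + 1)
  rw [one_mul]
  calc 2 * ℓ + 10 ≤ (ℓ + 5) * (ℓ + 5) := by nlinarith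
    _ = (ℓ + 5) ^ 2 := (sq _).symm
    _ ≤ _ := Nat.pow_le_pow_right (by omega) (by omega)

theorem good_lin (M V : Alg) (p : Polynomial ℕ) (κ : ℕ) :
    ∃ C : ℕ, GoodB ⟨M, 0, (C, 0), V, p, κ⟩ := by
  obtain ⟨qb, hqb⟩ := exists_qb M
  obtain ⟨qb', hqb'⟩ := Alg.out_local M
  obtain ⟨C, hC, h⟩ := poly_small' (Par.big ⟨M, 0, (0, 0), V, p, κ⟩ qb qb')
  refine ⟨C, fun ℓ => ?_, qb, qb', hqb, hqb', h⟩
  show 2 * ℓ + 10 ≤ C * (ℓ + 5) ^ (0 + 1)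
  rw [zero_add, pow_one]
  nlinarith

theorem step (hfin : FinStm) (hgd : GdStm) (hsiz : SizStm) (θ : Par) (hg : GoodB θ) :
    ∃ ℓ1 : ℕ, ∀ ℓ ≥ ℓ1, ∀ k, 1 ≤ k → k ≤ 2 ^ (ℓ + 3) → ∃ N0 : ℕ, ∀ N ≥ N0,
      EE θ k (ℓ + 1) N ≤ (1 + 1 / 2 ^ ℓ) * EE θ k ℓ N + 1 / 2 ^ ℓ := by
  obtain ⟨hn, qb, qb', hqb, hqb', hbig⟩ := hg
  obtain ⟨ℓ1, h1⟩ := eventually_atTop.1 (exists_params θ qb qb' hbig)
  refine ⟨ℓ1, fun ℓ hℓ k hk1 hk => ?_⟩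
  obtain ⟨L, m, hL, hc, hMp, h3, hT⟩ := h1 ℓ hℓ
  refine ⟨2 ^ (2 * ℓ + 1 + 64 * θ.n ℓ + (exl (θ.n ℓ) θ.κ).sum + 8 * θ.n ℓ + 1), fun N hN => ?_⟩
  have hn := hn ℓ
  have hb := block hfin hgd hsiz θ hqb hqb' (hc k hk1 hk) hL (by omega) (N := N) hN
  have hR : RR θ ℓ (θ.n ℓ / 8) (LL θ.cp ℓ) ≤ 2 ^ (4 * (θ.n ℓ / 8)) := by
    unfold RR
    calc θ.M.p.eval (LL θ.cp ℓ) * 2 ^ (2 * (θ.n ℓ / 8)) * (3 * 2 ^ (ℓ + 1) + 1)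
        ≤ 2 ^ (θ.n ℓ / 8) * 2 ^ (2 * (θ.n ℓ / 8)) * 2 ^ (θ.n ℓ / 8) :=
          Nat.mul_le_mul (Nat.mul_le_mul_right _ hMp) h3
      _ = 2 ^ (4 * (θ.n ℓ / 8)) := by rw [← pow_add, ← pow_add]; congr 1; ring
  have hnum := numbers hn (Nat.mul_div_le (θ.n ℓ) 8) hR hT (S := EE θ k ℓ N) (EE_nonneg _ _ _ _)
  refine le_trans ?_ hnum
  exact hb

theorem chain (hfin : FinStm) (hgd : GdStm) (hsiz : SizStm) (θ : Par) (hg : GoodB θ) : ∃ ℓ1 : ℕ, ∀ ℓ0 ≥ ℓ1,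
    ∀ k, 1 ≤ k → k ≤ 2 ^ (ℓ0 + 3) → ∀ j : ℕ, ∃ N0 : ℕ, ∀ N ≥ N0,
      EE θ k (ℓ0 + j) N + 1 ≤ Real.exp (2 / 2 ^ ℓ0 * (1 - 1 / 2 ^ j)) * (EE θ k ℓ0 N + 1) := by
  obtain ⟨ℓ1, h1⟩ := step hfin hgd hsiz θ hg
  refine ⟨ℓ1, fun ℓ0 hℓ k hk1 hk j => ?_⟩
  induction j with
  | zero =>
    refine ⟨0, fun N _ => ?_⟩
    simp
  | succ j ih =>
    obtain ⟨N0, hN0⟩ := ih
    obtain ⟨N1, hN1⟩ := h1 (ℓ0 + j) (by omega) k hk1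
      (hk.trans (Nat.pow_le_pow_right (by norm_num) (by omega)))
    refine ⟨max N0 N1, fun N hN => ?_⟩
    have h2 := hN0 N (le_trans (le_max_left _ _) hN)
    have h3 := hN1 N (le_trans (le_max_right _ _) hN)
    have h4 : (1 : ℝ) + 1 / 2 ^ (ℓ0 + j) ≤ Real.exp (1 / 2 ^ (ℓ0 + j)) := by
      have := Real.add_one_le_exp ((1 : ℝ) / 2 ^ (ℓ0 + j))
      linarith
    have h5 := EE_nonneg θ k (ℓ0 + j) N
    have h6 : (2 : ℝ) / 2 ^ ℓ0 * (1 - 1 / 2 ^ (j + 1)) =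
        1 / 2 ^ (ℓ0 + j) + 2 / 2 ^ ℓ0 * (1 - 1 / 2 ^ j) := by
      rw [pow_succ, pow_add]
      field_simp
      ring
    rw [h6, Real.exp_add]
    calc EE θ k (ℓ0 + (j + 1)) N + 1
        ≤ (1 + 1 / 2 ^ (ℓ0 + j)) * (EE θ k (ℓ0 + j) N + 1) := by
          have h7 : EE θ k (ℓ0 + (j + 1)) N = EE θ k (ℓ0 + j + 1) N := rfl
          rw [h7]
          linarith
      _ ≤ Real.exp (1 / 2 ^ (ℓ0 + j)) * (EE θ k (ℓ0 + j) N + 1) :=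
          mul_le_mul_of_nonneg_right h4 (by linarith)
      _ ≤ Real.exp (1 / 2 ^ (ℓ0 + j)) * (Real.exp (2 / 2 ^ ℓ0 * (1 - 1 / 2 ^ j)) *
          (EE θ k ℓ0 N + 1)) := mul_le_mul_of_nonneg_left h2 (Real.exp_pos _).le
      _ = _ := by ring

theorem EE_start (θ : Par) (ℓ0 N : ℕ) :
    EE θ (2 ^ (ℓ0 + 1)) ℓ0 N ≤ 4 / 2 ^ ℓ0 := by
  have h1 : ∀ a : Fin N → Bool, SV θ (2 ^ (ℓ0 + 1)) ℓ0 (orc N a) ≤ 4 / 2 ^ ℓ0 := by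
    intro a
    have h2 := ss_growth (e := ee θ.M θ.cp (OB θ.V θ.p θ.κ (orc N a)) (2 ^ (ℓ0 + 1)))
      (B := 4 / 2 ^ (2 ^ (ℓ0 + 1))) (by positivity) (prefL (θ.L (orc N a)) (2 ^ ℓ0 - 1))
    rw [length_prefL] at h2
    refine h2.trans ?_
    have h3 : 1 ≤ 2 ^ ℓ0 := Nat.one_le_two_pow
    have h4 : 2 ^ (ℓ0 + 1) = (2 ^ ℓ0 - 1) + (2 ^ ℓ0 + 1) := by rw [pow_succ]; omega
    have h5 : ℓ0 ≤ 2 ^ ℓ0 + 1 := by
      have := (Nat.lt_two_pow_self (n := ℓ0)).le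
      omega
    rw [h4, pow_add (2 : ℝ) (2 ^ ℓ0 - 1)]
    have h6 : (2 : ℝ) ^ (2 ^ ℓ0 - 1) * (4 / (2 ^ (2 ^ ℓ0 - 1) * 2 ^ (2 ^ ℓ0 + 1))) =
        4 / 2 ^ (2 ^ ℓ0 + 1) := by
      field_simp
    rw [h6]
    exact div_le_div_of_nonneg_left (by norm_num) (by positivity)
      (pow_le_pow_right₀ (by norm_num) h5)
  unfold EE
  refine (Ex_mono unif_nonneg h1).trans (le_of_eq ?_)
  exact Ex_const (I := Fin N) unif_sum _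

theorem EE_bound (hfin : FinStm) (hgd : GdStm) (hsiz : SizStm) (θ : Par) (hg : GoodB θ) : ∃ ℓ1 : ℕ,
    ∀ ℓ0 ≥ ℓ1, ∀ j : ℕ, ∃ N0 : ℕ, ∀ N ≥ N0, EE θ (2 ^ (ℓ0 + 1)) (ℓ0 + j) N ≤ 24 / 2 ^ ℓ0 := by
  obtain ⟨ℓ1, h1⟩ := chain hfin hgd hsiz θ hg
  refine ⟨max ℓ1 1, fun ℓ0 hℓ j => ?_⟩
  obtain ⟨N0, hN0⟩ := h1 ℓ0 (le_trans (le_max_left _ _) hℓ) (2 ^ (ℓ0 + 1)) Nat.one_le_two_pow
    (Nat.pow_le_pow_right (by norm_num) (by omega)) j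
  refine ⟨N0, fun N hN => ?_⟩
  have h2 := hN0 N hN
  have h3 := EE_start θ ℓ0 N
  have h4 := EE_nonneg θ (2 ^ (ℓ0 + 1)) ℓ0 N
  have hℓ1 : 1 ≤ ℓ0 := le_trans (le_max_right _ _) hℓ
  have h5 : (2 : ℝ) ≤ 2 ^ ℓ0 := by
    calc (2 : ℝ) = 2 ^ 1 := (pow_one _).symm
      _ ≤ _ := pow_le_pow_right₀ (by norm_num) hℓ1
  have h6 : (2 : ℝ) / 2 ^ ℓ0 ≤ 1 := by
    rw [div_le_one (by positivity)]; exact h5
  have h7 : (2 : ℝ) / 2 ^ ℓ0 * (1 - 1 / 2 ^ j) ≤ 2 / 2 ^ ℓ0 := by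
    have h8 : (0 : ℝ) ≤ 1 / 2 ^ j := by positivity
    have h9 : (0 : ℝ) ≤ 2 / 2 ^ ℓ0 := by positivity
    nlinarith
  have h10 : Real.exp (2 / 2 ^ ℓ0 * (1 - 1 / 2 ^ j)) ≤ 1 + 2 * (2 / 2 ^ ℓ0) :=
    (Real.exp_le_exp.2 h7).trans (exp_bound (by positivity) h6)
  have h11 : Real.exp (2 / 2 ^ ℓ0 * (1 - 1 / 2 ^ j)) * (EE θ (2 ^ (ℓ0 + 1)) ℓ0 N + 1) ≤
      (1 + 2 * (2 / 2 ^ ℓ0)) * (4 / 2 ^ ℓ0 + 1) :=
    mul_le_mul h10 (by linarith) (by linarith) (by positivity)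
  have h12 : (1 + 2 * (2 / 2 ^ ℓ0)) * (4 / 2 ^ ℓ0 + 1) ≤ 24 / 2 ^ ℓ0 + (1 : ℝ) := by
    have h13 : (2 : ℝ) / 2 ^ ℓ0 * (2 / 2 ^ ℓ0) ≤ 2 / 2 ^ ℓ0 := by
      have h9 : (0 : ℝ) ≤ 2 / 2 ^ ℓ0 := by positivity
      nlinarith
    have h14 : (4 : ℝ) / 2 ^ ℓ0 = 2 * (2 / 2 ^ ℓ0) := by ring
    have h15 : (24 : ℝ) / 2 ^ ℓ0 = 12 * (2 / 2 ^ ℓ0) := by ring
    rw [h14, h15]
    nlinarith [h13, (show (0 : ℝ) ≤ 2 / 2 ^ ℓ0 by positivity)]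
  linarith

/-- the capital depends on a finite part of the oracle -/
theorem SV_local (θ : Par) (k ℓ : ℕ) : ∃ N0 : ℕ, ∀ N ≥ N0, ∀ A : Oracle,
    SV θ k ℓ A = SV θ k ℓ (orc N (pre N A)) := by
  obtain ⟨qb, hqb⟩ := Alg.out_local θ.M
  obtain ⟨b, hb⟩ := ob_congr θ.V θ.p θ.κ
  set Λ : ℕ := 2 ^ (Nat.size (4 * k + 3 * (2 ^ ℓ - 1) + 8)) ^ θ.cp * 2 + 4 * k +
    3 * (2 ^ ℓ - 1) + 9 with hΛ
  set f : ℕ → ℕ := fun i => 2 * i + 1 + 64 * nn θ.cl i +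
      (exl (nn θ.cl i) θ.κ).sum + 8 * nn θ.cl i with hf
  set n : ℕ := (Finset.range ℓ).sup f + b.eval (qb.eval Λ) with hn
  refine ⟨2 ^ (n + 1), fun N hN A => ?_⟩
  have h1 : ∀ q : List Bool, q.length ≤ n → A q = orc N (pre N A) q := fun q hq =>
    (orc_pre_eq hN A q hq).symm
  have h2 : prefL (θ.L A) (2 ^ ℓ - 1) = prefL (θ.L (orc N (pre N A))) (2 ^ ℓ - 1) := by
    unfold prefL
    apply List.map_congr_left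
    intro i hi
    rw [List.mem_range] at hi
    rw [decide_eq_decide]
    show HT θ.κ θ.cl A (str i) = false ↔
      HT θ.κ θ.cl (orc N (pre N A)) (str i) = false
    have h3 : HT θ.κ θ.cl A (str i) = HT θ.κ θ.cl (orc N (pre N A)) (str i) := by
      apply ht_local
      intro q hq
      apply h1
      refine hq.trans ?_
      have h4 : f (str i).length ≤ (Finset.range ℓ).sup f :=
        Finset.le_sup (Finset.mem_range.2 (length_str_lt hi))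
      have h5 : f (str i).length = 2 * (str i).length + 1 + 64 * nn θ.cl (str i).length +
        (exl (nn θ.cl (str i).length) θ.κ).sum + 8 * nn θ.cl (str i).length := rfl
      omega
    rw [h3]
  unfold SV
  rw [h2]
  apply ss_congr
  intro u hu
  rw [length_prefL] at hu
  refine ee_congr θ.M hqb (n := 2 ^ ℓ - 1) (Λ := Λ) (by omega) le_rfl (fun q hq => ?_) u hu
  apply hb
  intro y hy
  apply h1
  have h6 := eval_mono b hq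
  omega

open Classical in
theorem win_bound (hfin : FinStm) (hgd : GdStm) (hsiz : SizStm) (θ : Par) (hg : GoodB θ) : ∃ ℓ1 : ℕ,
    ∀ ℓ0 ≥ ℓ1, fair {A | ∃ ℓ, 1 ≤ SV θ (2 ^ (ℓ0 + 1)) ℓ A} ≤ ENNReal.ofReal (24 / 2 ^ ℓ0) := by
  obtain ⟨ℓ1, h1⟩ := EE_bound hfin hgd hsiz θ hg
  refine ⟨ℓ1, fun ℓ0 hℓ => ?_⟩
  have hmono : ∀ A : Oracle, ∀ ℓ j : ℕ, 1 ≤ SV θ (2 ^ (ℓ0 + 1)) ℓ A →
      1 ≤ SV θ (2 ^ (ℓ0 + 1)) (ℓ + j) A := by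
    intro A ℓ j h
    unfold SV at h ⊢
    have h0 : 2 ^ ℓ ≤ 2 ^ (ℓ + j) := Nat.pow_le_pow_right (by norm_num) (by omega)
    obtain ⟨K, hK⟩ : ∃ K, 2 ^ (ℓ + j) - 1 = (2 ^ ℓ - 1) + K :=
      ⟨2 ^ (ℓ + j) - 2 ^ ℓ, by have := Nat.one_le_two_pow (n := ℓ); omega⟩
    rw [hK, prefL_add]
    exact st_stop' _ _ h
  have h2 : {A | ∃ ℓ, 1 ≤ SV θ (2 ^ (ℓ0 + 1)) ℓ A} ⊆
      ⋃ j : ℕ, {A | 1 ≤ SV θ (2 ^ (ℓ0 + 1)) (ℓ0 + j) A} := by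
    rintro A ⟨ℓ, hA⟩
    rw [Set.mem_iUnion]
    refine ⟨ℓ, ?_⟩
    have := hmono A ℓ ℓ0 hA
    rwa [Nat.add_comm ℓ ℓ0] at this
  refine (measure_mono h2).trans ?_
  have hm : Monotone (fun j : ℕ => {A : Oracle | 1 ≤ SV θ (2 ^ (ℓ0 + 1)) (ℓ0 + j) A}) := by
    intro i j hij A hA
    obtain ⟨d, rfl⟩ := Nat.exists_eq_add_of_le hij
    have := hmono A (ℓ0 + i) d hA
    rwa [Nat.add_assoc] at this
  rw [hm.measure_iUnion]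
  refine iSup_le fun j => ?_
  obtain ⟨N0, hN0⟩ := h1 ℓ0 hℓ j
  obtain ⟨N1, hN1⟩ := SV_local θ (2 ^ (ℓ0 + 1)) (ℓ0 + j)
  have h3 := hN0 (max N0 N1) (le_max_left _ _)
  have h4 := hN1 (max N0 N1) (le_max_right _ _)
  set N : ℕ := max N0 N1 with hN
  have h5 : {A : Oracle | 1 ≤ SV θ (2 ^ (ℓ0 + 1)) (ℓ0 + j) A} =
      {A : Oracle | (fun a : Fin N → Bool => 1 ≤ SV θ (2 ^ (ℓ0 + 1)) (ℓ0 + j) (orc N a))
        (pre N A)} := by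
    ext A
    rw [Set.mem_setOf_eq, Set.mem_setOf_eq, h4 A]
  have h6 := law_local (fun _ => ⟨1 / 2, by norm_num, by norm_num⟩) N
    (fun a : Fin N → Bool => 1 ≤ SV θ (2 ^ (ℓ0 + 1)) (ℓ0 + j) (orc N a))
  rw [Ew_fair] at h6
  rw [h5]
  refine le_trans (le_of_eq h6) ?_
  apply ENNReal.ofReal_le_ofReal
  refine le_trans (Ex_mono unif_nonneg fun a => ?_) h3
  split_ifs with h6
  · exact h6
  · exact ss_nonneg _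

theorem win_null (hfin : FinStm) (hgd : GdStm) (hsiz : SizStm) (θ : Par) (hg : GoodB θ) :
    fair {A | ∀ k, ∃ ℓ, 1 ≤ SV θ k ℓ A} = 0 := by
  obtain ⟨ℓ1, h1⟩ := win_bound hfin hgd hsiz θ hg
  have h2 : Tendsto (fun ℓ0 : ℕ => ENNReal.ofReal (24 / 2 ^ ℓ0)) atTop (nhds 0) := by
    have h3 : Tendsto (fun ℓ0 : ℕ => (24 : ℝ) / 2 ^ ℓ0) atTop (nhds 0) := by
      have h4 : Tendsto (fun ℓ0 : ℕ => (24 : ℝ) * (1 / 2) ^ ℓ0) atTop (nhds (24 * 0)) :=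
        (tendsto_pow_atTop_nhds_zero_of_lt_one (by norm_num) (by norm_num)).const_mul 24
      rw [mul_zero] at h4
      refine h4.congr fun ℓ0 => ?_
      rw [div_pow, one_pow]
      ring
    have h5 := ENNReal.tendsto_ofReal h3
    rwa [ENNReal.ofReal_zero] at h5
  refine le_antisymm (ge_of_tendsto h2 ?_) bot_le
  filter_upwards [eventually_ge_atTop ℓ1] with ℓ0 hℓ0
  refine (measure_mono ?_).trans (h1 ℓ0 hℓ0)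
  intro A hA
  exact hA _

end Pool.Agent.W911.KM
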