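import Pool.Agent.W911.KM.Meas
import Pool.Agent.H673R2.OneTT.Kset
import Pool.Agent.H620R2.GaugeR.R2

/-!
# A universal set in every level of the polynomial hierarchy
-/

set_option autoImplicit false

set_option maxHeartbeats 400000

namespace Pool.Agent.W911.KM

open Finset Filter Pool.Agent.NPC H568R2 Pool.Agent.H676
open Pool.Agent.H622R2 Pool.Agent.H620R2.Gauge Pool.Agent.H591R3.PHG Pool.Agent.H591R3.PHG.FinalAux
open Pool.Agent.W911.AL
open Pool.Agent.H660R2.NX (Code U IsCode U_complete poly_U)
open Pool.Agent.H673R2.OneTT (uD poly_uD actU insK actU_insK le_length_insK)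

attribute [local irreducible] unpair

/-- the universal algorithm -/
noncomputable def uG : Alg where
  D := uD
  poly := H622R2.polyTime_of_poly_list poly_uD
  p := Polynomial.X + 1

theorem uG_total (A : Oracle) (x : List Bool) : ∃ z, uG.out A x = some z := by
  have key : ∀ (n : ℕ) (a : List Bool), a.length + (n + 1) = x.length + 1 →
      ∃ z, uG.run A x (n + 1) a = some z := by
    intro n
    induction n with
    | zero =>
      intro a ha
      have h1 : uG.D (pairBits x a) = [true] := by
        show uD _ = _
        unfold uD
        rw [unpair_pairBits, if_neg (by simp only; omega)]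
      rw [Alg.run, h1]
      exact ⟨_, rfl⟩
    | succ n ih =>
      intro a ha
      rw [Alg.run]
      rcases uG.D (pairBits x a) with _ | ⟨c, q⟩
      · exact ⟨_, rfl⟩
      · cases c with
        | true => exact ⟨_, rfl⟩
        | false => exact ih _ (by rw [List.length_append, List.length_singleton]; omega)
  have h := key x.length [] (by simp)
  have h1 : uG.p.eval x.length = x.length + 1 := by
    show (Polynomial.X + 1 : Polynomial ℕ).eval x.length = _
    simp
  unfold Alg.out
  rw [h1]
  exact h

theorem uG_complete {M : Alg} {e : Code} {pe : Polynomial ℕ} (he : IsCode e M.D pe) {A : Oracle}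
    {u w z : List Bool} {m B : ℕ} (hm : B ≤ m)
    (hB : ∀ a : List Bool, a.length ≤ B → pe.eval (pairBits (pairBits u w) a).length ≤ m) :
    ∀ (n : ℕ) (a : List Bool), a.length + n ≤ B → M.run A (pairBits u w) n a = some z →
      ∀ n' ≥ n, uG.run A (pairBits (insK e u m) w) n' a = some z := by
  intro n
  induction n with
  | zero => intro a _ h; simp [Alg.run] at h
  | succ n ih =>
    intro a ha h n' hn'
    obtain ⟨n', rfl⟩ : ∃ k, n' = k + 1 := ⟨n' - 1, by omega⟩
    rw [Alg.run] at h ⊢
    have h0 : a.length + 1 ≤ (pairBits (insK e u m) w).length := by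
      have h1 := le_length_insK e u m
      rw [length_pairBits]
      omega
    have h1 : uG.D (pairBits (pairBits (insK e u m) w) a) = M.D (pairBits (pairBits u w) a) := by
      show uD _ = _
      unfold uD
      rw [unpair_pairBits, if_pos h0, actU_insK, he _ _ (hB a (by omega))]
      rfl
    rw [h1]
    rcases hq : M.D (pairBits (pairBits u w) a) with _ | ⟨c, q⟩
    · rw [hq] at h
      exact h
    · cases c with
      | true =>
        rw [hq] at h
        exact h
      | false =>
        rw [hq] at h
        exact ih _ (by rw [List.length_append, List.length_singleton]; omega) h n' (by omega)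

/-- if the time bound is large enough, the universal algorithm simulates the algorithm `M` -/
theorem uG_sim {M : Alg} {e : Code} {pe : Polynomial ℕ} (he : IsCode e M.D pe) {A : Oracle}
    {V : List Bool → List Bool} (hV : ∀ x, M.out A x = some (V x)) {u w : List Bool} {m : ℕ}
    (h1 : M.p.eval (pairBits u w).length ≤ m)
    (h2 : pe.eval (2 * (pairBits u w).length + 1 + M.p.eval (pairBits u w).length) ≤ m) :
    uG.out A (pairBits (insK e u m) w) = some (V (pairBits u w)) := by
  have h3 := hV (pairBits u w)
  unfold Alg.out at h3 ⊢
  have h4 : uG.p.eval (pairBits (insK e u m) w).length = (pairBits (insK e u m) w).length + 1 := by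
    show (Polynomial.X + 1 : Polynomial ℕ).eval _ = _
    simp
  refine uG_complete he (B := M.p.eval (pairBits u w).length) h1 ?_ _ _ (by simp) h3 _ ?_
  · intro a ha
    refine le_trans (eval_mono pe ?_) h2
    rw [length_pairBits (pairBits u w) a]
    omega
  · rw [h4, length_pairBits]
    have h5 := le_length_insK e u m
    omega

/-- of every block of length `P`, the first `m` letters -/
def cut (P m : ℕ) : ℕ → List Bool → List Bool
  | 0, _ => []
  | k + 1, u => u.take m ++ cut P m k (u.drop P)

theorem cut_append {P m : ℕ} (hm : m ≤ P) : ∀ (i : ℕ) (u w : List Bool), u.length = i * P →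
    w.length = P → cut P m (i + 1) (u ++ w) = cut P m i u ++ w.take m := by
  intro i
  induction i with
  | zero =>
    intro u w hu hw
    have h1 : u = [] := List.length_eq_zero_iff.1 (by simpa using hu)
    subst h1
    simp [cut]
  | succ i ih =>
    intro u w hu hw
    have h1 : P ≤ u.length := by rw [hu, Nat.succ_mul]; omega
    have h2 : (u ++ w).drop P = u.drop P ++ w := by
      rw [List.drop_append_of_le_length h1]
    have h3 : cut P m (i + 1 + 1) (u ++ w) =
        (u ++ w).take m ++ cut P m (i + 1) ((u ++ w).drop P) := rfl
    rw [h3, h2, ih (u.drop P) w (by rw [List.length_drop, hu, Nat.succ_mul]; omega) hw]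
    have h4 : cut P m (i + 1) u = u.take m ++ cut P m i (u.drop P) := rfl
    rw [h4, List.append_assoc, List.take_append_of_le_length (hm.trans h1)]

theorem length_cut {P m : ℕ} (hm : m ≤ P) : ∀ (k : ℕ) (u : List Bool), u.length = k * P →
    (cut P m k u).length = k * m := by
  intro k
  induction k with
  | zero => intro u _; simp [cut]
  | succ k ih =>
    intro u hu
    have h1 : P ≤ u.length := by rw [hu, Nat.succ_mul]; omega
    have h2 : cut P m (k + 1) u = u.take m ++ cut P m k (u.drop P) := rfl
    rw [h2, List.length_append, List.length_take, min_eq_left (hm.trans h1),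
      ih _ (by rw [List.length_drop, hu, Nat.succ_mul]; omega), Nat.succ_mul]
    omega

theorem alt_cut {P m κ : ℕ} (hm : m ≤ P) (R : List Bool → Prop) :
    ∀ (j i : ℕ) (b : Bool) (u : List Bool), i + j = κ → u.length = i * P →
      (Alt P (fun v => R (cut P m κ v)) j b u ↔ Alt m R j b (cut P m i u)) := by
  intro j
  induction j with
  | zero =>
    intro i b u hi hu
    have hi : i = κ := by omega
    subst hi
    cases b <;> exact Iff.rfl
  | succ j ih =>
    intro i b u hi hu
    have h1 : ∀ (b : Bool) (w : List Bool), w.length = P →
        (Alt P (fun v => R (cut P m κ v)) j b (u ++ w) ↔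
          Alt m R j b (cut P m i u ++ w.take m)) := by
      intro b w hw
      rw [ih (i + 1) b (u ++ w) (by omega) (by rw [List.length_append, hu, hw]; ring),
        cut_append hm i u w hu hw]
    cases b with
    | true =>
      simp only [Alt]
      constructor
      · rintro ⟨w, hw, h⟩
        exact ⟨w.take m, by rw [List.length_take, hw, min_eq_left hm], (h1 _ w hw).1 h⟩
      · rintro ⟨w, hw, h⟩
        refine ⟨w ++ List.replicate (P - m) false, ?_, ?_⟩
        · rw [List.length_append, List.length_replicate, hw]; omega
        · rw [h1 _ _ (by rw [List.length_append, List.length_replicate, hw]; omega),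
            List.take_append_of_le_length hw.ge, List.take_of_length_le hw.le]
          exact h
    | false =>
      simp only [Alt]
      constructor
      · intro h w hw
        have h2 := h (w ++ List.replicate (P - m) false)
          (by rw [List.length_append, List.length_replicate, hw]; omega)
        rw [h1 _ _ (by rw [List.length_append, List.length_replicate, hw]; omega),
            List.take_append_of_le_length hw.ge, List.take_of_length_le hw.le] at h2
        exact h2
      · intro h w hw
        exact (h1 _ w hw).2 (h (w.take m) (by rw [List.length_take, hw, min_eq_left hm]))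

/-- the universal set in the level `Σ_k` -/
def BU (A : Oracle) (k : ℕ) : Set (List Bool) :=
  {z | Alt (unpair z).2.length (fun u => uG.out A (pairBits (unpair z).1 u) = some [true])
    k true []}

theorem poly_cut {α : Type} [TEnc α] (k : ℕ) : ∀ {u : α → List Bool} {P m : α → ℕ}, Poly u →
    UPoly P → UPoly m → Poly (fun a => cut (P a) (m a) k (u a)) := by
  induction k with
  | zero => intro u P m _ _ _; exact NPC.Poly.const _
  | succ k ih =>
    intro u P m hu hP hm
    exact Poly.append (R1.poly_take hu hm) (ih (Up.poly_drop hu hP) hP hm)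

theorem length_unpair_snd (z : List Bool) : (unpair z).2.length ≤ z.length := by
  have h := Pool.Agent.H591R3.PHG.LangSig.length_unpair z
  omega

theorem sigma_BU (A : Oracle) (k : ℕ) : IsSigma A (fun _ => k) (BU A k) := by
  choose F hF using uG_total A
  have hIF : IsFP A F := ⟨uG, hF⟩
  have h1 : Poly (fun y : List Bool => (unpair y).1) := Poly.fst poly_unpair
  have h2 : Poly (fun y : List Bool => (unpair y).2) := Poly.snd poly_unpair
  have hg : Poly (fun y : List Bool => pairBits (unpair (unpair y).1).1
      (cut (unpair y).1.length (unpair (unpair y).1).2.length k (unpair y).2)) :=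
    poly_pairBits (h1.comp h1) (poly_cut k h2 (UPoly.length h1) (UPoly.length (h2.comp h1)))
  refine ⟨_, Polynomial.X, hIF.precomp hg, fun x => ?_⟩
  have e : ∀ u : List Bool, (F (pairBits (unpair (unpair (pairBits x u)).1).1
      (cut (unpair (pairBits x u)).1.length (unpair (unpair (pairBits x u)).1).2.length k
        (unpair (pairBits x u)).2)) = [true]) ↔
      F (pairBits (unpair x).1 (cut x.length (unpair x).2.length k u)) = [true] := by
    intro u
    rw [unpair_pairBits]
  simp only [e]
  rw [Polynomial.eval_X]
  have h3 := alt_cut (κ := k) (length_unpair_snd x)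
    (fun u => F (pairBits (unpair x).1 u) = [true]) k 0 true [] (by omega) (by simp)
  rw [h3]
  unfold BU
  simp only [Set.mem_setOf_eq, hF, Option.some_inj]
  exact Iff.rfl

/-- the instance of the universal set given by the description `s`, the input `x` and the time
bound `m` -/
def ist (s x : List Bool) (m : ℕ) : List Bool :=
  (unbits (Code × Code) s).elim [] (fun c =>
    pairBits (insK c.1 x m) ((U c.2 x m).elim [] (fun r => r)))

theorem ist_univ {A : Oracle} {k : ℕ} {L : Set (List Bool)} (hL : IsSigma A (fun _ => k) L) :
    ∃ (s : List Bool) (b : Polynomial ℕ), ∀ x m, b.eval x.length ≤ m →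
      (ist s x m ∈ BU A k ↔ x ∈ L) := by
  obtain ⟨V, p, ⟨M, hM⟩, hx⟩ := hL
  obtain ⟨e, pe, he⟩ := U_complete M.poly
  have hcode : IsCode e M.D pe := he
  have hP : Poly (fun x : List Bool => List.replicate (p.eval x.length) true) :=
    Pool.Agent.H628R3.RO.p_replicate (UPoly.eval (UPoly.length Poly.id) p) true
  obtain ⟨e2, pe2, he2⟩ := U_complete (H622R2.polyTime_of_poly_list hP)
  set b1 : Polynomial ℕ := 2 * Polynomial.X + 1 + Polynomial.C k * p with hb1
  set b2 : Polynomial ℕ := M.p.comp b1 with hb2
  refine ⟨bits (e, e2), pe2 + b2 + pe.comp (2 * b1 + 1 + b2), fun x m hm => ?_⟩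
  rw [Polynomial.eval_add, Polynomial.eval_add] at hm
  have h1 : ist (bits (e, e2)) x m =
      pairBits (insK e x m) (List.replicate (p.eval x.length) true) := by
    unfold ist
    rw [unbits_bits]
    simp only [Option.elim_some]
    rw [he2 x m (by omega)]
    rfl
  rw [h1, hx x]
  unfold BU
  simp only [Set.mem_setOf_eq, unpair_pairBits, List.length_replicate]
  apply Alt_congr
  intro u hu
  have h2 : (pairBits x u).length = b1.eval x.length := by
    rw [length_pairBits, hu, hb1]
    simp
  have h3 : M.p.eval (pairBits x u).length = b2.eval x.length := by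
    rw [hb2, Polynomial.eval_comp, h2]
  rw [uG_sim hcode hM (by omega) ?_, Option.some_inj]
  rw [h3, h2]
  have h4 : (pe.comp (2 * b1 + 1 + b2)).eval x.length =
      pe.eval (2 * b1.eval x.length + 1 + b2.eval x.length) := by
    rw [Polynomial.eval_comp]
    simp
  omega

theorem poly_ist {α : Type} [TEnc α] {s x : α → List Bool} {m : α → ℕ} (hs : Poly s)
    (hx : Poly x) (hm : UPoly m) : Poly (fun a => ist (s a) (x a) (m a)) := by
  unfold ist
  have h0 : Poly (unbits (Code × Code)) := poly_unbits
  refine Poly.optElim (h0.comp hs) (NPC.Poly.const _) ?_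
  have hx' : Poly (fun p : α × (Code × Code) => x p.1) := hx.comp (Poly.fst Poly.id)
  have hm' : UPoly (fun p : α × (Code × Code) => m p.1) := hm.comp (Poly.fst Poly.id)
  have hr : Poly (fun p : α × (Code × Code) => List.replicate (m p.1) true) :=
    Pool.Agent.H628R3.RO.p_replicate hm' true
  have h1 : Poly (fun p : α × (Code × Code) => insK p.2.1 (x p.1) (m p.1)) := by
    unfold insK
    exact poly_pairBits (R2.poly_bits (Poly.fst (Poly.snd Poly.id))) (poly_pairBits hx' hr)
  refine poly_pairBits h1 ?_
  refine Poly.optElim (o := fun p : α × (Code × Code) => U p.2.2 (x p.1) (m p.1)) ?_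
    (NPC.Poly.const _) (Poly.snd Poly.id)
  have hr' : Poly (fun p : α × (Code × Code) => (List.replicate (m p.1) true).map (fun _ => ())) :=
    NPC.Poly.map (F := fun _ _ => ()) hr (NPC.Poly.const ())
  refine (poly_U.comp (f := fun p : α × (Code × Code) =>
    (p.2.2, x p.1, (List.replicate (m p.1) true).map (fun _ => ()))) ?_).congr fun p => ?_
  · exact Poly.pair (Poly.snd (Poly.snd Poly.id)) (Poly.pair hx' hr')
  · simp only [List.length_map, List.length_replicate]

end Pool.Agent.W911.KM
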